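import Pool.Agent.Helper37.RW.I

/-!
# The generating functions of a letter whose series has a zero
-/

set_option autoImplicit false

namespace Pool.Agent.Helper37.RX

open Pool.Agent.Helper31.BD
open Pool.Agent.Helper37.RV (pr pr_self pr_ne pr_append pr_rep pr_free W W_self W_ne)
open Pool.Agent.Helper37.RU (tl tl_self tl_ne tl_append tl_rep tl_last tl_shift gf ind ind_congr
  ind_true ind_false ind_and gf_congr gf_step gf_const_mul gf_zero)

variable {E : ℕ → Set ℕ}

/-- the series of the tail of a sequence -/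
noncomputable def Am (s : ℕ → ℂ) (c : ℂ) (m : ℕ) : PowerSeries ℂ :=
  PowerSeries.mk fun j => s (m + j) * c ^ j

theorem Am_step (s : ℕ → ℂ) (c : ℂ) (m : ℕ) :
    Am s c m = PowerSeries.C (s m) + PowerSeries.C c * PowerSeries.X * Am s c (m + 1) := by
  ext k
  rw [map_add, mul_assoc, PowerSeries.coeff_C_mul]
  rcases k with _ | k
  · unfold Am
    simp
  · rw [PowerSeries.coeff_succ_X_mul]
    unfold Am
    rw [PowerSeries.coeff_mk, PowerSeries.coeff_mk, PowerSeries.coeff_C, if_neg (Nat.succ_ne_zero k),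
      zero_add, pow_succ]
    have h : m + (k + 1) = m + 1 + k := by omega
    rw [h]
    ring

/-- the function `1 + ∑ Z^j`, `j` in `E`, is rational and has a zero in `ℂ` (at `c`; the variable is scaled) -/
def HZ (E : Set ℕ) : Prop := ∃ (c : ℂ) (u v : Polynomial ℂ),
  (u : PowerSeries ℂ) * Am (fun j => ind (j ∈ E)) c 0 = (v : PowerSeries ℂ) ∧
    v.eval 1 = 0 ∧ u.eval 1 ≠ 0

theorem W_nil2 (h0 : ∀ a, 0 ∈ E a) (y R x m : ℕ) :
    W E y R x m [] ↔ (m + (if x = y then R else 0) ∈ E x ∧ (x ≠ y → R ∈ E y)) := by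
  constructor
  · intro h
    have h1 := (h x).2
    rw [if_pos rfl] at h1
    refine ⟨h1, fun hxy => ?_⟩
    have h2 := (h y).2
    rw [if_neg (Ne.symm hxy), if_pos rfl] at h2
    simpa only [tl, Nat.zero_add] using h2
  · rintro ⟨h, hy⟩ a
    refine ⟨trivial, ?_⟩
    by_cases hax : a = x
    · subst hax
      rw [if_pos rfl]
      exact h
    · rw [if_neg hax]
      simp only [tl, Nat.zero_add]
      by_cases hay : a = y
      · rw [if_pos hay, hay]
        exact hy (fun h' => hax (hay.trans h'.symm))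
      · rw [if_neg hay]
        exact h0 a

/-- the recurrence for the counter -/
theorem base_rec2 (h0 : ∀ a, 0 ∈ E a) (S : Finset ℕ) (wt : ℕ → ℂ) (y R' x : ℕ) (hx : x ∈ S)
    (m : ℕ) :
    gf S wt (fun z => ind (W E y R' x m z)) =
      PowerSeries.C (ind (m + (if x = y then R' else 0) ∈ E x ∧ (x ≠ y → R' ∈ E y))) +
      PowerSeries.C (wt x) * PowerSeries.X * gf S wt (fun z => ind (W E y R' x (m + 1) z)) +
      PowerSeries.C (ind (m ∈ E x)) * (PowerSeries.X * ∑ l ∈ S.erase x,
        PowerSeries.C (wt l) * gf S wt (fun z => ind (W E y R' l 1 z))) := by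
  classical
  have h1 : gf S wt (fun z => ind (W E y R' x m z)) =
      PowerSeries.C (ind (W E y R' x m [])) + PowerSeries.X *
      ∑ l ∈ S, PowerSeries.C (wt l) * gf S wt (fun z => ind (W E y R' x m (l :: z))) :=
    gf_step S wt _
  rw [h1, ind_congr (W_nil2 h0 y R' x m), ← Finset.add_sum_erase S _ hx]
  have h2 : gf S wt (fun z => ind (W E y R' x m (x :: z))) =
      gf S wt (fun z => ind (W E y R' x (m + 1) z)) := by
    refine gf_congr S wt _ _ fun z _ => ind_congr (W_self h0 y R' x m z)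
  have h3 : ∑ l ∈ S.erase x, PowerSeries.C (wt l) *
      gf S wt (fun z => ind (W E y R' x m (l :: z))) = PowerSeries.C (ind (m ∈ E x)) *
        ∑ l ∈ S.erase x, PowerSeries.C (wt l) * gf S wt (fun z => ind (W E y R' l 1 z)) := by
    rw [Finset.mul_sum]
    refine Finset.sum_congr rfl fun l hl => ?_
    have h4 : gf S wt (fun z => ind (W E y R' x m (l :: z))) =
        gf S wt (fun z => ind (m ∈ E x) * ind (W E y R' l 1 z)) := by
      refine gf_congr S wt _ _ fun z _ => ?_
      rw [ind_congr (W_ne h0 y R' x m l z (Finset.ne_of_mem_erase hl)), ind_and]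
    rw [h4, gf_const_mul]
    ring
  rw [h2, h3]
  ring

/-- a recurrence with the factor `X` has a unique solution -/
theorem rec_zero (c : ℂ) (D : ℕ → PowerSeries ℂ)
    (hD : ∀ m, D m = PowerSeries.C c * PowerSeries.X * D (m + 1)) : D 0 = 0 := by
  have key : ∀ M m, (PowerSeries.X : PowerSeries ℂ) ^ M ∣ D m := by
    intro M
    induction M with
    | zero => intro m; simp
    | succ M ih =>
      intro m
      rw [hD m, mul_assoc]
      refine Dvd.dvd.mul_left ?_ _
      rw [pow_succ']
      exact mul_dvd_mul_left _ (ih (m + 1))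
  ext k
  rw [map_zero]
  exact PowerSeries.X_pow_dvd_iff.1 (key (k + 1) 0) k (Nat.lt_succ_self k)

/-- the data of a letter whose series has a zero -/
theorem letter2 (h0 : ∀ a, 0 ∈ E a) (x : ℕ) (hz : HZ (E x)) :
    ∃ (c : ℂ) (e f g : Polynomial ℂ), e.eval 1 = 0 ∧ f.eval 1 ≠ 0 ∧ g.eval 1 ≠ 0 ∧
      ∀ (S : Finset ℕ) (wt : ℕ → ℂ) (y : ℕ), x ∈ S → wt x = c →
        (e : PowerSeries ℂ) * gf S wt (fun z => ind (W E y 1 x 1 z)) =
      (f : PowerSeries ℂ) * (PowerSeries.X * ∑ l ∈ S, PowerSeries.C (wt l) *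
        gf S wt (fun z => ind (W E y 1 l 1 z)) + PowerSeries.C (ind (1 ∈ E y))) -
          PowerSeries.C (ind (x = y)) * (g : PowerSeries ℂ) := by
  classical
  obtain ⟨c, u, v, huv, hv, hu⟩ := hz
  have hc : c ≠ 0 := by
    rintro rfl
    have h1 : Am (fun j => ind (j ∈ E x)) 0 0 = 1 := by
      ext k
      unfold Am
      rw [PowerSeries.coeff_mk, PowerSeries.coeff_one]
      rcases k with _ | k
      · simp [ind_true (h0 x)]
      · simp
    rw [h1, mul_one] at huv
    have h2 := Polynomial.coe_injective ℂ huv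
    rw [h2] at hu
    exact hu hv
  let Zp : Polynomial ℂ := Polynomial.C c * Polynomial.X
  have hZ1 : Zp.eval 1 = c := by simp [Zp]
  refine ⟨c, v * Zp ^ 2, Zp * (v - u),
    u - v + v * Zp * Polynomial.C (ind (1 ∈ E x)), ?_, ?_, ?_, ?_⟩
  · rw [Polynomial.eval_mul, hv, zero_mul]
  · rw [Polynomial.eval_mul, Polynomial.eval_sub, hv, hZ1, zero_sub]
    exact mul_ne_zero hc (neg_ne_zero.2 hu)
  · rw [Polynomial.eval_add, Polynomial.eval_sub, Polynomial.eval_mul, Polynomial.eval_mul, hv,
      zero_mul, zero_mul, add_zero, sub_zero]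
    exact hu
  intro S wt y hx hw
  let F : ℕ → PowerSeries ℂ := fun m => gf S wt (fun z => ind (W E y 1 x m z))
  let Z : PowerSeries ℂ := PowerSeries.C c * PowerSeries.X
  let N : PowerSeries ℂ := PowerSeries.X * ∑ l ∈ S.erase x,
    PowerSeries.C (wt l) * gf S wt (fun z => ind (W E y 1 l 1 z))
  let b : ℕ → ℂ := fun m => ind (m + (if x = y then 1 else 0) ∈ E x ∧ (x ≠ y → 1 ∈ E y))
  let a : ℕ → ℂ := fun m => ind (m ∈ E x)
  have hF : ∀ m, F m = PowerSeries.C (b m) + Z * F (m + 1) + PowerSeries.C (a m) * N := by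
    intro m
    have h1 := base_rec2 h0 S wt y 1 x hx m
    rw [hw] at h1
    exact h1
  have hF0 : F 0 = Am b c 0 + Am a c 0 * N := by
    have h1 := rec_zero c (fun m => F m - (Am b c m + Am a c m * N)) (by
      intro m
      have h2 := Am_step b c m
      have h3 := Am_step a c m
      have h4 := hF m
      change F m - (Am b c m + Am a c m * N) =
        Z * (F (m + 1) - (Am b c (m + 1) + Am a c (m + 1) * N))
      rw [h2, h3, h4]
      ring)
    exact sub_eq_zero.1 h1
  have ha0 : a 0 = 1 := ind_true (h0 x)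
  have hF0' := hF 0
  rw [ha0, map_one, one_mul, Nat.zero_add] at hF0'
  have hsum : PowerSeries.X * ∑ l ∈ S, PowerSeries.C (wt l) *
      gf S wt (fun z => ind (W E y 1 l 1 z)) = Z * F 1 + N := by
    rw [← Finset.add_sum_erase S _ hx]
    simp only [Z, N, F, hw]
    ring
  have hb0 : b 0 = ind (1 ∈ E y) := by
    refine ind_congr ?_
    by_cases hxy : x = y
    · subst hxy
      simp
    · rw [if_neg hxy]
      exact ⟨fun h => h.2 hxy, fun h => ⟨h0 x, fun _ => h⟩⟩
  rw [hb0] at hF0'
  rw [hsum]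
  have hcoe : ((v * Zp ^ 2 : Polynomial ℂ) : PowerSeries ℂ) = (v : PowerSeries ℂ) * Z ^ 2 := by
    simp only [Polynomial.coe_mul, Polynomial.coe_pow, Polynomial.coe_C, Polynomial.coe_X, Zp, Z]
  have hcof : ((Zp * (v - u) : Polynomial ℂ) : PowerSeries ℂ) =
      Z * ((v : PowerSeries ℂ) - (u : PowerSeries ℂ)) := by
    simp only [Polynomial.coe_mul, Polynomial.coe_sub, Polynomial.coe_C, Polynomial.coe_X, Zp, Z]
  rw [hcoe, hcof]
  change (v : PowerSeries ℂ) * Z ^ 2 * F 1 = _
  have huv' : (u : PowerSeries ℂ) * Am a c 0 = (v : PowerSeries ℂ) := huv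
  by_cases hxy : x = y
  · have hg : ((u - v + v * Zp * Polynomial.C (ind (1 ∈ E x)) : Polynomial ℂ) : PowerSeries ℂ) =
        (u : PowerSeries ℂ) - v + v * Z * PowerSeries.C (ind (1 ∈ E x)) := by
      simp only [Polynomial.coe_add, Polynomial.coe_mul, Polynomial.coe_sub, Polynomial.coe_C,
        Polynomial.coe_X, Zp, Z]
    rw [ind_true hxy, map_one, one_mul, hg]
    have hAa : Am a c 0 = 1 + Z * Am b c 0 := by
      have h1 := Am_step a c 0
      rw [ha0, map_one] at h1
      rw [h1]
      congr 2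
      unfold Am
      congr 1
      funext j
      have h2 : a (0 + 1 + j) = b (0 + j) := by
        refine ind_congr ?_
        rw [if_pos hxy]
        have h3 : 0 + 1 + j = 0 + j + 1 := by omega
        rw [h3]
        exact ⟨fun h => ⟨h, fun h' => absurd hxy h'⟩, fun h => h.1⟩
      rw [h2]
    rw [← hxy] at hF0' ⊢
    generalize PowerSeries.C (ind (1 ∈ E x)) = ρ at *
    generalize Am a c 0 = A at *
    generalize Am b c 0 = B at *
    -- F 0 = B + A N, F 0 = ρ + Z F 1 + N, A = 1 + Z B, u A = v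
    rw [hF0] at hF0'
    linear_combination (-(u : PowerSeries ℂ) * Z) * hF0' + (Z * N + 1) * huv' -
      (u : PowerSeries ℂ) * hAa
  · rw [ind_false hxy, map_zero, zero_mul, sub_zero]
    have hBA : Am b c 0 = Am a c 0 * PowerSeries.C (ind (1 ∈ E y)) := by
      ext k
      rw [PowerSeries.coeff_mul_C]
      unfold Am
      rw [PowerSeries.coeff_mk, PowerSeries.coeff_mk]
      have h2 : b (0 + k) = a (0 + k) * ind (1 ∈ E y) := by
        simp only [a, b]
        rw [← ind_and]
        refine ind_congr ?_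
        rw [if_neg hxy, Nat.add_zero]
        exact ⟨fun h => ⟨h.1, h.2 hxy⟩, fun h => ⟨h.1, fun _ => h.2⟩⟩
      rw [h2]
      ring
    generalize PowerSeries.C (ind (1 ∈ E y)) = ρ at *
    generalize Am a c 0 = A at *
    generalize Am b c 0 = B at *
    rw [hF0, hBA] at hF0'
    linear_combination (-(u : PowerSeries ℂ) * Z) * hF0' + (Z * (N + ρ)) * huv'

end Pool.Agent.Helper37.RX
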