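import Pool.Agent.Helper37.RX.A

/-!
# Three letters whose series have zeros: no finite code
-/

set_option autoImplicit false

namespace Pool.Agent.Helper37.RX

open Pool.Agent.Helper31.BD
open Pool.Agent.Helper37.RV (pr W Complete RunLang Ez)
open Pool.Agent.Helper37.RU (gf ind ind_congr ind_true ind_false gf_congr rank_one fac_trans)
open Pool.Agent.Helper37.RW (ColLang anchors sync)

/-- the algebra -/
theorem algebra2 (q : Polynomial ℂ) (hq : q ≠ 0) (ea eb ec fa fb fc Ga Gb : Polynomial ℂ)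
    (A : Fin 3 → Fin 2 → PowerSeries ℂ) (T : Fin 2 → PowerSeries ℂ)
    (t : Fin 3 → Polynomial ℂ) (u : Fin 2 → Polynomial ℂ) (P : Fin 3 → Fin 2 → Polynomial ℂ)
    (h : ∀ i j, (q : PowerSeries ℂ) * A i j = ((t i * u j + q * P i j : Polynomial ℂ) : PowerSeries ℂ))
    (ha0 : (ea : PowerSeries ℂ) * A 0 0 = fa * T 0 - Ga)
    (ha1 : (ea : PowerSeries ℂ) * A 0 1 = fa * T 1)
    (hb0 : (eb : PowerSeries ℂ) * A 1 0 = fb * T 0)
    (hb1 : (eb : PowerSeries ℂ) * A 1 1 = fb * T 1 - Gb)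
    (hc0 : (ec : PowerSeries ℂ) * A 2 0 = fc * T 0)
    (hc1 : (ec : PowerSeries ℂ) * A 2 1 = fc * T 1)
    (va : ea.eval 1 = 0) (vb : eb.eval 1 = 0) (vc : ec.eval 1 = 0) :
    (fc.eval 1 * Ga.eval 1) * (fc.eval 1 * Gb.eval 1) = 0 := by
  have inj : ∀ p p' : Polynomial ℂ, (p : PowerSeries ℂ) = (p' : PowerSeries ℂ) → p = p' :=
    fun p p' hp => Polynomial.coe_injective ℂ hp
  have k1 : q * (-(fc * Ga) - (fc * ea * P 0 0 - fa * ec * P 2 0)) =
      (fc * ea * t 0 - fa * ec * t 2) * u 0 := by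
    apply inj
    have h1 := h 0 0
    have h2 := h 2 0
    push_cast at h1 h2 ⊢
    linear_combination (-(q : PowerSeries ℂ) * fc) * ha0 + ((q : PowerSeries ℂ) * fa) * hc0 +
      ((fc : PowerSeries ℂ) * ea) * h1 - ((fa : PowerSeries ℂ) * ec) * h2
  have k2 : q * (0 - (fc * ea * P 0 1 - fa * ec * P 2 1)) =
      (fc * ea * t 0 - fa * ec * t 2) * u 1 := by
    apply inj
    have h1 := h 0 1
    have h2 := h 2 1
    push_cast at h1 h2 ⊢
    linear_combination (-(q : PowerSeries ℂ) * fc) * ha1 + ((q : PowerSeries ℂ) * fa) * hc1 +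
      ((fc : PowerSeries ℂ) * ea) * h1 - ((fa : PowerSeries ℂ) * ec) * h2
  have k3 : q * (0 - (fc * eb * P 1 0 - fb * ec * P 2 0)) =
      (fc * eb * t 1 - fb * ec * t 2) * u 0 := by
    apply inj
    have h1 := h 1 0
    have h2 := h 2 0
    push_cast at h1 h2 ⊢
    linear_combination (-(q : PowerSeries ℂ) * fc) * hb0 + ((q : PowerSeries ℂ) * fb) * hc0 +
      ((fc : PowerSeries ℂ) * eb) * h1 - ((fb : PowerSeries ℂ) * ec) * h2
  have k4 : q * (-(fc * Gb) - (fc * eb * P 1 1 - fb * ec * P 2 1)) =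
      (fc * eb * t 1 - fb * ec * t 2) * u 1 := by
    apply inj
    have h1 := h 1 1
    have h2 := h 2 1
    push_cast at h1 h2 ⊢
    linear_combination (-(q : PowerSeries ℂ) * fc) * hb1 + ((q : PowerSeries ℂ) * fb) * hc1 +
      ((fc : PowerSeries ℂ) * eb) * h1 - ((fb : PowerSeries ℂ) * ec) * h2
  have k5 : (-(fc * Ga) - (fc * ea * P 0 0 - fa * ec * P 2 0)) *
      (-(fc * Gb) - (fc * eb * P 1 1 - fb * ec * P 2 1)) =
      (0 - (fc * ea * P 0 1 - fa * ec * P 2 1)) * (0 - (fc * eb * P 1 0 - fb * ec * P 2 0)) := by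
    generalize (-(fc * Ga) - (fc * ea * P 0 0 - fa * ec * P 2 0)) = x1 at k1 ⊢
    generalize (-(fc * Gb) - (fc * eb * P 1 1 - fb * ec * P 2 1)) = x4 at k4 ⊢
    generalize (0 - (fc * ea * P 0 1 - fa * ec * P 2 1)) = x2 at k2 ⊢
    generalize (0 - (fc * eb * P 1 0 - fb * ec * P 2 0)) = x3 at k3 ⊢
    generalize (fc * ea * t 0 - fa * ec * t 2) = r at k1 k2
    generalize (fc * eb * t 1 - fb * ec * t 2) = s at k3 k4
    have h1 : q * (q * (x1 * x4)) = q * (q * (x2 * x3)) := by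
      linear_combination q * x4 * k1 + r * u 0 * k4 - q * x3 * k2 - r * u 1 * k3
    exact mul_left_cancel₀ hq (mul_left_cancel₀ hq h1)
  have k6 := congrArg (Polynomial.eval 1) k5
  simp only [Polynomial.eval_mul, Polynomial.eval_sub, Polynomial.eval_neg, va, vb, vc,
    Polynomial.eval_zero, zero_mul, mul_zero, sub_zero] at k6
  linear_combination k6

variable {S : ℕ → Set ℕ} {n : ℕ}

theorem col_id : ColLang n id n S = RunLang n S := by
  ext w
  constructor
  · rintro ⟨_, h⟩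
    rwa [List.map_id] at h
  · intro h
    refine ⟨?_, by rwa [List.map_id]⟩
    obtain ⟨u, v, h1, _⟩ := h
    intro l hl
    exact h1 l (by simp [hl])

theorem fac_factor (C : Finset (List ℕ)) (a w b : List ℕ) (h : a ++ w ++ b ∈ Fac C) :
    w ∈ Fac C := by
  obtain ⟨u, v, l, hl, he⟩ := h
  exact ⟨u ++ a, b ++ v, l, hl, by rw [← he]; simp⟩

/-- the left anchor of a letter, and its right anchor -/
theorem anchors1 (hn : 2 ≤ n) (hne : ∀ a < n, ∃ j ∈ S a, 0 < j) (C : Finset (List ℕ))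
    (hL : RunLang n S = Fac C) (w w' : List ℕ) (hw : w ∈ Fac C) (hw' : w' ∈ Fac C)
    (x : ℕ) (hx : x < n) :
    (∃ (g : List ℕ) (c : ℕ), c ≠ x ∧ w ++ g ++ [c] ++ List.replicate 1 x ∈ RunLang n S) ∧
    (∃ (g : List ℕ) (c : ℕ), c ≠ x ∧
      List.replicate 1 x ++ (c :: (g ++ w')) ∈ RunLang n S) := by
  obtain ⟨j, hj, hj0⟩ := hne x hx
  obtain ⟨⟨g, c, _, hcx, h1⟩, ⟨g', c', _, hcx', h1'⟩⟩ :=
    anchors n id (fun c hc => ⟨c, hc, rfl⟩) hn hne C (by rw [col_id]; exact hL) w w' hw hw'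
      x x j hx hx rfl (Or.inr hj) hj0
  rw [col_id] at h1 h1'
  obtain ⟨j, rfl⟩ : ∃ i, j = i + 1 := ⟨j - 1, by omega⟩
  refine ⟨⟨g, c, hcx, ?_⟩, ⟨g', c', hcx', ?_⟩⟩
  · rw [hL] at h1 ⊢
    refine fac_factor C [] _ (List.replicate j x) ?_
    rw [List.replicate_succ] at h1
    have h2 : [] ++ (w ++ g ++ [c] ++ List.replicate 1 x) ++ List.replicate j x =
        w ++ g ++ [c] ++ x :: List.replicate j x := by
      simp
    rw [h2]
    exact h1
  · rw [hL] at h1' ⊢
    refine fac_factor C (List.replicate j x) _ [] ?_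
    rw [List.replicate_succ'] at h1'
    have h2 : List.replicate j x ++ (List.replicate 1 x ++ (c' :: (g' ++ w'))) ++ [] =
        List.replicate j x ++ [x] ++ (c' :: (g' ++ w')) := by
      simp
    rw [h2]
    exact h1'

theorem no_code2 (hn : 2 ≤ n) (a b c : ℕ) (hab : a ≠ b)
    (hac : a ≠ c) (hbc : b ≠ c) (han : a < n) (hbn : b < n) (hcn : c < n)
    (hne : ∀ a < n, ∃ j ∈ S a, 0 < j)
    (hDa : HZ (Ez S a)) (hDb : HZ (Ez S b)) (hDc : HZ (Ez S c))
    (C : Finset (List ℕ)) (hC : UD C) (hL : RunLang n S = Fac C) : False := by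
  classical
  have h0 : ∀ l, 0 ∈ Ez S l := fun l => Or.inl rfl
  obtain ⟨za, ea, fa, Ga, hza, _, hga0, reca⟩ := letter2 h0 a hDa
  obtain ⟨zb, eb, fb, Gb, hzb, _, hgb0, recb⟩ := letter2 h0 b hDb
  obtain ⟨zc, ec, fc, Gc, hzc, hfc0, _, recc⟩ := letter2 h0 c hDc
  let T' : Finset ℕ := {a, b, c}
  let wt : ℕ → ℂ := fun l => if l = a then za else if l = b then zb else if l = c then zc else 0
  have wa : wt a = za := by simp [wt]
  have wb : wt b = zb := by simp [wt, hab.symm]
  have wc : wt c = zc := by simp [wt, hac.symm, hbc.symm]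
  have hwt : ∀ l, l ∉ T' → wt l = 0 := by
    intro l hl
    simp only [T', Finset.mem_insert, Finset.mem_singleton, not_or] at hl
    simp only [wt]
    rw [if_neg hl.1, if_neg hl.2.1, if_neg hl.2.2]
  have hTn : ∀ l ∈ T', l < n := by
    intro l hl
    simp only [T', Finset.mem_insert, Finset.mem_singleton] at hl
    rcases hl with h | h | h
    · rw [h]; exact han
    · rw [h]; exact hbn
    · rw [h]; exact hcn
  have hCne : C.Nonempty := by
    obtain ⟨j, hj, hj0⟩ := hne a han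
    have hm : List.replicate j a ∈ RunLang n S := RV.rep_mem a j han (Or.inr hj)
    rw [hL] at hm
    obtain ⟨u, v, l, hl, he⟩ := hm
    cases l with
    | nil =>
      have := congrArg List.length he
      simp at this
      omega
    | cons e l => exact ⟨e, hl e (by simp)⟩
  obtain ⟨w, w', q, t, u, P, hw, hw', hq, hqq⟩ := rank_one C hC hCne T' wt hwt
  have hctx : ∀ x y (g g' : List ℕ) (e d : ℕ), e ≠ x → d ≠ y →
      w ++ g ++ [e] ++ List.replicate 1 x ∈ RunLang n S →
      List.replicate 1 y ++ (d :: (g' ++ w')) ∈ RunLang n S →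
      gf T' wt (fun z => ind (w ++ (g ++ [e] ++ List.replicate 1 x) ++ z ++
        (List.replicate 1 y ++ (d :: g')) ++ w' ∈ Fac C)) =
      gf T' wt (fun z => ind (W (Ez S) y 1 x 1 z)) := by
    intro x y g g' e d he hd hg hg'
    refine gf_congr T' wt _ _ fun z hz => ind_congr ?_
    rw [← hL]
    have h1 := sync (w ++ g) (g' ++ w') z x y 1 1 e d one_pos one_pos he hd hg hg'
      (fun l hl => hTn l (hz l hl))
    rw [← h1]
    simp only [List.append_assoc, List.cons_append]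
  obtain ⟨⟨ga, ea', heaπ, hga⟩, ⟨ga', da, hdaπ, hga'⟩⟩ :=
    anchors1 hn hne C hL w w' hw hw' a han
  obtain ⟨⟨gb, eb', hebπ, hgb⟩, ⟨gb', db, hdbπ, hgb'⟩⟩ :=
    anchors1 hn hne C hL w w' hw hw' b hbn
  obtain ⟨⟨gc, ec', hecπ, hgc⟩, _⟩ :=
    anchors1 hn hne C hL w w' hw hw' c hcn
  have haT : a ∈ T' := by simp [T']
  have hbT : b ∈ T' := by simp [T']
  have hcT : c ∈ T' := by simp [T']
  let L : Fin 3 → List ℕ := ![ga ++ [ea'] ++ List.replicate 1 a,
    gb ++ [eb'] ++ List.replicate 1 b, gc ++ [ec'] ++ List.replicate 1 c]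
  let L' : Fin 2 → List ℕ := ![List.replicate 1 a ++ (da :: ga'),
    List.replicate 1 b ++ (db :: gb')]
  have hfin := algebra2 q hq ea eb ec fa fb fc Ga Gb
    (fun i j => gf T' wt (fun z => ind (W (Ez S) (![a, b] j) 1 (![a, b, c] i) 1 z)))
    (fun j => PowerSeries.X * ∑ l ∈ T', PowerSeries.C (wt l) *
      gf T' wt (fun z => ind (W (Ez S) (![a, b] j) 1 l 1 z)) +
        PowerSeries.C (ind (1 ∈ Ez S (![a, b] j))))
    (fun i => t (L i)) (fun j => u (L' j)) (fun i j => P (L i) (L' j))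
    (by
      intro i j
      have h1 := hqq (L i) (L' j)
      rw [← h1]
      congr 1
      symm
      fin_cases i <;> fin_cases j
      · exact hctx a a ga ga' ea' da heaπ hdaπ hga hga'
      · exact hctx a b ga gb' ea' db heaπ hdbπ hga hgb'
      · exact hctx b a gb ga' eb' da hebπ hdaπ hgb hga'
      · exact hctx b b gb gb' eb' db hebπ hdbπ hgb hgb'
      · exact hctx c a gc ga' ec' da hecπ hdaπ hgc hga'
      · exact hctx c b gc gb' ec' db hecπ hdbπ hgc hgb')
    (by
      have h1 := reca T' wt a haT wa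
      rw [ind_true rfl, map_one, one_mul] at h1
      exact h1)
    (by
      have h1 := reca T' wt b haT wa
      rw [ind_false hab, map_zero, zero_mul, sub_zero] at h1
      exact h1)
    (by
      have h1 := recb T' wt a hbT wb
      rw [ind_false hab.symm, map_zero, zero_mul, sub_zero] at h1
      exact h1)
    (by
      have h1 := recb T' wt b hbT wb
      rw [ind_true rfl, map_one, one_mul] at h1
      exact h1)
    (by
      have h1 := recc T' wt a hcT wc
      rw [ind_false hac.symm, map_zero, zero_mul, sub_zero] at h1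
      exact h1)
    (by
      have h1 := recc T' wt b hcT wc
      rw [ind_false hbc.symm, map_zero, zero_mul, sub_zero] at h1
      exact h1)
    hza hzb hzc
  exact mul_ne_zero (mul_ne_zero hfc0 hga0) (mul_ne_zero hfc0 hgb0) hfin

end Pool.Agent.Helper37.RX
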