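import Mathlib

/-!
Basic tools for two-tape words.
-/

namespace Pool.Agent.Helper37.RX

universe u

variable {A : Type u}

/-- The letters on the first tape of an interleaved two-tape word. -/
def lefts (x : List (A ⊕ A)) : List A := x.filterMap Sum.getLeft?

/-- The letters on the second tape of an interleaved two-tape word. -/
def rights (x : List (A ⊕ A)) : List A := x.filterMap Sum.getRight?

@[simp] theorem lefts_nil : lefts ([] : List (A ⊕ A)) = [] := rfl
@[simp] theorem rights_nil : rights ([] : List (A ⊕ A)) = [] := rfl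

@[simp] theorem lefts_cons_inl (a : A) (x : List (A ⊕ A)) :
    lefts (Sum.inl a :: x) = a :: lefts x := rfl
@[simp] theorem lefts_cons_inr (a : A) (x : List (A ⊕ A)) :
    lefts (Sum.inr a :: x) = lefts x := rfl
@[simp] theorem rights_cons_inl (a : A) (x : List (A ⊕ A)) :
    rights (Sum.inl a :: x) = rights x := rfl
@[simp] theorem rights_cons_inr (a : A) (x : List (A ⊕ A)) :
    rights (Sum.inr a :: x) = a :: rights x := rfl

@[simp] theorem lefts_append (x y : List (A ⊕ A)) : lefts (x ++ y) = lefts x ++ lefts y := by
  simp [lefts]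

@[simp] theorem rights_append (x y : List (A ⊕ A)) : rights (x ++ y) = rights x ++ rights y := by
  simp [rights]

@[simp] theorem lefts_map_inl (u : List A) : lefts (u.map Sum.inl) = u := by
  induction u with
  | nil => rfl
  | cons a u ih => simp [ih]

@[simp] theorem lefts_map_inr (u : List A) : lefts (u.map (Sum.inr : A → A ⊕ A)) = [] := by
  induction u with
  | nil => rfl
  | cons a u ih => simp [ih]

@[simp] theorem rights_map_inr (u : List A) : rights (u.map Sum.inr) = u := by
  induction u with
  | nil => rfl
  | cons a u ih => simp [ih]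

@[simp] theorem rights_map_inl (u : List A) : rights (u.map (Sum.inl : A → A ⊕ A)) = [] := by
  induction u with
  | nil => rfl
  | cons a u ih => simp [ih]

theorem lefts_split {x : List (A ⊕ A)} {u v : List A} (h : lefts x = u ++ v) :
    ∃ x1 x2, x = x1 ++ x2 ∧ lefts x1 = u ∧ lefts x2 = v :=
  List.filterMap_eq_append_iff.1 h

theorem length_eq (x : List (A ⊕ A)) : x.length = (lefts x).length + (rights x).length := by
  induction x with
  | nil => rfl
  | cons a x ih =>
    rcases a with a | a
    · simp [ih]; omega
    · simp [ih]; omega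

/-- A language is regular as soon as its left quotients are controlled by a finite signature. -/
theorem regular_of_sig {α : Type u} {β : Type*} [Finite β] (L : Language α) (f : List α → β)
    (h : ∀ x y, f x = f y → ∀ z, x ++ z ∈ L → y ++ z ∈ L) : L.IsRegular := by
  apply Language.IsRegular.of_finite_range_leftQuotient
  have hfac : Function.FactorsThrough L.leftQuotient f := by
    intro x y hxy
    ext z
    exact ⟨h x y hxy z, h y x hxy.symm z⟩
  obtain ⟨g, hg⟩ := (Function.factorsThrough_iff _).1 hfac
  rw [hg]
  exact (Set.finite_range g).subset (Set.range_comp_subset_range f g)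

theorem eval_append {α : Type*} {σ : Type*} (M : DFA α σ) (x y : List α) :
    M.eval (x ++ y) = M.evalFrom (M.eval x) y := by
  simp [DFA.eval, DFA.evalFrom_of_append]

/-- The projection of a regular two-tape language to its first tape is regular. -/
theorem regular_lefts {K : Language (A ⊕ A)} (hK : K.IsRegular) :
    Language.IsRegular ({w | ∃ x ∈ K, lefts x = w} : Language A) := by
  obtain ⟨σ, _, M, rfl⟩ := hK
  refine regular_of_sig (β := Set σ) _ (fun w => {s | ∃ x, lefts x = w ∧ M.eval x = s}) ?_
  rintro w w' hw z ⟨x, hx, hxz⟩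
  obtain ⟨x1, x2, rfl, h1, h2⟩ := lefts_split hxz
  have hm : M.eval x1 ∈ {s | ∃ x, lefts x = w ∧ M.eval x = s} := ⟨x1, h1, rfl⟩
  rw [show {s | ∃ x, lefts x = w ∧ M.eval x = s} = {s | ∃ x, lefts x = w' ∧ M.eval x = s} from hw]
    at hm
  obtain ⟨y1, hy1, hy⟩ := hm
  refine ⟨y1 ++ x2, ?_, by simp [hy1, h2]⟩
  rw [DFA.mem_accepts, eval_append] at hx ⊢
  rwa [hy]

/-- The inverse image of a regular language under the first projection is regular. -/
theorem regular_comap_lefts {L : Language A} (hL : L.IsRegular) :
    Language.IsRegular ({x | lefts x ∈ L} : Language (A ⊕ A)) := by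
  obtain ⟨σ, _, M, rfl⟩ := hL
  refine regular_of_sig (β := σ) _ (fun x => M.eval (lefts x)) ?_
  intro x y hxy z hz
  change lefts (x ++ z) ∈ M.accepts at hz
  change lefts (y ++ z) ∈ M.accepts
  rw [lefts_append, DFA.mem_accepts, eval_append] at hz ⊢
  have hxy' : M.eval (lefts x) = M.eval (lefts y) := hxy
  rwa [← hxy']

theorem regular_comap_rights {L : Language A} (hL : L.IsRegular) :
    Language.IsRegular ({x | rights x ∈ L} : Language (A ⊕ A)) := by
  obtain ⟨σ, _, M, rfl⟩ := hL
  refine regular_of_sig (β := σ) _ (fun x => M.eval (rights x)) ?_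
  intro x y hxy z hz
  change rights (x ++ z) ∈ M.accepts at hz
  change rights (y ++ z) ∈ M.accepts
  rw [rights_append, DFA.mem_accepts, eval_append] at hz ⊢
  have hxy' : M.eval (rights x) = M.eval (rights y) := hxy
  rwa [← hxy']

/-- If every factor without g-letters is short then the number of f-letters is
bounded linearly in the number of g-letters. -/
theorem count_bound {α : Type*} {B C : Type*} (f : α → Option B) (g : α → Option C)
    (hfg : ∀ c b, g c = some b → f c = none) (n : ℕ) (l : List C) :
    ∀ x : List α, x.filterMap g = l →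
      (∀ x1 x2 x3, x = x1 ++ x2 ++ x3 → x2.filterMap g = [] → x2.length < n) →
      (x.filterMap f).length ≤ n * (l.length + 1) := by
  induction l with
  | nil =>
    intro x hx h
    have := h [] x [] (by simp) hx
    have h2 := List.length_filterMap_le f x
    simp only [List.length_nil]
    omega
  | cons b bs ih =>
    intro x hx h
    obtain ⟨l1, a, l2, rfl, h1, h2, h3⟩ := List.filterMap_eq_cons_iff.1 hx
    have hl1 : l1.filterMap g = [] := List.filterMap_eq_nil_iff.2 h1
    have k1 : l1.length < n := h [] l1 (a :: l2) (by simp) hl1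
    have k2 := ih l2 h3 (fun x1 x2 x3 hx' hx2 =>
      h (l1 ++ a :: x1) x2 x3 (by simp [hx']) hx2)
    have k3 := List.length_filterMap_le f l1
    have k4 : ((l1 ++ a :: l2).filterMap f).length =
        (l1.filterMap f).length + (l2.filterMap f).length := by
      simp [hfg a b h2]
    rw [k4, List.length_cons]
    calc (l1.filterMap f).length + (l2.filterMap f).length ≤ n + n * (bs.length + 1) := by omega
      _ = n * (bs.length + 1 + 1) := by ring

theorem lefts_le {n : ℕ} {x : List (A ⊕ A)}
    (h : ∀ x1 x2 x3, x = x1 ++ x2 ++ x3 → rights x2 = [] → x2.length < n) :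
    (lefts x).length ≤ n * ((rights x).length + 1) := by
  refine count_bound Sum.getLeft? Sum.getRight? ?_ n (rights x) x rfl h
  rintro (c | c) b hb
  · simp at hb
  · simp

theorem rights_le {n : ℕ} {x : List (A ⊕ A)}
    (h : ∀ x1 x2 x3, x = x1 ++ x2 ++ x3 → lefts x2 = [] → x2.length < n) :
    (rights x).length ≤ n * ((lefts x).length + 1) := by
  refine count_bound Sum.getRight? Sum.getLeft? ?_ n (lefts x) x rfl h
  rintro (c | c) b hb
  · simp
  · simp at hb

theorem pump {α : Type*} {σ : Type*} (M : DFA α σ) (q : σ) (b : List α)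
    (h : M.evalFrom q b = q) (i : ℕ) : M.evalFrom q (List.replicate i b).flatten = q := by
  induction i with
  | zero => simp
  | succ i ih => rw [List.replicate_succ, List.flatten_cons, DFA.evalFrom_of_append, h, ih]

theorem exists_bound {ι : Type*} [Finite ι] {α : Type*} (P : ι → List α → Prop) :
    ∃ B : ℕ, ∀ i, (∃ r, P i r) → ∃ r, P i r ∧ r.length ≤ B := by
  have h : ∀ i, ∃ b : ℕ, (∃ r, P i r) → ∃ r, P i r ∧ r.length ≤ b := by
    intro i
    by_cases hi : ∃ r, P i r
    · obtain ⟨r, hr⟩ := hi
      exact ⟨r.length, fun _ => ⟨r, hr, le_rfl⟩⟩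
    · exact ⟨0, fun h => absurd h hi⟩
  choose b hb using h
  obtain ⟨B, hB⟩ := Finite.exists_le b
  refine ⟨B, fun i hi => ?_⟩
  obtain ⟨r, hr, hl⟩ := hb i hi
  exact ⟨r, hr, hl.trans (hB i)⟩

end Pool.Agent.Helper37.RX
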