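import Pool.Agent.Helper37.RX.B

/-!
# Cuts in factorizations; restriction of a code to a smaller language
-/

set_option autoImplicit false

namespace Pool.Agent.Helper37.RX

open Pool.Agent.Helper31.BD

/-- comparing two factorizations of a word -/
theorem app_split {A B P Q : List ℕ} (h : A ++ B = P ++ Q) (hl : P.length ≤ A.length) :
    ∃ Z, A = P ++ Z ∧ Q = Z ++ B := by
  rcases List.append_eq_append_iff.1 h with ⟨Z, h1, h2⟩ | ⟨Z, h1, h2⟩
  · have : Z = [] := by
      have h3 := congrArg List.length h1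
      rw [List.length_append] at h3
      exact List.length_eq_zero_iff.1 (by omega)
    subst this
    exact ⟨[], by rw [h1]; simp, by rw [h2]; simp⟩
  · exact ⟨Z, h1, h2⟩

theorem over_app {C : Finset (List ℕ)} {l1 l2 : List (List ℕ)} :
    Over C (l1 ++ l2) ↔ Over C l1 ∧ Over C l2 := by
  constructor
  · intro h
    exact ⟨fun c hc => h c (List.mem_append_left _ hc), fun c hc => h c (List.mem_append_right _ hc)⟩
  · rintro ⟨h1, h2⟩ c hc
    rcases List.mem_append.1 hc with h | h
    · exact h1 c h
    · exact h2 c h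

/-- a cut near a given position -/
theorem cut_between (M : ℕ) : ∀ (l : List (List ℕ)) (t : ℕ), (∀ c ∈ l, c.length ≤ M) →
    t ≤ l.flatten.length → ∃ l1 l2, l = l1 ++ l2 ∧ t ≤ l1.flatten.length ∧
      l1.flatten.length ≤ t + M := by
  intro l
  induction l with
  | nil =>
    intro t _ ht
    exact ⟨[], [], rfl, ht, by simp⟩
  | cons w l ih =>
    intro t hl ht
    have hw := hl w (by simp)
    rcases Nat.eq_zero_or_pos t with h0 | h0
    · exact ⟨[], w :: l, rfl, by rw [h0]; exact Nat.zero_le _, by simp⟩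
    rcases Nat.lt_or_ge w.length t with h1 | h1
    · rw [List.flatten_cons, List.length_append] at ht
      obtain ⟨l1, l2, h2, h3, h4⟩ := ih (t - w.length) (fun c hc => hl c (by simp [hc])) (by omega)
      refine ⟨w :: l1, l2, by rw [h2]; rfl, ?_, ?_⟩
      · rw [List.flatten_cons, List.length_append]
        omega
      · rw [List.flatten_cons, List.length_append]
        omega
    · refine ⟨[w], l, rfl, by simpa using h1, ?_⟩
      simp
      omega

/-- the maximal length of a word of `C` -/
def Ml (C : Finset (List ℕ)) : ℕ := C.sup List.length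

theorem len_le {C : Finset (List ℕ)} {l : List (List ℕ)} (hl : Over C l) :
    ∀ c ∈ l, c.length ≤ Ml C := fun c hc => Finset.le_sup (f := List.length) (hl c hc)

/-- the middle of a long factor is covered by words of `C` -/
theorem cover {C : Finset (List ℕ)} {U w V : List ℕ} (h : U ++ w ++ V ∈ Fac C)
    (hU : Ml C ≤ U.length) (hV : Ml C ≤ V.length) :
    ∃ (l : List (List ℕ)) (U1 U2 V1 V2 : List ℕ), Over C l ∧ U = U1 ++ U2 ∧ V = V1 ++ V2 ∧
      l.flatten = U2 ++ w ++ V1 := by
  obtain ⟨u, v, l, hl, he⟩ := h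
  have hlen := congrArg List.length he
  simp only [List.length_append] at hlen
  obtain ⟨l1, l2, h1, h2, h3⟩ := cut_between (Ml C) l u.length (len_le hl) (by omega)
  rw [h1] at hl he
  obtain ⟨hl1, hl2⟩ := over_app.1 hl
  rw [List.flatten_append] at he
  have he1 : l1.flatten ++ l2.flatten = u ++ (U ++ (w ++ (V ++ v))) := by
    rw [← he]
    simp only [List.append_assoc]
  obtain ⟨U1, h4, h5⟩ := app_split he1 h2
  have h6 : U1.length ≤ U.length := by
    rw [h4, List.length_append] at h3
    omega
  obtain ⟨U2, h7, h8⟩ := app_split h5 h6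
  have hl2len := congrArg List.length h8
  simp only [List.length_append] at hl2len
  obtain ⟨l3, l4, k1, k2, k3⟩ := cut_between (Ml C) l2 (U2.length + w.length) (len_le hl2)
    (by omega)
  rw [k1] at h8 hl2
  obtain ⟨hl3, hl4⟩ := over_app.1 hl2
  rw [List.flatten_append] at h8
  have he2 : l3.flatten ++ l4.flatten = (U2 ++ w) ++ (V ++ v) := by
    rw [h8]
    simp only [List.append_assoc]
  obtain ⟨V1, k4, k5⟩ := app_split he2 (by rw [List.length_append]; exact k2)
  have k6 : V1.length ≤ V.length := by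
    rw [k4, List.length_append, List.length_append] at k3
    omega
  obtain ⟨V2, k7, k8⟩ := app_split k5 k6
  exact ⟨l3, U1, U2, V1, V2, hl3, h7, k7, k4⟩

/-- a cut in the middle of a long factor -/
theorem cut_mid {C : Finset (List ℕ)} {U V : List ℕ} (h : U ++ V ∈ Fac C)
    (hV : Ml C ≤ V.length) :
    ∃ (u v : List ℕ) (l1 l2 : List (List ℕ)) (V1 V2 : List ℕ), Over C l1 ∧ Over C l2 ∧
      V = V1 ++ V2 ∧ V1.length ≤ Ml C ∧ l1.flatten = u ++ (U ++ V1) ∧ l2.flatten = V2 ++ v := by
  obtain ⟨u, v, l, hl, he⟩ := h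
  have hlen := congrArg List.length he
  simp only [List.length_append] at hlen
  obtain ⟨l1, l2, h1, h2, h3⟩ := cut_between (Ml C) l (u.length + U.length) (len_le hl) (by omega)
  rw [h1] at hl he
  obtain ⟨hl1, hl2⟩ := over_app.1 hl
  rw [List.flatten_append] at he
  have he1 : l1.flatten ++ l2.flatten = (u ++ U) ++ (V ++ v) := by
    rw [← he]
    simp only [List.append_assoc]
  obtain ⟨V1, h4, h5⟩ := app_split he1 (by rw [List.length_append]; exact h2)
  have h6 : V1.length ≤ Ml C := by
    rw [h4, List.length_append, List.length_append] at h3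
    omega
  obtain ⟨V2, h7, h8⟩ := app_split h5 (h6.trans hV)
  exact ⟨u, v, l1, l2, V1, V2, hl1, hl2, h7, h6, by rw [h4]; simp only [List.append_assoc], h8⟩

/-- a product of words of `C` is a factor -/
theorem flat_mem {C : Finset (List ℕ)} {l : List (List ℕ)} (hl : Over C l) : l.flatten ∈ Fac C :=
  ⟨[], [], l, hl, by simp⟩

theorem nil_not {C : Finset (List ℕ)} (hC : UD C) : [] ∉ C := by
  intro h
  have := hC [[]] [] (by intro c hc; rw [List.mem_singleton.1 hc]; exact h)
    (by intro c hc; exact absurd hc (List.not_mem_nil)) (by simp)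
  simp at this

open Classical in
/-- restriction of a code to a smaller language -/
theorem restrict {C : Finset (List ℕ)} (hC : UD C) (L : Set (List ℕ)) (hsub : L ⊆ Fac C)
    (hfac : ∀ u w v : List ℕ, u ++ w ++ v ∈ L → w ∈ L)
    (hext : ∀ w ∈ L, ∃ U V : List ℕ, Ml C ≤ U.length ∧ Ml C ≤ V.length ∧ U ++ w ++ V ∈ L)
    (hmul : ∀ l : List (List ℕ), Over C l → (∀ c ∈ l, c ∈ L) → l ≠ [] → l.flatten ∈ L)
    (hnil : [] ∈ L) :
    UD (C.filter (fun w => w ∈ L)) ∧ L = Fac (C.filter (fun w => w ∈ L)) := by
  have hov : ∀ l, Over (C.filter (fun w => w ∈ L)) l ↔ Over C l ∧ ∀ c ∈ l, c ∈ L := by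
    intro l
    constructor
    · intro h
      exact ⟨fun c hc => (Finset.mem_filter.1 (h c hc)).1, fun c hc => (Finset.mem_filter.1 (h c hc)).2⟩
    · rintro ⟨h1, h2⟩ c hc
      exact Finset.mem_filter.2 ⟨h1 c hc, h2 c hc⟩
  constructor
  · intro l1 l2 h1 h2 he
    exact hC l1 l2 ((hov l1).1 h1).1 ((hov l2).1 h2).1 he
  · ext w
    constructor
    · intro hw
      obtain ⟨U, V, h1, h2, h3⟩ := hext w hw
      obtain ⟨l, U1, U2, V1, V2, hl, hU, hV, he⟩ := cover (hsub h3) h1 h2
      refine ⟨U2, V1, l, (hov l).2 ⟨hl, ?_⟩, he.symm⟩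
      intro c hc
      obtain ⟨s, t, hst⟩ := List.append_of_mem hc
      refine hfac (U1 ++ s.flatten) c (t.flatten ++ V2) ?_
      have h4 : U1 ++ s.flatten ++ c ++ (t.flatten ++ V2) = U ++ w ++ V := by
        have h5 : l.flatten = s.flatten ++ (c ++ t.flatten) := by
          rw [hst]
          simp
        rw [he] at h5
        rw [hU, hV]
        calc U1 ++ s.flatten ++ c ++ (t.flatten ++ V2)
            = U1 ++ (s.flatten ++ (c ++ t.flatten)) ++ V2 := by simp only [List.append_assoc]
          _ = U1 ++ (U2 ++ w ++ V1) ++ V2 := by rw [h5]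
          _ = _ := by simp only [List.append_assoc]
      rw [h4]
      exact h3
    · rintro ⟨u, v, l, hl, he⟩
      obtain ⟨h1, h2⟩ := (hov l).1 hl
      refine hfac u w v ?_
      rw [he]
      by_cases hl0 : l = []
      · rw [hl0]
        exact hnil
      · exact hmul l h1 h2 hl0

end Pool.Agent.Helper37.RX
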