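import Mathlib

/-!
Definitions used by the final statement on regular cross-sections.
-/

namespace Pool.Agent.Helper37.RX

universe u

/-- A finite transducer (nondeterministic two-tape automaton): finitely many states,
finitely many transitions, each transition labelled by a pair of words over the alphabet. -/
structure Transducer (A : Type u) where
  /-- the states -/
  State : Type
  finite_state : Finite State
  /-- the transitions (source, (word read on tape one, word read on tape two), target) -/
  trans : Set (State × (List A × List A) × State)
  finite_trans : trans.Finite
  /-- initial states -/
  start : Set State
  /-- final states -/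
  accept : Set State

/-- `T.Run s u v t`: some path from `s` to `t` is labelled by the pair `(u, v)`. -/
inductive Transducer.Run {A : Type u} (T : Transducer A) :
    T.State → List A → List A → T.State → Prop
  | nil (s : T.State) : Transducer.Run T s [] [] s
  | cons {s t q : T.State} {u v u' v' : List A} (h : (s, (u, v), t) ∈ T.trans)
      (h' : Transducer.Run T t u' v' q) : Transducer.Run T s (u ++ u') (v ++ v') q

/-- A relation on words is rational if it is accepted by a finite transducer. -/
def IsRational {A : Type u} (R : List A → List A → Prop) : Prop :=
  ∃ T : Transducer A, ∀ u v, R u v ↔ ∃ s ∈ T.start, ∃ t ∈ T.accept, T.Run s u v t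

/-- A rational equivalence relation: a rational relation that is an equivalence relation on
its domain. -/
structure IsRationalEquivalence {A : Type u} (R : List A → List A → Prop) : Prop where
  rational : IsRational R
  refl : ∀ u, (∃ v, R u v) → R u u
  symm : ∀ u v, R u v → R v u
  trans : ∀ u v w, R u v → R v w → R u w

/-- A regular cross-section: a regular language inside the domain of `R` which contains
exactly one word of each equivalence class. -/
def IsRegularCrossSection {A : Type u} (R : List A → List A → Prop) (L : Language A) : Prop :=
  L.IsRegular ∧ (∀ w ∈ L, ∃ v, R w v) ∧ ∀ u, (∃ v, R u v) → ∃! w, w ∈ L ∧ R u w

/-- Statement (C): every rational equivalence relation over a finite alphabet has a regular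
cross-section. -/
def StatementC : Prop :=
  ∀ (A : Type u) [Finite A] (R : List A → List A → Prop),
    IsRationalEquivalence R → ∃ L : Language A, IsRegularCrossSection R L

/-- Statement (C_k): the restriction of (C) to the relations all of whose classes have at most
`k` elements. -/
def StatementCk (k : ℕ) : Prop :=
  ∀ (A : Type u) [Finite A] (R : List A → List A → Prop),
    IsRationalEquivalence R → (∀ u, Set.encard {v | R u v} ≤ k) →
      ∃ L : Language A, IsRegularCrossSection R L

end Pool.Agent.Helper37.RX
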