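import Pool.Agent.Helper37.RX.Base
import Pool.Agent.Helper37.RX.Defs

/-!
A rational relation is the projection of a regular language of interleaved words.
-/

namespace Pool.Agent.Helper37.RX

universe u

variable {A : Type u}

/-- The interleaved label of a pair of words. -/
def lab (p : List A × List A) : List (A ⊕ A) := p.1.map Sum.inl ++ p.2.map Sum.inr

@[simp] theorem lefts_lab (p : List A × List A) : lefts (lab p) = p.1 := by simp [lab]
@[simp] theorem rights_lab (p : List A × List A) : rights (lab p) = p.2 := by simp [lab]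

/-- Paths labelled by interleaved words. -/
inductive Path (T : Transducer A) : T.State → List (A ⊕ A) → T.State → Prop
  | nil (s : T.State) : Path T s [] s
  | cons {s t q : T.State} {p : List A × List A} {x : List (A ⊕ A)} (h : (s, p, t) ∈ T.trans)
      (h' : Path T t x q) : Path T s (lab p ++ x) q

theorem Path.append {T : Transducer A} {s t q : T.State} {x y : List (A ⊕ A)}
    (h : Path T s x t) (h' : Path T t y q) : Path T s (x ++ y) q := by
  induction h with
  | nil s => simpa using h'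
  | cons h1 _ ih =>
    rw [List.append_assoc]
    exact Path.cons h1 (ih h')

theorem Path.split {T : Transducer A} {B : ℕ} (hB : ∀ tr ∈ T.trans, (lab tr.2.1).length ≤ B)
    {s q : T.State} {x : List (A ⊕ A)} (h : Path T s x q) :
    ∀ x1 x2, x = x1 ++ x2 → ∃ (rem : List (A ⊕ A)) (t : T.State) (y : List (A ⊕ A)),
      rem.length ≤ B ∧ x2 = rem ++ y ∧ Path T s (x1 ++ rem) t ∧ Path T t y q := by
  induction h with
  | nil s =>
    intro x1 x2 hx
    obtain ⟨rfl, rfl⟩ := List.append_eq_nil_iff.1 hx.symm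
    exact ⟨[], s, [], by simp, rfl, Path.nil s, Path.nil s⟩
  | @cons s t q p x h h' ih =>
    intro x1 x2 hx
    rcases List.append_eq_append_iff.1 hx with ⟨c, hc1, hc2⟩ | ⟨c, hc1, hc2⟩
    · -- x1 = lab p ++ c, x = c ++ x2
      obtain ⟨rem, t', y, hr, hx2, hp1, hp2⟩ := ih c x2 hc2
      refine ⟨rem, t', y, hr, hx2, ?_, hp2⟩
      rw [hc1, List.append_assoc]
      exact Path.cons h hp1
    · -- lab p = x1 ++ c, x2 = c ++ x
      refine ⟨c, t, x, ?_, hc2, ?_, h'⟩
      · have := hB _ h
        rw [show (s, p, t).2.1 = p from rfl, hc1, List.length_append] at this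
        omega
      · rw [← hc1]
        simpa using Path.cons h (Path.nil t)

theorem run_iff (T : Transducer A) (s t : T.State) (u v : List A) :
    T.Run s u v t ↔ ∃ x, Path T s x t ∧ lefts x = u ∧ rights x = v := by
  constructor
  · intro h
    induction h with
    | nil s => exact ⟨[], Path.nil s, rfl, rfl⟩
    | @cons s t q u v u' v' h _ ih =>
      obtain ⟨x, hx, h1, h2⟩ := ih
      exact ⟨lab (u, v) ++ x, Path.cons h hx, by simp [h1], by simp [h2]⟩
  · rintro ⟨x, hx, rfl, rfl⟩
    induction hx with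
    | nil s => exact Transducer.Run.nil s
    | @cons s t q p x h _ ih =>
      simp only [lefts_append, rights_append, lefts_lab, rights_lab]
      exact Transducer.Run.cons (u := p.1) (v := p.2) h ih

theorem IsRational.exists_regular [Finite A] {R : List A → List A → Prop} (h : IsRational R) :
    ∃ K : Language (A ⊕ A), K.IsRegular ∧
      ∀ u v, R u v ↔ ∃ x ∈ K, lefts x = u ∧ rights x = v := by
  obtain ⟨T, hT⟩ := h
  refine ⟨{x | ∃ s ∈ T.start, ∃ t ∈ T.accept, Path T s x t}, ?_, ?_⟩
  · obtain ⟨B, hB⟩ : ∃ B : ℕ, ∀ tr ∈ T.trans, (lab tr.2.1).length ≤ B := by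
      obtain ⟨B, hB⟩ := (T.finite_trans.image (fun tr => (lab tr.2.1).length)).bddAbove
      exact ⟨B, fun tr htr => hB ⟨tr, htr, rfl⟩⟩
    have hfin : Finite {l : List (A ⊕ A) // l.length ≤ B} := List.finite_length_le (A ⊕ A) B
    have hst := T.finite_state
    refine regular_of_sig (β := Set ({l : List (A ⊕ A) // l.length ≤ B} × T.State)) _
      (fun x => {p | ∃ s ∈ T.start, Path T s (x ++ p.1.1) p.2}) ?_
    rintro x y hxy z ⟨s, hs, t, ht, hp⟩
    obtain ⟨rem, t', w, hr, hz, hp1, hp2⟩ := hp.split hB x z rfl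
    have hm : ((⟨rem, hr⟩, t') : {l : List (A ⊕ A) // l.length ≤ B} × T.State) ∈
        {p : {l : List (A ⊕ A) // l.length ≤ B} × T.State |
          ∃ s ∈ T.start, Path T s (x ++ p.1.1) p.2} := ⟨s, hs, hp1⟩
    have hm' := (Set.ext_iff.1 hxy (⟨rem, hr⟩, t')).1 hm
    obtain ⟨s', hs', hp'⟩ := hm'
    refine ⟨s', hs', t, ht, ?_⟩
    rw [hz, ← List.append_assoc]
    exact Path.append hp' hp2
  · intro u v
    rw [hT]
    constructor
    · rintro ⟨s, hs, t, ht, hr⟩
      obtain ⟨x, hx, h1, h2⟩ := (run_iff T s t u v).1 hr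
      exact ⟨x, ⟨s, hs, t, ht, hx⟩, h1, h2⟩
    · rintro ⟨x, ⟨s, hs, t, ht, hx⟩, h1, h2⟩
      exact ⟨s, hs, t, ht, (run_iff T s t u v).2 ⟨x, hx, h1, h2⟩⟩

end Pool.Agent.Helper37.RX
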