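import Pool.Agent.Helper37.RX.C

/-!
# Local description of the run length languages; extension; periodic words
-/

set_option autoImplicit false

namespace Pool.Agent.Helper37.RX

open Pool.Agent.Helper31.BD
open Pool.Agent.Helper37.RV (pr pr_self pr_ne pr_append pr_rep pr_free pr_other run_ge Complete
  RunLang Ez complete_iff split2 split3 maxRun_reverse_iff MaxRun)
open Pool.Agent.Helper37.RU (tl tl_self tl_ne tl_append tl_rep tl_last tl_shift)

variable {S : ℕ → Set ℕ} {n : ℕ}

theorem ez0 (a : ℕ) : 0 ∈ Ez S a := Or.inl rfl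

theorem ez_pos {a m : ℕ} (h : m ∈ Ez S a) (hm : 0 < m) : m ∈ S a :=
  Set.mem_of_mem_insert_of_ne h (by omega)

theorem mem_lt {w : List ℕ} (h : w ∈ RunLang n S) : ∀ a ∈ w, a < n := by
  obtain ⟨u, v, h1, _⟩ := h
  exact fun a ha => h1 a (by simp [ha])

theorem run_factor {u w v : List ℕ} (h : u ++ w ++ v ∈ RunLang n S) : w ∈ RunLang n S := by
  obtain ⟨u', v', h1⟩ := h
  refine ⟨u' ++ u, v ++ v', ?_⟩
  have h2 : u' ++ u ++ w ++ (v ++ v') = u' ++ (u ++ w ++ v) ++ v' := by
    simp only [List.append_assoc]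
  rw [h2]
  exact h1

theorem run_nil : [] ∈ RunLang n S := by
  refine ⟨[], [], ?_⟩
  rw [complete_iff]
  refine ⟨fun a ha => ?_, fun a => ⟨trivial, ez0 a⟩⟩
  simp at ha

/-- an inner run -/
theorem run_mem {X Y : List ℕ} {y z c m : ℕ}
    (h : X ++ (y :: (List.replicate m c ++ (z :: Y))) ∈ RunLang n S) (hy : y ≠ c) (hz : z ≠ c) :
    m ∈ Ez S c := by
  obtain ⟨u, v, h1⟩ := h
  rw [complete_iff] at h1
  have h2 := (h1.2 c).1
  have h3 : u ++ (X ++ (y :: (List.replicate m c ++ (z :: Y)))) ++ v =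
      ((u ++ X) ++ [y]) ++ (List.replicate m c ++ (z :: (Y ++ v))) := by
    simp
  rw [h3, pr_append, tl_last _ _ _ _ hy, pr_rep, pr_ne _ _ _ _ _ hz, Nat.zero_add] at h2
  exact h2.2.1

/-- adding a run on the left -/
theorem complete_cons {W : List ℕ} {x s : ℕ} (hW : Complete n S W) (hx : x < n) (hs : s ∈ Ez S x)
    (hW0 : ∀ z ∈ W.head?, z ≠ x) : Complete n S (List.replicate s x ++ W) := by
  rw [complete_iff] at hW ⊢
  refine ⟨?_, fun a => ?_⟩
  · intro a ha
    rcases List.mem_append.1 ha with h | h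
    · rw [List.eq_of_mem_replicate h]
      exact hx
    · exact hW.1 a h
  · obtain ⟨h1, h2⟩ := hW.2 a
    by_cases hax : a = x
    · subst hax
      rw [pr_rep, tl_rep, Nat.zero_add]
      cases W with
      | nil => exact ⟨trivial, hs⟩
      | cons z W =>
        have hz : z ≠ a := hW0 z (by simp)
        rw [pr_ne _ _ _ _ _ hz] at h1
        rw [tl_ne _ _ _ _ hz] at h2
        rw [pr_ne _ _ _ _ _ hz, tl_ne _ _ _ _ hz]
        exact ⟨⟨hs, h1.2⟩, h2⟩
    · have h3 := pr_free (Ez S a) (ez0 a) a (List.replicate s x)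
        (fun h => hax (List.eq_of_mem_replicate h))
      rw [pr_append, tl_append, h3.2]
      exact ⟨⟨h3.1, h1⟩, h2⟩

/-- extension by one letter on the left -/
theorem ext_one (hn : 2 ≤ n) (hne : ∀ a < n, ∃ j ∈ S a, 0 < j) {w : List ℕ}
    (hw : w ∈ RunLang n S) : ∃ x, x :: w ∈ RunLang n S := by
  obtain ⟨u, v, h⟩ := hw
  rcases List.eq_nil_or_concat u with h1 | ⟨u', x, h1⟩
  · subst h1
    obtain ⟨x, hx, hxW⟩ : ∃ x < n, ∀ z ∈ (w ++ v).head?, z ≠ x := by
      rcases hh : (w ++ v).head? with _ | z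
      · exact ⟨0, by omega, by simp⟩
      · by_cases hz : z = 0
        · refine ⟨1, by omega, ?_⟩
          intro z' hz'
          simp only [Option.mem_def, Option.some.injEq] at hz'
          omega
        · refine ⟨0, by omega, ?_⟩
          intro z' hz'
          simp only [Option.mem_def, Option.some.injEq] at hz'
          omega
    obtain ⟨s, hs, hs0⟩ := hne x hx
    rw [List.nil_append] at h
    have h2 := complete_cons h hx (Or.inr hs) hxW
    obtain ⟨s', rfl⟩ : ∃ s', s = s' + 1 := ⟨s - 1, by omega⟩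
    refine ⟨x, List.replicate s' x, v, ?_⟩
    rw [List.replicate_succ'] at h2
    have h3 : List.replicate s' x ++ x :: w ++ v = List.replicate s' x ++ [x] ++ (w ++ v) := by
      simp
    rw [h3]
    exact h2
  · rw [List.concat_eq_append] at h1
    subst h1
    refine ⟨x, u', v, ?_⟩
    have h3 : u' ++ x :: w ++ v = u' ++ [x] ++ w ++ v := by simp
    rw [h3]
    exact h

theorem ext_left (hn : 2 ≤ n) (hne : ∀ a < n, ∃ j ∈ S a, 0 < j) (K : ℕ) {w : List ℕ}
    (hw : w ∈ RunLang n S) : ∃ U : List ℕ, U.length = K ∧ U ++ w ∈ RunLang n S := by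
  induction K with
  | zero => exact ⟨[], rfl, hw⟩
  | succ K ih =>
    obtain ⟨U, h1, h2⟩ := ih
    obtain ⟨x, h3⟩ := ext_one hn hne h2
    exact ⟨x :: U, by simp [h1], h3⟩

theorem complete_rev {w : List ℕ} (h : Complete n S w) : Complete n S w.reverse := by
  refine ⟨fun a ha => h.1 a (List.mem_reverse.1 ha), fun a j hj => ?_⟩
  exact h.2 a j ((maxRun_reverse_iff w a j).1 hj)

theorem run_rev {w : List ℕ} (h : w ∈ RunLang n S) : w.reverse ∈ RunLang n S := by
  obtain ⟨u, v, h⟩ := h
  refine ⟨v.reverse, u.reverse, ?_⟩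
  have := complete_rev h
  rw [List.reverse_append, List.reverse_append, ← List.append_assoc] at this
  exact this

theorem ext_right (hn : 2 ≤ n) (hne : ∀ a < n, ∃ j ∈ S a, 0 < j) (K : ℕ) {w : List ℕ}
    (hw : w ∈ RunLang n S) : ∃ V : List ℕ, V.length = K ∧ w ++ V ∈ RunLang n S := by
  obtain ⟨U, h1, h2⟩ := ext_left hn hne K (run_rev hw)
  refine ⟨U.reverse, by simpa using h1, ?_⟩
  have := run_rev h2
  rwa [List.reverse_append, List.reverse_reverse] at this

theorem ext (hn : 2 ≤ n) (hne : ∀ a < n, ∃ j ∈ S a, 0 < j) (K : ℕ) {w : List ℕ}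
    (hw : w ∈ RunLang n S) : ∃ U V : List ℕ, U.length = K ∧ V.length = K ∧
      U ++ w ++ V ∈ RunLang n S := by
  obtain ⟨U, h1, h2⟩ := ext_left hn hne K hw
  obtain ⟨V, h3, h4⟩ := ext_right hn hne K h2
  exact ⟨U, V, h1, h3, h4⟩

/-- the local description of the language -/
theorem loc {w : List ℕ} (hw : ∀ l ∈ w, l < n) :
    w ∈ RunLang n S ↔ ∀ a, ∃ m m', pr (Ez S a) a m w ∧ tl a m w + m' ∈ Ez S a := by
  constructor
  · rintro ⟨u, v, h⟩ a
    rw [complete_iff] at h
    have h1 := h.2 a
    rw [List.append_assoc, split3] at h1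
    obtain ⟨_, h2, h3, h4⟩ := h1
    obtain ⟨j, h5, h6⟩ := run_ge (Ez S a) a 0 v _ h3 (by rwa [Nat.add_zero])
    refine ⟨tl a 0 u, j - tl a (tl a 0 u) w, h2, ?_⟩
    have h7 : tl a (tl a 0 u) w + (j - tl a (tl a 0 u) w) = j := by omega
    rw [h7]
    exact h6
  · intro h
    rcases List.eq_nil_or_concat w with h0 | ⟨w', y, h0⟩
    · rw [h0]
      exact run_nil
    rw [List.concat_eq_append] at h0
    obtain ⟨x, w1, h1⟩ : ∃ x w1, w = x :: w1 := by
      cases w with
      | nil => simp at h0
      | cons x w1 => exact ⟨x, w1, rfl⟩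
    have hx : x < n := hw x (by rw [h1]; simp)
    have hy : y < n := hw y (by rw [h0]; simp)
    choose μ μ' hμ using h
    refine ⟨List.replicate (μ x) x, List.replicate (μ' y) y, ?_⟩
    rw [complete_iff]
    refine ⟨?_, fun a => ?_⟩
    · intro a ha
      simp only [List.mem_append] at ha
      rcases ha with (ha | ha) | ha
      · rw [List.eq_of_mem_replicate ha]
        exact hx
      · exact hw a ha
      · rw [List.eq_of_mem_replicate ha]
        exact hy
    · obtain ⟨h2, h3⟩ := hμ a
      -- the part on the right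
      have key : ∀ m, pr (Ez S a) a m w → (a = y → tl a m w = tl a (μ a) w) →
          pr (Ez S a) a m (w ++ List.replicate (μ' y) y) ∧
            tl a m (w ++ List.replicate (μ' y) y) ∈ Ez S a := by
        intro m hm hme
        rw [pr_append, tl_append]
        by_cases hay : a = y
        · rw [hme hay]
          subst hay
          have h4 := pr_rep (Ez S a) a (μ' a) [] (tl a (μ a) w)
          have h5 := tl_rep a (μ' a) [] (tl a (μ a) w)
          rw [List.append_nil] at h4 h5
          rw [h5]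
          exact ⟨⟨hm, h4.2 trivial⟩, h3⟩
        · have h4 : tl a m w = 0 := by
            rw [h0]
            exact tl_last _ _ _ _ (Ne.symm hay)
          rw [h4]
          have h5 := pr_free (Ez S a) (ez0 a) a (List.replicate (μ' y) y)
            (fun h => hay (List.eq_of_mem_replicate h))
          rw [h5.2]
          exact ⟨⟨hm, h5.1⟩, ez0 a⟩
      rw [List.append_assoc]
      by_cases hax : a = x
      · subst hax
        rw [pr_rep, tl_rep, Nat.zero_add]
        exact key _ h2 (fun _ => rfl)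
      · have h5 := pr_free (Ez S a) (ez0 a) a (List.replicate (μ x) x)
          (fun h => hax (List.eq_of_mem_replicate h))
        rw [pr_append, tl_append, h5.2]
        have h6 : pr (Ez S a) a 0 w := by
          rw [h1, pr_ne _ _ _ _ _ (Ne.symm hax)] at h2 ⊢
          exact ⟨ez0 a, h2.2⟩
        have h7 : tl a 0 w = tl a (μ a) w := by
          rw [h1, tl_ne _ _ _ _ (Ne.symm hax), tl_ne _ _ _ _ (Ne.symm hax)]
        have h8 := key 0 h6 (fun _ => h7)
        exact ⟨⟨h5.1, h8.1⟩, h8.2⟩

/-- periodic words -/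
def Pw (x y s r K : ℕ) : List ℕ := (List.replicate K (List.replicate s x ++ List.replicate r y)).flatten

theorem pw_succ (x y s r K : ℕ) :
    Pw x y s r (K + 1) = List.replicate s x ++ (List.replicate r y ++ Pw x y s r K) := by
  unfold Pw
  rw [List.replicate_succ, List.flatten_cons, List.append_assoc]

theorem pw_len (x y s r K : ℕ) : (Pw x y s r K).length = K * (s + r) := by
  induction K with
  | zero => simp [Pw]
  | succ K ih =>
    rw [pw_succ, List.length_append, List.length_append, ih]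
    simp only [List.length_replicate]
    ring

theorem pw_head (x y s r K : ℕ) (hs : 0 < s) : ∀ z ∈ (Pw x y s r K).head?, z = x := by
  obtain ⟨s, rfl⟩ : ∃ s', s = s' + 1 := ⟨s - 1, by omega⟩
  cases K with
  | zero => intro z hz; simp [Pw] at hz
  | succ K =>
    intro z hz
    rw [pw_succ, List.replicate_succ] at hz
    simpa using hz.symm

theorem pw_complete {x y s r : ℕ} (hx : x < n) (hy : y < n) (hxy : x ≠ y) (hs : s ∈ S x)
    (hr : r ∈ S y) (hs0 : 0 < s) (hr0 : 0 < r) (K : ℕ) : Complete n S (Pw x y s r K) := by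
  induction K with
  | zero =>
    unfold Pw
    rw [complete_iff]
    refine ⟨fun a ha => ?_, fun a => ⟨trivial, ez0 a⟩⟩
    simp at ha
  | succ K ih =>
    rw [pw_succ]
    refine complete_cons (complete_cons ih hy (Or.inr hr) ?_) hx (Or.inr hs) ?_
    · intro z hz
      rw [pw_head x y s r K hs0 z hz]
      exact hxy
    · intro z hz
      obtain ⟨r, rfl⟩ : ∃ r', r = r' + 1 := ⟨r - 1, by omega⟩
      rw [List.replicate_succ] at hz
      simp only [List.cons_append, List.head?_cons, Option.mem_def, Option.some.injEq] at hz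
      rw [← hz]
      exact Ne.symm hxy

theorem pw_mem {x y s r : ℕ} (hx : x < n) (hy : y < n) (hxy : x ≠ y) (hs : s ∈ S x)
    (hr : r ∈ S y) (hs0 : 0 < s) (hr0 : 0 < r) (K : ℕ) : Pw x y s r K ∈ RunLang n S :=
  ⟨[], [], by
    rw [List.nil_append, List.append_nil]
    exact pw_complete hx hy hxy hs hr hs0 hr0 K⟩

end Pool.Agent.Helper37.RX
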