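import Pool.Agent.Helper37.RW.Defs

/-!
# MP_93aa28_lc: closed and exceptional sets (definitions)
-/

set_option autoImplicit false

namespace Pool.Agent.Helper37.RX

open Pool.Agent.Helper37.RW (Neutral)

/-- finite, or closed under the addition of one of its positive elements -/
def Closed (S : Set ℕ) : Prop := S.Finite ∨ ∃ k ∈ S, 0 < k ∧ ∀ j ∈ S, j + k ∈ S

/-- the power series `1 + ∑ z ^ j`, where `j` runs through the positive elements of `S` -/
noncomputable def Ser (S : Set ℕ) : PowerSeries ℂ :=
  PowerSeries.mk (Set.indicator (insert 0 S) (fun _ => (1 : ℂ)))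

/-- exceptional: the series is the inverse of a polynomial, `S` is not neutral, and for every `B`
for which there is a positive element of `S` up to `B` there is an element of `S` which is larger
than `B` and at most `2 * B` -/
def Exceptional (S : Set ℕ) : Prop :=
  (∃ u : Polynomial ℂ, (u : PowerSeries ℂ) * Ser S = 1) ∧ ¬ Neutral S ∧
    ∀ B, (∃ j ∈ S, 0 < j ∧ j ≤ B) → ∃ j ∈ S, B < j ∧ j ≤ 2 * B

/-- all sets are closed; or there are two colours, one of the two sets is finite and the positive
elements of the other one are closed under the addition of some positive number -/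
def AllClosed (n : ℕ) (S : ℕ → Set ℕ) : Prop :=
  (∀ c < n, Closed (S c)) ∨ (n = 2 ∧ ∃ c < n, ∃ d < n, c ≠ d ∧ (S c).Finite ∧
    ∃ k, 0 < k ∧ ∀ j ∈ S d, 0 < j → j + k ∈ S d)

end Pool.Agent.Helper37.RX
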