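import Pool.Agent.Helper37.RX.D

/-!
# Powers of letters in the code
-/

set_option autoImplicit false

namespace Pool.Agent.Helper37.RX

open Pool.Agent.Helper31.BD
open Pool.Agent.Helper37.RV (Complete RunLang Ez)

variable {S : ℕ → Set ℕ} {n : ℕ}

theorem pw_letters {x y s r K a : ℕ} (h : a ∈ Pw x y s r K) : a = x ∨ a = y := by
  unfold Pw at h
  obtain ⟨c, hc, hac⟩ := List.mem_flatten.1 h
  rw [List.eq_of_mem_replicate hc] at hac
  rcases List.mem_append.1 hac with h | h
  · exact Or.inl (List.eq_of_mem_replicate h)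
  · exact Or.inr (List.eq_of_mem_replicate h)

/-- a long factor contains a word of the code -/
theorem inside {C : Finset (List ℕ)} (hC : UD C) {W : List ℕ} (hW : W ∈ Fac C)
    (hl : 2 * Ml C + 1 ≤ W.length) : ∃ d ∈ C, d ≠ [] ∧ ∃ a b, W = a ++ d ++ b := by
  let U := W.take (Ml C)
  let w := (W.drop (Ml C)).take 1
  let V := (W.drop (Ml C)).drop 1
  have h1 : U ++ w ++ V = W := by
    simp only [U, w, V]
    rw [List.append_assoc, List.take_append_drop, List.take_append_drop]
  have hU : U.length = Ml C := by
    simp only [U, List.length_take]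
    omega
  have hw : w.length = 1 := by
    simp only [w, List.length_take, List.length_drop]
    omega
  have hV : Ml C ≤ V.length := by
    simp only [V, List.length_drop]
    omega
  rw [← h1] at hW
  obtain ⟨l, U1, U2, V1, V2, h2, h3, h4, h5⟩ := cover hW hU.ge hV
  cases l with
  | nil =>
    exfalso
    have := congrArg List.length h5
    simp only [List.flatten_nil, List.length_nil, List.length_append] at this
    omega
  | cons d l =>
    have hd : d ∈ C := h2 d (by simp)
    refine ⟨d, hd, fun h => nil_not hC (h ▸ hd), U1, l.flatten ++ V2, ?_⟩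
    rw [List.flatten_cons] at h5
    rw [← h1, h3, h4]
    calc U1 ++ U2 ++ w ++ (V1 ++ V2) = U1 ++ (U2 ++ w ++ V1) ++ V2 := by
          simp only [List.append_assoc]
      _ = _ := by
          rw [← h5]
          simp only [List.append_assoc]

/-- a nonempty word of the code which avoids a given letter -/
theorem avoid {C : Finset (List ℕ)} (hC : UD C) (hL : RunLang n S = Fac C) (hn : 3 ≤ n)
    (hne : ∀ a < n, ∃ j ∈ S a, 0 < j) (c : ℕ) : ∃ d ∈ C, d ≠ [] ∧ c ∉ d := by
  obtain ⟨x, y, hx, hy, hxy, hxc, hyc⟩ : ∃ x y, x < n ∧ y < n ∧ x ≠ y ∧ x ≠ c ∧ y ≠ c := by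
    by_cases h0 : c = 0
    · exact ⟨1, 2, by omega, by omega, by omega, by omega, by omega⟩
    · by_cases h1 : c = 1
      · exact ⟨0, 2, by omega, by omega, by omega, by omega, by omega⟩
      · exact ⟨0, 1, by omega, by omega, by omega, by omega, by omega⟩
  obtain ⟨s, hs, hs0⟩ := hne x hx
  obtain ⟨r, hr, hr0⟩ := hne y hy
  have h1 := pw_mem hx hy hxy hs hr hs0 hr0 (2 * Ml C + 1)
  rw [hL] at h1
  obtain ⟨d, hd, hd0, a, b, h2⟩ := inside hC h1 (by
    rw [pw_len]
    nlinarith)
  refine ⟨d, hd, hd0, fun hc => ?_⟩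
  have h3 : c ∈ Pw x y s r (2 * Ml C + 1) := by
    rw [h2]
    simp [hc]
  rcases pw_letters h3 with h | h
  · exact hxc h.symm
  · exact hyc h.symm

/-- if there are long runs of a letter then a power of it is in the code -/
theorem power {C : Finset (List ℕ)} (hC : UD C) (hL : RunLang n S = Fac C) (c : ℕ) (hc : c < n)
    (hinf : ¬ (S c).Finite) : ∃ k, 0 < k ∧ List.replicate k c ∈ C := by
  obtain ⟨j, hj, hj2⟩ : ∃ j ∈ S c, 2 * Ml C + 1 ≤ j := by
    by_contra hcon
    push Not at hcon
    exact hinf ((Set.finite_lt_nat (2 * Ml C + 1)).subset fun j hj => hcon j hj)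
  have h1 : List.replicate j c ∈ RunLang n S := RV.rep_mem c j hc (Or.inr hj)
  rw [hL] at h1
  obtain ⟨d, hd, hd0, a, b, h2⟩ := inside hC h1 (by simpa using hj2)
  have h3 : d = List.replicate d.length c := by
    rw [List.eq_replicate_iff]
    refine ⟨rfl, fun x hx => ?_⟩
    have h4 : x ∈ List.replicate j c := by
      rw [h2]
      simp [hx]
    exact List.eq_of_mem_replicate h4
  refine ⟨d.length, List.length_pos_iff.2 hd0, ?_⟩
  rw [← h3]
  exact hd

/-- the last letter of a word -/
theorem last_of {w : List ℕ} (hw : w ≠ []) : ∃ u x, w = u ++ [x] := by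
  rcases List.eq_nil_or_concat w with h | ⟨u, x, h⟩
  · exact absurd h hw
  · exact ⟨u, x, by rw [h, List.concat_eq_append]⟩

/-- the exponent of such a power is a run length -/
theorem power_mem {C : Finset (List ℕ)} (hC : UD C) (hL : RunLang n S = Fac C) (hn : 3 ≤ n)
    (hne : ∀ a < n, ∃ j ∈ S a, 0 < j) (c k : ℕ) (hk : 0 < k) (h : List.replicate k c ∈ C) :
    k ∈ S c := by
  obtain ⟨d, hd, hd0, hcd⟩ := avoid hC hL hn hne c
  have h1 : d ++ (List.replicate k c ++ d) ∈ Fac C := by
    refine ⟨[], [], [d, List.replicate k c, d], ?_, by simp⟩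
    intro x hx
    simp only [List.mem_cons, List.not_mem_nil, or_false] at hx
    rcases hx with h' | h' | h'
    · rw [h']; exact hd
    · rw [h']; exact h
    · rw [h']; exact hd
  obtain ⟨u, x, hux⟩ := last_of hd0
  obtain ⟨z, v, hzv⟩ : ∃ z v, d = z :: v := by
    cases d with
    | nil => exact absurd rfl hd0
    | cons z v => exact ⟨z, v, rfl⟩
  have h2 : u ++ (x :: (List.replicate k c ++ (z :: v))) ∈ RunLang n S := by
    rw [hL, ← hzv]
    have h3 : u ++ (x :: (List.replicate k c ++ d)) = d ++ (List.replicate k c ++ d) := by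
      nth_rw 2 [hux]
      simp
    rw [h3]
    exact h1
  refine ez_pos (run_mem h2 ?_ ?_) hk
  · intro hxc
    apply hcd
    rw [hux, ← hxc]
    simp
  · intro hzc
    apply hcd
    rw [hzv, ← hzc]
    simp

/-- cuts of a periodic word -/
theorem pw_cut (x y s r : ℕ) (K : ℕ) : ∀ V1 V2 : List ℕ, V1 ++ V2 = Pw x y s r K →
    s + r < V2.length → ∃ q q' A B, A ++ B = List.replicate s x ++ List.replicate r y ∧
      V1 = Pw x y s r q ++ A ∧ V2 = B ++ Pw x y s r (q' + 1) := by
  induction K with
  | zero =>
    intro V1 V2 h hl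
    exfalso
    have := congrArg List.length h
    rw [pw_len, List.length_append] at this
    omega
  | succ K ih =>
    intro V1 V2 h hl
    have hsucc : Pw x y s r (K + 1) =
        (List.replicate s x ++ List.replicate r y) ++ Pw x y s r K := by
      rw [pw_succ, List.append_assoc]
    rw [hsucc] at h
    rcases Nat.lt_or_ge V1.length (s + r) with h1 | h1
    · obtain ⟨Z, h2, h3⟩ := app_split h.symm (by simp; omega)
      rcases K with _ | K
      · exfalso
        have := congrArg List.length h3
        have h4 := congrArg List.length h2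
        simp only [List.length_append, List.length_replicate, pw_len] at this h4
        omega
      · exact ⟨0, K, V1, Z, h2.symm, by simp [Pw], h3⟩
    · obtain ⟨Z, h2, h3⟩ := app_split h (by simp; omega)
      obtain ⟨q, q', A, B, k1, k2, k3⟩ := ih Z V2 h3.symm hl
      refine ⟨q + 1, q', A, B, k1, ?_, k3⟩
      rw [h2, k2, pw_succ]
      simp only [List.append_assoc]

theorem over_one {C : Finset (List ℕ)} {d : List ℕ} (h : d ∈ C) : Over C [d] := by
  intro x hx
  rw [List.mem_singleton.1 hx]
  exact h

/-- the set of run lengths is closed -/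
theorem closure {C : Finset (List ℕ)} (hL : RunLang n S = Fac C) (hn : 2 ≤ n)
    (hne : ∀ a < n, ∃ j ∈ S a, 0 < j) (c k : ℕ) (hc : c < n) (hk : 0 < k)
    (h : List.replicate k c ∈ C) (j : ℕ) (hj : j ∈ S c) (hj0 : 0 < j) : j + k ∈ S c := by
  classical
  obtain ⟨y, hy, hyc⟩ : ∃ y < n, y ≠ c := by
    by_cases h0 : c = 0
    · exact ⟨1, by omega, by omega⟩
    · exact ⟨0, by omega, by omega⟩
  have hex : ∃ r, r ∈ S y ∧ 0 < r := by
    obtain ⟨r, h1, h2⟩ := hne y hy
    exact ⟨r, h1, h2⟩
  obtain ⟨r, ⟨hr, hr0⟩, hmin⟩ : ∃ r, (r ∈ S y ∧ 0 < r) ∧ ∀ r' < r, ¬ (r' ∈ S y ∧ 0 < r') :=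
    ⟨Nat.find hex, Nat.find_spec hex, fun r' hr' => Nat.find_min hex hr'⟩
  obtain ⟨j', rfl⟩ : ∃ j', j = j' + 1 := ⟨j - 1, by omega⟩
  obtain ⟨r', rfl⟩ : ∃ r', r = r' + 1 := ⟨r - 1, by omega⟩
  obtain ⟨k', rfl⟩ : ∃ k', k = k' + 1 := ⟨k - 1, by omega⟩
  have h1 := pw_mem hc hy (Ne.symm hyc) hj hr hj0 hr0 (Ml C + 2 + 1)
  rw [hL, pw_succ, ← List.append_assoc] at h1
  obtain ⟨u, v, l1, l2, V1, V2, hl1, hl2, h2, h3, h4, h5⟩ := cut_mid h1 (by
    rw [pw_len]
    nlinarith)
  have hlen : j' + 1 + (r' + 1) < V2.length := by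
    have h6 := congrArg List.length h2
    rw [pw_len, List.length_append] at h6
    nlinarith
  obtain ⟨q, q', A, B, k1, k2, k3⟩ := pw_cut c y (j' + 1) (r' + 1) _ V1 V2 h2.symm hlen
  -- the word before the cut
  obtain ⟨X, hX⟩ : ∃ X, u ++ (List.replicate (j' + 1) c ++ List.replicate (r' + 1) y ++ V1) =
      X ++ [y] ++ A := by
    rw [k2]
    rcases q with _ | q
    · refine ⟨u ++ (List.replicate (j' + 1) c ++ List.replicate r' y), ?_⟩
      rw [List.replicate_succ' (n := r')]
      simp [Pw]
    · obtain ⟨X, y', hXy⟩ := last_of (w := Pw c y (j' + 1) (r' + 1) (q + 1)) (by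
        rw [pw_succ, List.replicate_succ]
        simp)
      have hy' : y' = y := by
        have h7 : Pw c y (j' + 1) (r' + 1) (q + 1) = Pw c y (j' + 1) (r' + 1) q ++
            (List.replicate (j' + 1) c ++ List.replicate (r' + 1) y) := by
          unfold Pw
          rw [List.replicate_succ', List.flatten_append]
          simp
        rw [h7, List.replicate_succ' (n := r'), ← List.append_assoc, ← List.append_assoc] at hXy
        have h8 := List.append_inj_right' hXy rfl
        simpa using h8.symm
      subst hy'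
      refine ⟨u ++ (List.replicate (j' + 1) c ++ List.replicate (r' + 1) y' ++ X), ?_⟩
      rw [hXy]
      simp only [List.append_assoc]
  rw [hX] at h4
  have hins : (X ++ [y] ++ A) ++ List.replicate (k' + 1) c ++ (B ++ Pw c y (j' + 1) (r' + 1) (q' + 1)
      ++ v) ∈ RunLang n S := by
    rw [hL, ← h4, ← k3, ← h5]
    have h9 : l1.flatten ++ List.replicate (k' + 1) c ++ l2.flatten =
        (l1 ++ ([List.replicate (k' + 1) c] ++ l2)).flatten := by simp
    rw [h9]
    exact flat_mem (over_app.2 ⟨hl1, over_app.2 ⟨over_one h, hl2⟩⟩)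
  -- position of the cut
  rcases Nat.lt_or_ge (j' + 1) A.length with hA | hA
  · obtain ⟨Z, e1, e2⟩ := app_split k1 (by simp; omega)
    obtain ⟨e3, e4, e5⟩ := List.append_eq_replicate_iff.1 e2.symm
    have hZ0 : 0 < Z.length := by
      have := congrArg List.length e1
      simp only [List.length_append, List.length_replicate] at this
      omega
    rcases Nat.eq_zero_or_pos B.length with hB | hB
    · -- cut between two periods
      have hB0 : B = [] := List.length_eq_zero_iff.1 hB
      have hZr : Z.length = r' + 1 := by omega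
      rw [hB0, List.nil_append, e1, e4, hZr, List.replicate_succ' (n := r')] at hins
      rw [pw_succ, List.replicate_succ (n := r')] at hins
      have h10 : X ++ [y] ++ (List.replicate (j' + 1) c ++ (List.replicate r' y ++ [y])) ++
          List.replicate (k' + 1) c ++ (List.replicate (j' + 1) c ++ ((y :: List.replicate r' y) ++
            Pw c y (j' + 1) (r' + 1) q') ++ v) =
          (X ++ [y] ++ (List.replicate (j' + 1) c ++ List.replicate r' y)) ++ (y ::
            (List.replicate ((k' + 1) + (j' + 1)) c ++ (y :: (List.replicate r' y ++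
              Pw c y (j' + 1) (r' + 1) q' ++ v)))) := by
        rw [List.replicate_add (k' + 1) (j' + 1)]
        simp only [List.append_assoc, List.cons_append, List.nil_append]
      rw [h10] at hins
      have h11 := run_mem hins hyc hyc
      rw [Nat.add_comm]
      exact ez_pos h11 (by omega)
    · -- cut inside a run of `y`
      exfalso
      have h12 : X ++ [y] ++ A ++ List.replicate (k' + 1) c ∈ RunLang n S := by
        refine run_factor (u := []) (v := B ++ Pw c y (j' + 1) (r' + 1) (q' + 1) ++ v) ?_
        rw [List.nil_append]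
        exact hins
      have e6 : A = List.replicate j' c ++ [c] ++ Z := by
        rw [e1, List.replicate_succ' (n := j')]
      rw [e6, e4, List.replicate_succ (n := k')] at h12
      have h13 : X ++ [y] ++ (List.replicate j' c ++ [c] ++ List.replicate Z.length y) ++
          (c :: List.replicate k' c) = (X ++ [y] ++ List.replicate j' c) ++ (c ::
            (List.replicate Z.length y ++ (c :: List.replicate k' c))) := by
        simp only [List.append_assoc, List.cons_append, List.nil_append]
      rw [h13] at h12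
      have h14 := run_mem h12 (Ne.symm hyc) (Ne.symm hyc)
      exact hmin Z.length (by omega) ⟨ez_pos h14 hZ0, hZ0⟩
  · -- cut in the run of `c`
    obtain ⟨Z, e1, e2⟩ := app_split k1.symm (by simp; omega)
    obtain ⟨e3, e4, e5⟩ := List.append_eq_replicate_iff.1 e1.symm
    rw [e2, e4, e5, List.replicate_succ (n := r')] at hins
    have h10 : X ++ [y] ++ List.replicate A.length c ++ List.replicate (k' + 1) c ++
        (List.replicate Z.length c ++ (y :: List.replicate r' y) ++
          Pw c y (j' + 1) (r' + 1) (q' + 1) ++ v) =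
        X ++ (y :: (List.replicate (A.length + ((k' + 1) + Z.length)) c ++ (y ::
          (List.replicate r' y ++ Pw c y (j' + 1) (r' + 1) (q' + 1) ++ v)))) := by
      rw [List.replicate_add A.length (k' + 1 + Z.length), List.replicate_add (k' + 1) Z.length]
      simp only [List.append_assoc, List.cons_append, List.nil_append]
    rw [h10] at hins
    have h11 := run_mem hins hyc hyc
    have h12 : A.length + ((k' + 1) + Z.length) = j' + 1 + (k' + 1) := by omega
    rw [h12] at h11
    exact ez_pos h11 (by omega)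

end Pool.Agent.Helper37.RX
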