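import Pool.Agent.Helper37.RX.E

/-!
# Restricting the code: shorter runs of a letter, one letter for every colour
-/

set_option autoImplicit false

namespace Pool.Agent.Helper37.RX

open Pool.Agent.Helper31.BD
open Pool.Agent.Helper37.RV (pr pr_self pr_ne pr_append pr_rep pr_free Complete RunLang Ez)
open Pool.Agent.Helper37.RU (tl tl_self tl_ne tl_append tl_rep tl_last exists_rep)
open Pool.Agent.Helper37.RW (ColLang)

variable {S : ℕ → Set ℕ} {n : ℕ}

theorem run_mono {S' : ℕ → Set ℕ} (h : ∀ a, S' a ⊆ S a) : RunLang n S' ⊆ RunLang n S := by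
  rintro w ⟨u, v, h1, h2⟩
  exact ⟨u, v, h1, fun a j hj => h a (h2 a j hj)⟩

theorem pr_mono {E E' : Set ℕ} (h : E ⊆ E') (a : ℕ) (z : List ℕ) :
    ∀ m, pr E a m z → pr E' a m z := by
  induction z with
  | nil => intro m _; trivial
  | cons l z ih =>
    intro m hm
    by_cases hl : l = a
    · subst hl
      rw [pr_self] at hm ⊢
      exact ih _ hm
    · rw [pr_ne _ _ _ _ _ hl] at hm ⊢
      exact ⟨h hm.1, ih _ hm.2⟩

/-- removing the long runs of one letter -/
theorem shrink {C : Finset (List ℕ)} (hC : UD C) (hL : RunLang n S = Fac C) (hn : 3 ≤ n)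
    (hne : ∀ a < n, ∃ j ∈ S a, 0 < j) (c : ℕ) (hc : c < n) (B : ℕ)
    (hB1 : ∃ j ∈ S c, 0 < j ∧ j ≤ B) (hB2 : ∀ j ∈ S c, B < j → 2 * B < j) :
    ∃ C' : Finset (List ℕ), UD C' ∧
      RunLang n (Function.update S c {j | j ∈ S c ∧ j ≤ B}) = Fac C' := by
  classical
  let S' : ℕ → Set ℕ := Function.update S c {j | j ∈ S c ∧ j ≤ B}
  have hS'c : S' c = {j | j ∈ S c ∧ j ≤ B} := Function.update_self ..
  have hS'a : ∀ a, a ≠ c → S' a = S a := fun a ha => Function.update_of_ne ha ..
  have hsub : ∀ a, S' a ⊆ S a := by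
    intro a j hj
    by_cases ha : a = c
    · subst ha
      rw [hS'c] at hj
      exact hj.1
    · rw [hS'a a ha] at hj
      exact hj
  have hne' : ∀ a < n, ∃ j ∈ S' a, 0 < j := by
    intro a ha
    by_cases hac : a = c
    · subst hac
      obtain ⟨j, h1, h2, h3⟩ := hB1
      exact ⟨j, by rw [hS'c]; exact ⟨h1, h3⟩, h2⟩
    · rw [hS'a a hac]
      exact hne a ha
  have hT1 : ∀ j ∈ Ez S' c, j ∈ Ez S c ∧ j ≤ B := by
    intro j hj
    rcases hj with hj | hj
    · rw [hj]
      exact ⟨ez0 c, Nat.zero_le _⟩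
    · rw [hS'c] at hj
      exact ⟨Or.inr hj.1, hj.2⟩
  have hT2 : ∀ j ∈ Ez S c, j ≤ 2 * B → j ∈ Ez S' c := by
    intro j hj hj2
    rcases hj with hj | hj
    · rw [hj]
      exact ez0 c
    · right
      rw [hS'c]
      refine ⟨hj, ?_⟩
      by_contra hcon
      have := hB2 j hj (by omega)
      omega
  -- no short powers of `c`
  have hpow : ∀ j, 0 < j → j ≤ B → List.replicate j c ∉ C := by
    intro j hj0 hjB hjC
    have hk := power_mem hC hL hn hne c j hj0 hjC
    have hcl : ∀ i ∈ Ez S c, i + j ∈ Ez S c := by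
      intro i hi
      rcases Nat.eq_zero_or_pos i with h | h
      · rw [h, Nat.zero_add]
        exact Or.inr hk
      · exact Or.inr (closure hL (by omega) hne c j hc hj0 hjC i (ez_pos hi h) h)
    have key : ∀ t, ∃ i ∈ Ez S' c, t ≤ i := by
      intro t
      induction t with
      | zero => exact ⟨0, ez0 c, le_rfl⟩
      | succ t ih =>
        obtain ⟨i, hi, hti⟩ := ih
        have h1 := hT1 i hi
        exact ⟨i + j, hT2 _ (hcl i h1.1) (by omega), by omega⟩
    obtain ⟨i, hi, hBi⟩ := key (B + 1)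
    have := (hT1 i hi).2
    omega
  -- the words of the code in the smaller language
  have single : ∀ w ∈ C, w ∈ RunLang n S' → ∃ j x z m1 m2, w = List.replicate j c ++ (x :: z) ∧
      x ≠ c ∧ m1 + j ∈ Ez S' c ∧ pr (Ez S' c) c 0 z ∧ tl c 0 z + m2 ∈ Ez S' c := by
    intro w hw hwL
    obtain ⟨m1, m2, h1, h2⟩ := (loc (mem_lt hwL)).1 hwL c
    obtain ⟨j, z, h3, h4⟩ := exists_rep c w
    rcases h4 with h4 | ⟨x, y, h4, hx⟩
    · exfalso
      rw [h4, List.append_nil] at h3
      have h5 := tl_rep c j [] m1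
      rw [List.append_nil, ← h3] at h5
      rw [h5] at h2
      have h6 := (hT1 _ h2).2
      simp only [tl] at h6
      refine hpow j ?_ (by omega) (h3 ▸ hw)
      rcases Nat.eq_zero_or_pos j with h7 | h7
      · rw [h7, List.replicate_zero] at h3
        exact absurd (h3 ▸ hw) (nil_not hC)
      · exact h7
    · rw [h4] at h3
      rw [h3, pr_rep, pr_ne _ _ _ _ _ hx] at h1
      rw [h3, tl_rep, tl_ne _ _ _ _ hx] at h2
      exact ⟨j, x, y, m1, m2, h3, hx, h1.1, h1.2, h2⟩
  have main : ∀ l : List (List ℕ), Over C l → (∀ w ∈ l, w ∈ RunLang n S') → ∀ m, m ≤ B →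
      pr (Ez S c) c m l.flatten → pr (Ez S' c) c m l.flatten ∧
        (l = [] ∨ ∃ m', tl c m l.flatten + m' ∈ Ez S' c) := by
    intro l
    induction l with
    | nil => intro _ _ m _ _; exact ⟨trivial, Or.inl rfl⟩
    | cons w l ih =>
      intro hl hlL m hm hp
      obtain ⟨j, x, z, m1, m2, h1, hx, h2, h3, h4⟩ := single w (hl w (by simp)) (hlL w (by simp))
      have hf : (w :: l).flatten = List.replicate j c ++ (x :: (z ++ l.flatten)) := by
        rw [List.flatten_cons, h1]
        simp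
      rw [hf, pr_rep, pr_ne _ _ _ _ _ hx, pr_append] at hp
      rw [hf, pr_rep, pr_ne _ _ _ _ _ hx, pr_append, tl_rep, tl_ne _ _ _ _ hx, tl_append]
      obtain ⟨p1, p2, p3⟩ := hp
      have h5 := (hT1 _ h2).2
      have h6 := (hT1 _ h4).2
      obtain ⟨i1, i2⟩ := ih (fun c hc => hl c (by simp [hc])) (fun w hw => hlL w (by simp [hw]))
        (tl c 0 z) (by omega) p3
      refine ⟨⟨hT2 _ p1 (by omega), h3, i1⟩, Or.inr ?_⟩
      rcases i2 with i2 | i2
      · refine ⟨m2, ?_⟩
        rw [i2]
        exact h4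
      · exact i2
  have hres := restrict hC (RunLang n S') (by rw [← hL]; exact run_mono hsub)
    (fun u w v h => run_factor h)
    (fun w hw => by
      obtain ⟨U, V, h1, h2, h3⟩ := ext (by omega) hne' (Ml C) hw
      exact ⟨U, V, h1.ge, h2.ge, h3⟩)
    (by
      intro l hl hlL hl0
      have hF : l.flatten ∈ RunLang n S := by
        rw [hL]
        exact flat_mem hl
      have hlt := mem_lt hF
      rw [loc hlt]
      intro a
      obtain ⟨m, m', h1, h2⟩ := (loc hlt).1 hF a
      by_cases hac : a = c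
      · subst hac
        cases l with
        | nil => exact absurd rfl hl0
        | cons w l =>
          obtain ⟨j, x, z, m1, m2, k1, hx, k2, k3, k4⟩ := single w (hl w (by simp))
            (hlL w (by simp))
          have hf : (w :: l).flatten = List.replicate j a ++ (x :: (z ++ l.flatten)) := by
            rw [List.flatten_cons, k1]
            simp
          have hT := hT1 _ k2
          have hp : pr (Ez S a) a m1 (w :: l).flatten := by
            rw [hf, pr_rep, pr_ne _ _ _ _ _ hx] at h1 ⊢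
            exact ⟨hT.1, h1.2⟩
          obtain ⟨i1, i2⟩ := main (w :: l) hl hlL m1 (by omega) hp
          rcases i2 with i2 | ⟨m', i2⟩
          · exact absurd i2 hl0
          · exact ⟨m1, m', i1, i2⟩
      · have hEz : Ez S' a = Ez S a := by
          unfold Ez
          rw [hS'a a hac]
        rw [hEz]
        exact ⟨m, m', h1, h2⟩)
    run_nil
  exact ⟨_, hres.1, hres.2⟩

/-- one letter for every colour -/
theorem plain (N : ℕ) (π : ℕ → ℕ) (hsur : ∀ c < n, ∃ l < N, π l = c) (hn : 2 ≤ n)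
    (hne : ∀ a < n, ∃ j ∈ S a, 0 < j) {C : Finset (List ℕ)} (hC : UD C)
    (hL : ColLang N π n S = Fac C) : ∃ C0 : Finset (List ℕ), UD C0 ∧ RunLang n S = Fac C0 := by
  classical
  let σ : ℕ → ℕ := fun c => if h : c < n then (hsur c h).choose else 0
  have hσ : ∀ c, c < n → σ c < N ∧ π (σ c) = c := by
    intro c h
    have h4 : σ c = (hsur c h).choose := dif_pos h
    rw [h4]
    exact (hsur c h).choose_spec
  have hmapσ : ∀ x : List ℕ, (∀ c ∈ x, c < n) → (x.map σ).map π = x := by
    intro x hx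
    rw [List.map_map]
    conv_rhs => rw [← List.map_id x]
    exact List.map_congr_left fun c hc => (hσ c (hx c hc)).2
  let L : Set (List ℕ) := {w | ∃ w0 ∈ RunLang n S, w = w0.map σ}
  have hsub : L ⊆ ColLang N π n S := by
    rintro w ⟨w0, h1, rfl⟩
    refine ⟨?_, ?_⟩
    · intro l hl
      obtain ⟨c, hc, rfl⟩ := List.mem_map.1 hl
      exact (hσ c (mem_lt h1 c hc)).1
    · rw [hmapσ w0 (mem_lt h1)]
      exact h1
  have hLmap : ∀ w ∈ L, w.map π ∈ RunLang n S ∧ (w.map π).map σ = w := by
    rintro w ⟨w0, h1, rfl⟩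
    rw [hmapσ w0 (mem_lt h1)]
    exact ⟨h1, rfl⟩
  obtain ⟨hC1, hL1⟩ := restrict hC L (by rw [← hL]; exact hsub)
    (by
      rintro u w v ⟨w0, h1, h2⟩
      obtain ⟨a, b, h3, h4, h5⟩ := List.map_eq_append_iff.1 h2.symm
      obtain ⟨a1, a2, h6, h7, h8⟩ := List.map_eq_append_iff.1 h4
      refine ⟨a2, ?_, h8.symm⟩
      refine run_factor (u := a1) (v := b) ?_
      rw [← h6, ← h3]
      exact h1)
    (by
      rintro w ⟨w0, h1, rfl⟩
      obtain ⟨U, V, h2, h3, h4⟩ := ext hn hne (Ml C) h1
      refine ⟨U.map σ, V.map σ, by rw [List.length_map]; exact h2.ge,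
        by rw [List.length_map]; exact h3.ge, U ++ w0 ++ V, h4, ?_⟩
      rw [List.map_append, List.map_append])
    (by
      intro l hl hlL _
      have h1 : l.flatten ∈ ColLang N π n S := by
        rw [hL]
        exact flat_mem hl
      refine ⟨l.flatten.map π, h1.2, ?_⟩
      rw [List.map_flatten, List.map_flatten, List.map_map]
      congr 1
      conv_lhs => rw [← List.map_id l]
      exact List.map_congr_left fun w hw => (hLmap w (hlL w hw)).2.symm)
    ⟨[], run_nil, rfl⟩
  let C1 := C.filter (fun w => w ∈ L)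
  have hmem1 : ∀ w ∈ C1, w ∈ L := fun w hw => (Finset.mem_filter.1 hw).2
  let C0 := C1.image (List.map π)
  have hback : ∀ d ∈ C0, d.map σ ∈ C1 ∧ (d.map σ).map π = d ∧ ∀ x ∈ d, x < n := by
    intro d hd
    obtain ⟨w, hw, rfl⟩ := Finset.mem_image.1 hd
    obtain ⟨h1, h2⟩ := hLmap w (hmem1 w hw)
    rw [h2]
    exact ⟨hw, rfl, mem_lt h1⟩
  have hover : ∀ l, Over C0 l → Over C1 (l.map (List.map σ)) := by
    intro l hl c hc
    obtain ⟨d, hd, rfl⟩ := List.mem_map.1 hc
    exact (hback d (hl d hd)).1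
  have hbackl : ∀ l, Over C0 l → (l.map (List.map σ)).map (List.map π) = l := by
    intro l hl
    rw [List.map_map]
    conv_rhs => rw [← List.map_id l]
    exact List.map_congr_left fun d hd => (hback d (hl d hd)).2.1
  refine ⟨C0, ?_, ?_⟩
  · intro l1 l2 h1 h2 he
    have h3 := hC1 _ _ (hover l1 h1) (hover l2 h2) (by
      rw [← List.map_flatten, ← List.map_flatten, he])
    rw [← hbackl l1 h1, ← hbackl l2 h2, h3]
  · ext w
    constructor
    · intro hw
      have h1 : w.map σ ∈ L := ⟨w, hw, rfl⟩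
      rw [hL1] at h1
      obtain ⟨u, v, l, hl, he⟩ := h1
      refine ⟨u.map π, v.map π, l.map (List.map π), ?_, ?_⟩
      · intro c hc
        obtain ⟨d, hd, rfl⟩ := List.mem_map.1 hc
        exact Finset.mem_image_of_mem _ (hl d hd)
      · rw [← List.map_flatten, ← he, List.map_append, List.map_append, hmapσ w (mem_lt hw)]
    · rintro ⟨u, v, l, hl, he⟩
      have h1 : (l.map (List.map σ)).flatten ∈ L := by
        rw [hL1]
        exact flat_mem (hover l hl)
      have h2 := (hLmap _ h1).1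
      rw [List.map_flatten, hbackl l hl, ← he] at h2
      exact run_factor h2

end Pool.Agent.Helper37.RX
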