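import Pool.Agent.Helper37.RX.Base

/-!
Rational equivalence relations with finite classes have regular cross-sections.
-/

namespace Pool.Agent.Helper37.RX

universe u

variable {A : Type u} {σ : Type} (M : DFA (A ⊕ A) σ)

/-- The states from which the set `t` is reachable while reading `u` on the first tape. -/
def pre (u : List A) (t : Set σ) : Set σ := {s | ∃ x, lefts x = u ∧ M.evalFrom s x ∈ t}

/-- The type of a word `y`: the states from which `y` can be read on the first tape so that the
run is accepting. -/
def tp (y : List A) : Set σ := pre M y M.accept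

theorem pre_append (u v : List A) (t : Set σ) : pre M (u ++ v) t = pre M u (pre M v t) := by
  ext s
  constructor
  · rintro ⟨x, hx, hs⟩
    obtain ⟨x1, x2, rfl, h1, h2⟩ := lefts_split hx
    rw [DFA.evalFrom_of_append] at hs
    exact ⟨x1, h1, x2, h2, hs⟩
  · rintro ⟨x1, h1, x2, h2, hs⟩
    refine ⟨x1 ++ x2, by simp [h1, h2], ?_⟩
    rwa [DFA.evalFrom_of_append]

theorem tp_append (u v : List A) : tp M (u ++ v) = pre M u (tp M v) := pre_append M u v _

variable (e : Set σ × Option A → ℕ)

/-- The sequence of the codes of (type of the suffix, first letter). -/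
def E : List A → List ℕ
  | [] => [e (tp M [], none)]
  | a :: y => e (tp M (a :: y), some a) :: E y

/-- The initial segment of the code sequence, as a function of the type of the rest. -/
def Epre : List A → Set σ → List ℕ
  | [], _ => []
  | a :: u, t => e (pre M (a :: u) t, some a) :: Epre u t

theorem E_append (u v : List A) : E M e (u ++ v) = Epre M e u (tp M v) ++ E M e v := by
  induction u with
  | nil => rfl
  | cons a u ih =>
    have h : tp M (a :: (u ++ v)) = pre M (a :: u) (tp M v) := tp_append M (a :: u) v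
    simp only [List.cons_append, E, Epre]
    rw [ih, h]

theorem length_Epre (u : List A) (t : Set σ) : (Epre M e u t).length = u.length := by
  induction u with
  | nil => rfl
  | cons a u ih => simp [Epre, ih]

theorem E_head (y : List A) : ∃ l, E M e y = e (tp M y, y.head?) :: l := by
  cases y with
  | nil => exact ⟨[], rfl⟩
  | cons a y => exact ⟨E M e y, rfl⟩

theorem E_injective (he : Function.Injective e) : Function.Injective (E M e) := by
  intro y
  induction y with
  | nil =>
    intro y' h
    cases y' with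
    | nil => rfl
    | cons b y' =>
      simp only [E, List.cons.injEq] at h
      have := he h.1
      simp at this
  | cons a y ih =>
    intro y' h
    cases y' with
    | nil =>
      simp only [E, List.cons.injEq] at h
      have := he h.1
      simp at this
    | cons b y' =>
      simp only [E, List.cons.injEq] at h
      have h1 := he h.1
      simp only [Prod.mk.injEq, Option.some.injEq] at h1
      rw [h1.2, ih h.2]

theorem append_lt_append_iff' (p q x y : List ℕ) (h : p.length = q.length) :
    p ++ x < q ++ y ↔ p < q ∨ (p = q ∧ x < y) := by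
  induction p generalizing q with
  | nil =>
    cases q with
    | nil => simp
    | cons b q => simp at h
  | cons a p ih =>
    cases q with
    | nil => simp at h
    | cons b q =>
      simp only [List.length_cons, Nat.add_right_cancel_iff] at h
      simp only [List.cons_append, List.cons_lt_cons_iff, ih q h, List.cons.injEq]
      tauto

theorem E_lt_iff (p v w : List A) : E M e (p ++ v) < E M e (p ++ w) ↔
    Epre M e p (tp M v) < Epre M e p (tp M w) ∨
      (Epre M e p (tp M v) = Epre M e p (tp M w) ∧ E M e v < E M e w) := by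
  rw [E_append, E_append, append_lt_append_iff' _ _ _ _ (by rw [length_Epre, length_Epre])]

theorem exists_lcp (u v : List A) : ∃ p r r' : List A, u = p ++ r ∧ v = p ++ r' ∧
    (r = [] ∨ r' = [] ∨ r.head? ≠ r'.head?) := by
  induction u generalizing v with
  | nil => exact ⟨[], [], v, rfl, rfl, Or.inl rfl⟩
  | cons a u ih =>
    cases v with
    | nil => exact ⟨[], a :: u, [], rfl, rfl, Or.inr (Or.inl rfl)⟩
    | cons b v =>
      by_cases hab : a = b
      · subst hab
        obtain ⟨p, r, r', h1, h2, h3⟩ := ih v
        exact ⟨a :: p, r, r', by simp [h1], by simp [h2], h3⟩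
      · exact ⟨[], a :: u, b :: v, rfl, rfl, Or.inr (Or.inr (by simpa using hab))⟩

section main

variable {M} [Fintype σ] {R : List A → List A → Prop}
  (hR : ∀ u v, R u v ↔ ∃ x ∈ M.accepts, lefts x = u ∧ rights x = v)
  (hsym : ∀ u v, R u v → R v u)
  (htrans : ∀ u v w, R u v → R v w → R u w)
  (hfin : ∀ u, {v | R u v}.Finite)

include hR hsym hfin

theorem short_right : ∀ x ∈ M.accepts, ∀ x1 x2 x3, x = x1 ++ x2 ++ x3 → lefts x2 = [] →
    x2.length < Fintype.card σ := by
  rintro x hx x1 x2 x3 rfl h2
  by_contra hlt
  push Not at hlt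
  obtain ⟨q, a, b, c, rfl, -, hb, ha, hq, hc⟩ :=
    M.evalFrom_split (s := M.eval x1) hlt rfl
  simp only [lefts_append, List.append_eq_nil_iff] at h2
  obtain ⟨⟨ha2, hb2⟩, hc2⟩ := h2
  obtain ⟨N, hN⟩ := ((hfin (lefts (x1 ++ (a ++ b ++ c) ++ x3))).image List.length).bddAbove
  have hkey : R (lefts (x1 ++ (a ++ b ++ c) ++ x3))
      (rights (x1 ++ (a ++ (List.replicate (N + 1) b).flatten ++ c) ++ x3)) := by
    rw [hR]
    refine ⟨_, ?_, ?_, rfl⟩
    · rw [DFA.mem_accepts] at hx ⊢
      simp only [eval_append, DFA.evalFrom_of_append] at hx ⊢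
      rw [ha, pump M q b hq]
      rwa [ha, hq] at hx
    · have : lefts (List.replicate (N + 1) b).flatten = [] := by
        induction (N + 1) with
        | zero => simp
        | succ i ih => rw [List.replicate_succ, List.flatten_cons, lefts_append, ih, hb2]; rfl
      simp [this, hb2]
  have hle := hN ⟨_, hkey, rfl⟩
  have hlen : N + 1 ≤ (rights (List.replicate (N + 1) b).flatten).length := by
    have hb3 : 1 ≤ (rights b).length := by
      have := length_eq b
      rw [hb2, List.length_nil, zero_add] at this
      rw [← this]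
      exact List.length_pos_iff.2 hb
    induction (N + 1) with
    | zero => simp
    | succ i ih =>
      rw [List.replicate_succ, List.flatten_cons, rights_append, List.length_append]
      omega
  simp only [rights_append, List.length_append] at hle
  omega

theorem short_left : ∀ x ∈ M.accepts, ∀ x1 x2 x3, x = x1 ++ x2 ++ x3 → rights x2 = [] →
    x2.length < Fintype.card σ := by
  rintro x hx x1 x2 x3 rfl h2
  by_contra hlt
  push Not at hlt
  obtain ⟨q, a, b, c, rfl, -, hb, ha, hq, hc⟩ :=
    M.evalFrom_split (s := M.eval x1) hlt rfl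
  simp only [rights_append, List.append_eq_nil_iff] at h2
  obtain ⟨⟨ha2, hb2⟩, hc2⟩ := h2
  obtain ⟨N, hN⟩ := ((hfin (rights (x1 ++ (a ++ b ++ c) ++ x3))).image List.length).bddAbove
  have hkey : R (rights (x1 ++ (a ++ b ++ c) ++ x3))
      (lefts (x1 ++ (a ++ (List.replicate (N + 1) b).flatten ++ c) ++ x3)) := by
    apply hsym
    rw [hR]
    refine ⟨_, ?_, rfl, ?_⟩
    · rw [DFA.mem_accepts] at hx ⊢
      simp only [eval_append, DFA.evalFrom_of_append] at hx ⊢
      rw [ha, pump M q b hq]
      rwa [ha, hq] at hx
    · have : rights (List.replicate (N + 1) b).flatten = [] := by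
        induction (N + 1) with
        | zero => simp
        | succ i ih => rw [List.replicate_succ, List.flatten_cons, rights_append, ih, hb2]; rfl
      simp [this, hb2]
  have hle := hN ⟨_, hkey, rfl⟩
  have hlen : N + 1 ≤ (lefts (List.replicate (N + 1) b).flatten).length := by
    have hb3 : 1 ≤ (lefts b).length := by
      have := length_eq b
      rw [hb2, List.length_nil, add_zero] at this
      rw [← this]
      exact List.length_pos_iff.2 hb
    induction (N + 1) with
    | zero => simp
    | succ i ih =>
      rw [List.replicate_succ, List.flatten_cons, lefts_append, List.length_append]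
      omega
  simp only [lefts_append, List.length_append] at hle
  omega

include htrans

/-- The rerouting lemma. -/
theorem reroute (p y w : List A) (h : R (p ++ y) (p ++ w)) (hty : tp M y = tp M w) :
    w.length ≤ Fintype.card σ * (Fintype.card σ * (y.length + 1) + 1) := by
  obtain ⟨m, hm, hmax⟩ := Set.exists_max_image {v | R (p ++ y) v} List.length (hfin _) ⟨_, h⟩
  obtain ⟨x, hx, h1, h2⟩ := (hR _ _).1 hm
  obtain ⟨x3, x4, rfl, h3, h4⟩ := lefts_split h1
  have hs0 : M.eval x3 ∈ tp M y := by
    refine ⟨x4, h4, ?_⟩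
    rw [DFA.mem_accepts, eval_append] at hx
    exact hx
  rw [hty] at hs0
  obtain ⟨x5, h5, h6⟩ := hs0
  have hx5 : x3 ++ x5 ∈ M.accepts := by
    rw [DFA.mem_accepts, eval_append]
    exact h6
  have hR5 : R (p ++ w) (rights (x3 ++ x5)) := by
    rw [hR]
    exact ⟨x3 ++ x5, hx5, by simp [h3, h5], rfl⟩
  have hle := hmax _ (htrans _ _ _ h hR5)
  rw [← h2, rights_append, rights_append, List.length_append, List.length_append] at hle
  have hle' : (rights x5).length ≤ (rights x4).length := by omega
  have b4 : (rights x4).length ≤ Fintype.card σ * ((lefts x4).length + 1) := by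
    apply rights_le
    intro y1 y2 y3 hy hy2
    exact short_right hR hsym hfin _ hx (x3 ++ y1) y2 y3 (by simp [hy]) hy2
  have b5 : (lefts x5).length ≤ Fintype.card σ * ((rights x5).length + 1) := by
    apply lefts_le
    intro y1 y2 y3 hy hy2
    exact short_left hR hsym hfin _ hx5 (x3 ++ y1) y2 y3 (by simp [hy]) hy2
  rw [h4] at b4
  rw [h5] at b5
  exact b5.trans (Nat.mul_le_mul_left _ (Nat.succ_le_succ (hle'.trans b4)))

/-- The key lemma. -/
theorem key : ∃ Kc : ℕ, ∀ x1 x2, x1 ++ x2 ∈ M.accepts → ∀ z,
    (rights x1 = lefts x1 ++ z → tp M (lefts x2) = tp M (z ++ rights x2) → z.length ≤ Kc) ∧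
    (lefts x1 = rights x1 ++ z → tp M (z ++ lefts x2) = tp M (rights x2) → z.length ≤ Kc) := by
  obtain ⟨B, hB⟩ := exists_bound (ι := σ × Set σ × Set σ) (α := A ⊕ A)
    (fun i r => M.evalFrom i.1 r ∈ M.accept ∧ tp M (lefts r) = i.2.1 ∧ tp M (rights r) = i.2.2)
  refine ⟨Fintype.card σ * (Fintype.card σ * (B + 1) + 1), ?_⟩
  intro x1 x2 hx z
  have hx' : M.evalFrom (M.eval x1) x2 ∈ M.accept := by
    rw [DFA.mem_accepts, eval_append] at hx
    exact hx
  obtain ⟨r, ⟨hr1, hr2, hr3⟩, hrB⟩ := hB (M.eval x1, tp M (lefts x2), tp M (rights x2))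
    ⟨x2, hx', rfl, rfl⟩
  dsimp only at hr1 hr2 hr3
  have hxr : x1 ++ r ∈ M.accepts := by
    rw [DFA.mem_accepts, eval_append]
    exact hr1
  have hRr : R (lefts (x1 ++ r)) (rights (x1 ++ r)) := (hR _ _).2 ⟨_, hxr, rfl, rfl⟩
  have hlr := length_eq r
  constructor
  · intro hz ht
    rw [lefts_append, rights_append, hz, List.append_assoc] at hRr
    have h := reroute hR hsym htrans hfin (lefts x1) (lefts r) (z ++ rights r) hRr (by
      rw [hr2, ht, tp_append, tp_append, hr3])
    rw [List.length_append] at h
    refine le_trans (Nat.le_add_right _ _) (h.trans ?_)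
    gcongr
    omega
  · intro hz ht
    have hRr' := hsym _ _ hRr
    rw [lefts_append, rights_append, hz, List.append_assoc] at hRr'
    have h := reroute hR hsym htrans hfin (rights x1) (rights r) (z ++ lefts r) hRr' (by
      rw [hr3, ← ht, tp_append, tp_append, hr2])
    rw [List.length_append] at h
    refine le_trans (Nat.le_add_right _ _) (h.trans ?_)
    gcongr
    omega

/-- The set of accepted words whose second tape is smaller than the first one is regular. -/
theorem regular_bad [Finite A] (he : Function.Injective e) :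
    Language.IsRegular ({x | x ∈ M.accepts ∧ E M e (rights x) < E M e (lefts x)} :
      Language (A ⊕ A)) := by
  obtain ⟨Kc, hKc⟩ := key hR hsym htrans hfin
  choose p r r' h1 h2 h3 using fun x : List (A ⊕ A) => exists_lcp (lefts x) (rights x)
  have hfinl : Finite {l : List A // l.length ≤ Kc} := List.finite_length_le A Kc
  refine regular_of_sig
    (β := σ × (Set σ → Set σ → Prop × Prop) × (Set σ → Set σ) × (Set σ → Set σ) ×
      Option A × Option A × ({l : List A // l.length ≤ Kc} → {l : List A // l.length ≤ Kc} → Prop))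
    _ (fun x => (M.eval x,
      (fun t' t => (Epre M e (p x) t' < Epre M e (p x) t, Epre M e (p x) t' = Epre M e (p x) t)),
      pre M (r x), pre M (r' x), (r x).head?, (r' x).head?,
      (fun l l' => l.1 = r x ∧ l'.1 = r' x))) ?_
  intro x y hxy z hz
  simp only [Prod.mk.injEq] at hxy
  obtain ⟨e1, e2, e3, e4, e5, e6, e7⟩ := hxy
  obtain ⟨hxz, hlt⟩ := hz
  have hyz : y ++ z ∈ M.accepts := by
    rw [DFA.mem_accepts, eval_append] at hxz ⊢
    rwa [← e1]
  refine ⟨hyz, ?_⟩
  rw [rights_append, lefts_append, h1 x, h2 x, List.append_assoc, List.append_assoc,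
    E_lt_iff, tp_append, tp_append] at hlt
  rw [rights_append, lefts_append, h1 y, h2 y, List.append_assoc, List.append_assoc,
    E_lt_iff, tp_append, tp_append, ← e3, ← e4]
  have e2' := congrFun (congrFun e2 (pre M (r' x) (tp M (rights z)))) (pre M (r x) (tp M (lefts z)))
  simp only [Prod.mk.injEq] at e2'
  obtain ⟨e21, e22⟩ := e2'
  rcases hlt with hlt | ⟨heq, hlt⟩
  · left
    rwa [← e21]
  · right
    refine ⟨by rwa [← e22], ?_⟩
    have hhead : ∀ s t : List A, ∀ v : List A, s.head? = t.head? →
        (s ++ v).head? = (t ++ v).head? := by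
      intro s t v hst
      rw [List.head?_append, List.head?_append, hst]
    have ht1 : tp M (r' y ++ rights z) = tp M (r' x ++ rights z) := by
      rw [tp_append, tp_append, e4]
    have ht2 : tp M (r y ++ lefts z) = tp M (r x ++ lefts z) := by
      rw [tp_append, tp_append, e3]
    by_cases hh : tp M (r' x ++ rights z) = tp M (r x ++ lefts z) ∧
        (r' x ++ rights z).head? = (r x ++ lefts z).head?
    · obtain ⟨hh1, hh2⟩ := hh
      have hshort : (r x).length ≤ Kc ∧ (r' x).length ≤ Kc := by
        rcases h3 x with hr | hr | hr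
        · refine ⟨by simp [hr], ?_⟩
          refine (hKc x z hxz (r' x)).1 ?_ ?_
          · rw [h1 x, h2 x, hr, List.append_nil]
          · rw [hh1, hr, List.nil_append]
        · refine ⟨?_, by simp [hr]⟩
          refine (hKc x z hxz (r x)).2 ?_ ?_
          · rw [h1 x, h2 x, hr, List.append_nil]
          · rw [← hh1, hr, List.nil_append]
        · by_cases hrx : r x = []
          · refine ⟨by simp [hrx], ?_⟩
            refine (hKc x z hxz (r' x)).1 ?_ ?_
            · rw [h1 x, h2 x, hrx, List.append_nil]
            · rw [hh1, hrx, List.nil_append]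
          · by_cases hrx' : r' x = []
            · refine ⟨?_, by simp [hrx']⟩
              refine (hKc x z hxz (r x)).2 ?_ ?_
              · rw [h1 x, h2 x, hrx', List.append_nil]
              · rw [← hh1, hrx', List.nil_append]
            · exfalso
              apply hr
              rw [List.head?_append_of_ne_nil _ hrx, List.head?_append_of_ne_nil _ hrx'] at hh2
              exact hh2.symm
      have e7' := congrFun (congrFun e7 ⟨r x, hshort.1⟩) ⟨r' x, hshort.2⟩
      have e8 : r x = r y ∧ r' x = r' y := by
        have : (r x = r x ∧ r' x = r' x) = (r x = r y ∧ r' x = r' y) := e7'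
        rw [← this]
        exact ⟨rfl, rfl⟩
      rw [← e8.1, ← e8.2]
      exact hlt
    · obtain ⟨l1, hl1⟩ := E_head M e (r' x ++ rights z)
      obtain ⟨l2, hl2⟩ := E_head M e (r x ++ lefts z)
      obtain ⟨l3, hl3⟩ := E_head M e (r' y ++ rights z)
      obtain ⟨l4, hl4⟩ := E_head M e (r y ++ lefts z)
      rw [hl1, hl2, List.cons_lt_cons_iff] at hlt
      rw [hl3, hl4, List.cons_lt_cons_iff, ht1, ht2, ← hhead _ _ (rights z) e6,
        ← hhead _ _ (lefts z) e5]
      left
      rcases hlt with hlt | ⟨heq', -⟩
      · exact hlt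
      · exfalso
        apply hh
        have := he heq'
        simpa only [Prod.mk.injEq] using this

/-- A rational equivalence relation with finite classes has a regular cross-section. -/
theorem finite_case [Finite A] : ∃ L : Language A, L.IsRegular ∧ (∀ w ∈ L, ∃ v, R w v) ∧
    ∀ u, (∃ v, R u v) → ∃! w, w ∈ L ∧ R u w := by
  obtain ⟨N, ⟨f⟩⟩ := Finite.exists_equiv_fin (Set σ × Option A)
  let e : Set σ × Option A → ℕ := fun x => (f x : ℕ)
  have he : Function.Injective e := fun x y h => f.injective (Fin.ext h)
  have hreg := regular_bad e hR hsym htrans hfin he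
  have hdom : Language.IsRegular ({w | ∃ x ∈ M.accepts, lefts x = w} : Language A) :=
    regular_lefts ⟨σ, inferInstance, M, rfl⟩
  have hbad := regular_lefts hreg
  refine ⟨_, hdom.inf hbad.compl, ?_, ?_⟩
  · rintro w ⟨⟨x, hx, hxw⟩, -⟩
    exact ⟨rights x, (hR _ _).2 ⟨x, hx, hxw, rfl⟩⟩
  · rintro u ⟨v, huv⟩
    have hmem : ∀ w, w ∈ (({w | ∃ x ∈ M.accepts, lefts x = w} : Language A) ⊓
        ({w | ∃ x ∈ ({x | x ∈ M.accepts ∧ E M e (rights x) < E M e (lefts x)} :
          Language (A ⊕ A)), lefts x = w} : Language A)ᶜ) ↔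
        (∃ v, R w v) ∧ ∀ v, R w v → E M e w ≤ E M e v := by
      intro w
      constructor
      · rintro ⟨⟨x, hx, hxw⟩, hn⟩
        refine ⟨⟨rights x, (hR _ _).2 ⟨x, hx, hxw, rfl⟩⟩, ?_⟩
        intro v hv
        by_contra hlt
        push Not at hlt
        obtain ⟨y, hy, hy1, hy2⟩ := (hR _ _).1 hv
        exact hn ⟨y, ⟨hy, by rwa [hy1, hy2]⟩, hy1⟩
      · rintro ⟨⟨v, hv⟩, hmin⟩
        obtain ⟨y, hy, hy1, hy2⟩ := (hR _ _).1 hv
        refine ⟨⟨y, hy, hy1⟩, ?_⟩
        rintro ⟨x, ⟨hx, hlt⟩, hxw⟩
        have := hmin (rights x) ((hR _ _).2 ⟨x, hx, hxw, rfl⟩)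
        rw [hxw] at hlt
        exact absurd hlt (not_lt.2 this)
    obtain ⟨w0, hw0, hmin⟩ := Set.exists_min_image {v | R u v} (E M e) (hfin _) ⟨_, huv⟩
    refine ⟨w0, ⟨(hmem w0).2 ⟨⟨u, hsym _ _ hw0⟩, ?_⟩, hw0⟩, ?_⟩
    · intro v hv
      exact hmin v (htrans _ _ _ hw0 hv)
    · rintro w ⟨hwL, huw⟩
      have h1 := ((hmem w).1 hwL).2 w0 (htrans _ _ _ (hsym _ _ huw) hw0)
      have h2 := hmin w huw
      exact E_injective M e he (le_antisymm h1 h2)

end main

end Pool.Agent.Helper37.RX
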