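import Pool.Agent.Helper37.RX.H

/-!
# Closed sets: the code for at most two letters which are not neutral; the theorem
-/

set_option autoImplicit false

namespace Pool.Agent.Helper37.RX

open Pool.Agent.Helper31.BD
open Pool.Agent.Helper37.RV (Complete RunLang Ez)
open Pool.Agent.Helper37.RW (ColLang Neutral Bd add_mem exists_code fac_eq lift_code)

theorem exists_k2 (S : Set ℕ) (hS : Closed S) : ∃ k B : ℕ,
    (∀ j ∈ insert 0 S, k + j ∈ insert 0 S) ∧ ∀ B', B ≤ B' → Bd (insert 0 S) k B' := by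
  rcases hS with h | ⟨k, hk, hk0, hcl⟩
  · obtain ⟨B, hB⟩ := h.bddAbove
    refine ⟨0, B + 1, fun j hj => by simpa using hj,
      fun B' hB' => Or.inr ⟨rfl, by omega, ?_⟩⟩
    intro j hj
    rcases hj with hj | hj
    · rw [hj]
      omega
    · have := hB hj
      omega
  · have h1 : ∀ j ∈ insert 0 S, k + j ∈ insert 0 S := by
      rintro j (hj | hj)
      · rw [hj]
        exact Or.inr hk
      · rw [Nat.add_comm]
        exact Or.inr (hcl j hj)
    have hD : {m | k + m ∈ insert 0 S ∧ m ∉ insert 0 S}.Finite := by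
      refine Set.Finite.of_injOn (f := fun m => m % k) (t := {m | m < k}) ?_ ?_
        (Set.finite_lt_nat k)
      · intro m _
        exact Nat.mod_lt m hk0
      · have key : ∀ m ∈ {m | k + m ∈ insert 0 S ∧ m ∉ insert 0 S},
            ∀ m' ∈ {m | k + m ∈ insert 0 S ∧ m ∉ insert 0 S}, m % k = m' % k → m < m' →
              False := by
          intro m hm m' hm' he hlt
          obtain ⟨i, hi⟩ := (Nat.modEq_iff_dvd' hlt.le).1 he
          rcases i with _ | i
          · omega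
          · apply hm'.2
            have h2 : m' = k * i + (k + m) := by
              have h3 : m' = m + k * (i + 1) := by omega
              rw [h3]
              ring
            rw [h2]
            exact add_mem _ k h1 (k * i) (k + m) (dvd_mul_right k i) hm.1
        intro m hm m' hm' he
        rcases Nat.lt_trichotomy m m' with h | h | h
        · exact (key m hm m' hm' he h).elim
        · exact h
        · exact (key m' hm' m hm he.symm h).elim
    obtain ⟨B0, hB0⟩ := hD.bddAbove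
    refine ⟨k, k + B0 + 1, h1, fun B' hB' => Or.inl ⟨hk0, by omega, ?_⟩⟩
    intro m hm hE
    by_contra hmE
    have := hB0 (show m ∈ {m | k + m ∈ insert 0 S ∧ m ∉ insert 0 S} from ⟨hE, hmE⟩)
    omega

theorem sufficient2 (n : ℕ) (hn : 2 ≤ n) (S : ℕ → Set ℕ)
    (hS : ∀ a < n, Closed (S a)) (hne : ∀ a < n, ∃ j ∈ S a, 0 < j)
    (h : {a | a < n ∧ ¬ Neutral (S a)}.ncard ≤ 2) :
    ∃ C : Finset (List ℕ), UD C ∧ RunLang n S = Fac C := by
  classical
  obtain ⟨p, q, hpq, hpn, hqn, hs⟩ : ∃ p q : ℕ, p ≠ q ∧ p < n ∧ q < n ∧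
      {a | a < n ∧ ¬ Neutral (S a)} ⊆ {p, q} := by
    have hfin : {a | a < n ∧ ¬ Neutral (S a)}.Finite :=
      (Set.finite_lt_nat n).subset (fun a ha => ha.1)
    have hlt : ∀ a ∈ {a | a < n ∧ ¬ Neutral (S a)}, a < n := fun a ha => ha.1
    generalize {a | a < n ∧ ¬ Neutral (S a)} = s at h hfin hlt
    have h3 : s.ncard = 0 ∨ s.ncard = 1 ∨ s.ncard = 2 := by omega
    rcases h3 with h3 | h3 | h3
    · rw [Set.ncard_eq_zero hfin] at h3
      exact ⟨0, 1, by omega, by omega, by omega, by rw [h3]; exact Set.empty_subset _⟩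
    · obtain ⟨a, ha⟩ := Set.ncard_eq_one.1 h3
      have han : a < n := hlt a (by rw [ha]; exact Set.mem_singleton a)
      by_cases ha0 : a = 0
      · refine ⟨a, 1, by omega, han, by omega, ?_⟩
        rw [ha]
        intro x hx
        exact Or.inl hx
      · refine ⟨a, 0, ha0, han, by omega, ?_⟩
        rw [ha]
        intro x hx
        exact Or.inl hx
    · obtain ⟨a, b, e, hab⟩ := Set.ncard_eq_two.1 h3
      exact ⟨a, b, e, hlt a (by rw [hab]; exact Or.inl rfl),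
        hlt b (by rw [hab]; exact Or.inr rfl), by rw [hab]⟩
  obtain ⟨sp, hsp, hsp0⟩ := hne p hpn
  obtain ⟨sq, hsq, hsq0⟩ := hne q hqn
  obtain ⟨kp, Bp, hkp, hBp⟩ := exists_k2 (S p) (hS p hpn)
  obtain ⟨kq, Bq, hkq, hBq⟩ := exists_k2 (S q) (hS q hqn)
  have hneu : ∀ a < n, a ≠ p → a ≠ q → Neutral (S a) := by
    intro a ha hap haq
    by_contra hN
    rcases hs (show a ∈ {a | a < n ∧ ¬ Neutral (S a)} from ⟨ha, hN⟩) with h3 | h3
    · exact hap h3
    · exact haq h3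
  let kk : ℕ → ℕ := fun a => if hN : Neutral (S a) then hN.choose else 1
  have hkk : ∀ a, Neutral (S a) → 0 < kk a ∧ ∀ j, 0 < j → (j ∈ S a ↔ kk a ∣ j) := by
    intro a hN
    have h1 := hN.choose_spec
    have h2 : kk a = hN.choose := dif_pos hN
    rw [h2]
    exact h1
  let K := (Finset.range n).sup kk
  have hK : ∀ a < n, a ≠ p → a ≠ q → 0 < kk a ∧ kk a ≤ K := by
    intro a ha hap haq
    exact ⟨(hkk a (hneu a ha hap haq)).1, Finset.le_sup (f := kk) (Finset.mem_range.2 ha)⟩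
  obtain ⟨C, hC, hF⟩ := exists_code (n := n) (Ep := insert 0 (S p)) (Eq := insert 0 (S q))
    (kp := kp) (kq := kq) (kk := kk) hpq (Or.inl rfl) (Or.inl rfl) hkp hkq (Bp + Bq) K
    (hBp _ (by omega)) (hBq _ (by omega)) hK
  refine ⟨C, hC, ?_⟩
  ext w
  rw [hF w]
  exact (fac_eq n S p q kp kq sp sq kk hpq hpn hqn hkp hkq hsp hsp0 hsq hsq0
    (fun a ha hap haq => (hkk a (hneu a ha hap haq)).2) w).symm

/-- necessity of closedness -/
theorem closed_of {n : ℕ} {S : ℕ → Set ℕ} {C : Finset (List ℕ)} (hC : UD C)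
    (hL : RunLang n S = Fac C) (hn : 3 ≤ n) (hne : ∀ a < n, ∃ j ∈ S a, 0 < j) (c : ℕ)
    (hc : c < n) : Closed (S c) := by
  by_cases h : (S c).Finite
  · exact Or.inl h
  · right
    obtain ⟨k, hk0, hk⟩ := power hC hL c hc h
    have hkS := power_mem hC hL hn hne c k hk0 hk
    refine ⟨k, hkS, hk0, fun j hj => ?_⟩
    rcases Nat.eq_zero_or_pos j with h0 | h0
    · rw [h0, Nat.zero_add]
      exact hkS
    · exact closure hL (by omega) hne c k hc hk0 hk j hj h0

/-- making the series of one letter have a zero -/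
theorem fix_one {n : ℕ} {S : ℕ → Set ℕ} {C : Finset (List ℕ)} (hC : UD C)
    (hL : RunLang n S = Fac C) (hn : 3 ≤ n) (hne : ∀ a < n, ∃ j ∈ S a, 0 < j) (c : ℕ)
    (hc : c < n) (h : HZ (Ez S c) ∨ ∃ B, (∃ j ∈ S c, 0 < j ∧ j ≤ B) ∧
      ∀ j ∈ S c, B < j → 2 * B < j) :
    ∃ (S' : ℕ → Set ℕ) (C' : Finset (List ℕ)), UD C' ∧ RunLang n S' = Fac C' ∧
      (∀ a < n, ∃ j ∈ S' a, 0 < j) ∧ HZ (Ez S' c) ∧ ∀ a, a ≠ c → S' a = S a := by
  classical
  rcases h with h | ⟨B, h1, h2⟩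
  · exact ⟨S, C, hC, hL, hne, h, fun _ _ => rfl⟩
  · obtain ⟨C', h3, h4⟩ := shrink hC hL hn hne c hc B h1 h2
    refine ⟨_, C', h3, h4, ?_, ?_, fun a ha => Function.update_of_ne ha ..⟩
    · intro a ha
      by_cases hac : a = c
      · subst hac
        rw [Function.update_self]
        obtain ⟨j, k1, k2, k3⟩ := h1
        exact ⟨j, ⟨k1, k3⟩, k2⟩
      · rw [Function.update_of_ne hac]
        exact hne a ha
    · unfold Ez
      rw [Function.update_self]
      obtain ⟨j, k1, k2, k3⟩ := h1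
      refine hz_fin ?_ ⟨j, Or.inr ⟨k1, k3⟩, k2⟩
      refine Set.Finite.insert 0 ((Set.finite_le_nat B).subset fun j hj => hj.2)

/-- **Theorem.** -/
theorem main (N : ℕ) (π : ℕ → ℕ) (n : ℕ) (S : ℕ → Set ℕ) (hn : 3 ≤ n)
    (hsur : ∀ c < n, ∃ l < N, π l = c) (hne : ∀ c < n, ∃ j ∈ S c, 0 < j)
    (hE : ∀ c < n, ¬ Exceptional (S c)) :
    (∃ C : Finset (List ℕ), UD C ∧ ColLang N π n S = Fac C) ↔
      (∀ c < n, Closed (S c)) ∧ {c | c < n ∧ ¬ Neutral (S c)}.ncard ≤ 2 := by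
  classical
  constructor
  · rintro ⟨C, hC, hL⟩
    obtain ⟨C0, hC0, hL0⟩ := plain N π hsur (by omega) hne hC hL
    have hcl : ∀ c < n, Closed (S c) := fun c hc => closed_of hC0 hL0 hn hne c hc
    refine ⟨hcl, ?_⟩
    by_contra hcard
    push Not at hcard
    have hfin : {c | c < n ∧ ¬ Neutral (S c)}.Finite :=
      (Set.finite_lt_nat n).subset (fun a ha => ha.1)
    rw [Set.ncard_eq_toFinset_card _ hfin] at hcard
    obtain ⟨a, b, c, ha, hb, hc, hab, hac, hbc⟩ := Finset.two_lt_card_iff.1 hcard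
    have ha' := hfin.mem_toFinset.1 ha
    have hb' := hfin.mem_toFinset.1 hb
    have hc' := hfin.mem_toFinset.1 hc
    have ka := kinds (hcl a ha'.1) (hne a ha'.1) ha'.2 (hE a ha'.1)
    have kb := kinds (hcl b hb'.1) (hne b hb'.1) hb'.2 (hE b hb'.1)
    have kc := kinds (hcl c hc'.1) (hne c hc'.1) hc'.2 (hE c hc'.1)
    obtain ⟨S1, C1, hC1, hL1, hne1, hz1, he1⟩ := fix_one hC0 hL0 hn hne a ha'.1 ka
    have kb1 : HZ (Ez S1 b) ∨ ∃ B, (∃ j ∈ S1 b, 0 < j ∧ j ≤ B) ∧ ∀ j ∈ S1 b, B < j → 2 * B < j := by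
      unfold Ez
      rw [he1 b hab.symm]
      exact kb
    obtain ⟨S2, C2, hC2, hL2, hne2, hz2, he2⟩ := fix_one hC1 hL1 hn hne1 b hb'.1 kb1
    have kc2 : HZ (Ez S2 c) ∨ ∃ B, (∃ j ∈ S2 c, 0 < j ∧ j ≤ B) ∧ ∀ j ∈ S2 c, B < j → 2 * B < j := by
      unfold Ez
      rw [he2 c hbc.symm, he1 c hac.symm]
      exact kc
    obtain ⟨S3, C3, hC3, hL3, hne3, hz3, he3⟩ := fix_one hC2 hL2 hn hne2 c hc'.1 kc2
    have hza : HZ (Ez S3 a) := by
      unfold Ez at hz1 ⊢
      rw [he3 a hac, he2 a hab]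
      exact hz1
    have hzb : HZ (Ez S3 b) := by
      unfold Ez at hz2 ⊢
      rw [he3 b hbc]
      exact hz2
    exact no_code2 (by omega) a b c hab hac hbc ha'.1 hb'.1 hc'.1 hne3 hza hzb hz3 C3 hC3 hL3
  · rintro ⟨hcl, hcard⟩
    obtain ⟨C0, hC0, hL0⟩ := sufficient2 n (by omega) S hcl hne hcard
    exact lift_code N π n S hsur C0 hC0 hL0

end Pool.Agent.Helper37.RX
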