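import Pool.Agent.Helper37.RX.F
import Pool.Agent.Helper37.RX.Defs3

/-!
# Series with a zero
-/

set_option autoImplicit false

namespace Pool.Agent.Helper37.RX

open Pool.Agent.Helper37.RU (ind ind_true ind_false ind_congr)
open Pool.Agent.Helper37.RW (Neutral add_mem)

theorem rescale_coe (c : ℂ) (q : Polynomial ℂ) :
    PowerSeries.rescale c (q : PowerSeries ℂ) =
      ((q.comp (Polynomial.C c * Polynomial.X) : Polynomial ℂ) : PowerSeries ℂ) := by
  ext k
  rw [PowerSeries.coeff_rescale, Polynomial.coeff_coe, Polynomial.coeff_coe,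
    Polynomial.comp_C_mul_X_coeff, mul_comm]

theorem hz_of {E : Set ℕ} (q p : Polynomial ℂ)
    (h : (q : PowerSeries ℂ) * PowerSeries.mk (fun j => ind (j ∈ E)) = (p : PowerSeries ℂ))
    (c : ℂ) (hp : p.eval c = 0) (hq : q.eval c ≠ 0) : HZ E := by
  refine ⟨c, q.comp (Polynomial.C c * Polynomial.X), p.comp (Polynomial.C c * Polynomial.X),
    ?_, ?_, ?_⟩
  · have h1 : Am (fun j => ind (j ∈ E)) c 0 =
        PowerSeries.rescale c (PowerSeries.mk (fun j => ind (j ∈ E))) := by
      ext k
      unfold Am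
      rw [PowerSeries.coeff_rescale, PowerSeries.coeff_mk, PowerSeries.coeff_mk, Nat.zero_add,
        mul_comm]
    rw [h1, ← rescale_coe, ← rescale_coe, ← map_mul, h]
  · rw [Polynomial.eval_comp]
    simpa using hp
  · rw [Polynomial.eval_comp]
    simpa using hq

theorem hz_fin {E : Set ℕ} (hE : E.Finite) (h : ∃ j ∈ E, 0 < j) : HZ E := by
  classical
  obtain ⟨j0, hj0, hj00⟩ := h
  let p : Polynomial ℂ := ∑ j ∈ hE.toFinset, Polynomial.X ^ j
  have hco : ∀ k, p.coeff k = ind (k ∈ E) := by
    intro k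
    simp only [p]
    rw [Polynomial.finsetSum_coeff]
    by_cases hk : k ∈ E
    · rw [ind_true hk, Finset.sum_eq_single k]
      · simp
      · intro j _ hj
        rw [Polynomial.coeff_X_pow, if_neg (Ne.symm hj)]
      · intro h
        exact absurd (hE.mem_toFinset.2 hk) h
    · rw [ind_false hk]
      refine Finset.sum_eq_zero fun j hj => ?_
      rw [Polynomial.coeff_X_pow, if_neg]
      rintro rfl
      exact hk (hE.mem_toFinset.1 hj)
  have hdeg : p.degree ≠ 0 := by
    intro hd
    have h1 : p.coeff j0 = 0 := by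
      refine Polynomial.coeff_eq_zero_of_degree_lt ?_
      rw [hd]
      exact_mod_cast hj00
    rw [hco, ind_true hj0] at h1
    exact one_ne_zero h1
  obtain ⟨c, hc⟩ := IsAlgClosed.exists_root p hdeg
  refine hz_of 1 p ?_ c hc (by simp)
  rw [Polynomial.coe_one, one_mul]
  ext k
  rw [PowerSeries.coeff_mk, Polynomial.coeff_coe, hco]

theorem hz_or {E : Set ℕ} : ∀ (d : ℕ) (q p : Polynomial ℂ), q ≠ 0 → q.natDegree = d →
    (q : PowerSeries ℂ) * PowerSeries.mk (fun j => ind (j ∈ E)) = (p : PowerSeries ℂ) →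
    HZ E ∨ ∃ u : Polynomial ℂ,
      (u : PowerSeries ℂ) * PowerSeries.mk (fun j => ind (j ∈ E)) = 1 := by
  intro d
  induction d with
  | zero =>
    intro q p hq hd h
    by_cases hp : p.degree = 0
    · right
      have ha := Polynomial.eq_C_of_degree_eq_zero hp
      have ha0 : p.coeff 0 ≠ 0 := by
        intro h0
        rw [h0, map_zero] at ha
        rw [ha, Polynomial.degree_zero] at hp
        exact absurd hp (by decide)
      refine ⟨Polynomial.C (p.coeff 0)⁻¹ * q, ?_⟩
      rw [Polynomial.coe_mul, mul_assoc, h, ← Polynomial.coe_mul]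
      nth_rw 2 [ha]
      rw [← Polynomial.C_mul, inv_mul_cancel₀ ha0, map_one, Polynomial.coe_one]
    · left
      obtain ⟨c, hc⟩ := IsAlgClosed.exists_root p hp
      refine hz_of q p h c hc ?_
      rw [Polynomial.eq_C_of_natDegree_eq_zero hd, Polynomial.eval_C]
      intro h0
      apply hq
      rw [Polynomial.eq_C_of_natDegree_eq_zero hd, h0, map_zero]
  | succ d ih =>
    intro q p hq hd h
    by_cases hp : p.degree = 0
    · right
      have ha := Polynomial.eq_C_of_degree_eq_zero hp
      have ha0 : p.coeff 0 ≠ 0 := by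
        intro h0
        rw [h0, map_zero] at ha
        rw [ha, Polynomial.degree_zero] at hp
        exact absurd hp (by decide)
      refine ⟨Polynomial.C (p.coeff 0)⁻¹ * q, ?_⟩
      rw [Polynomial.coe_mul, mul_assoc, h, ← Polynomial.coe_mul]
      nth_rw 2 [ha]
      rw [← Polynomial.C_mul, inv_mul_cancel₀ ha0, map_one, Polynomial.coe_one]
    · obtain ⟨c, hc⟩ := IsAlgClosed.exists_root p hp
      by_cases hqc : q.eval c = 0
      · obtain ⟨q1, h1⟩ := Polynomial.dvd_iff_isRoot.2 hqc
        obtain ⟨p1, h2⟩ := Polynomial.dvd_iff_isRoot.2 hc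
        have hX : (Polynomial.X - Polynomial.C c : Polynomial ℂ) ≠ 0 := Polynomial.X_sub_C_ne_zero c
        have hq1 : q1 ≠ 0 := by
          rintro rfl
          rw [mul_zero] at h1
          exact hq h1
        refine ih q1 p1 hq1 ?_ ?_
        · rw [h1, Polynomial.natDegree_mul hX hq1, Polynomial.natDegree_X_sub_C] at hd
          omega
        · have hXc : ((Polynomial.X - Polynomial.C c : Polynomial ℂ) : PowerSeries ℂ) ≠ 0 := by
            intro h0
            apply hX
            apply Polynomial.coe_injective ℂ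
            rw [h0, Polynomial.coe_zero]
          apply mul_left_cancel₀ hXc
          rw [← mul_assoc, ← Polynomial.coe_mul, ← Polynomial.coe_mul, ← h1, ← h2]
          exact h
      · exact Or.inl (hz_of q p h c hc hqc)

/-- the series of a set closed under addition of `k` -/
theorem hz_or_closed {E : Set ℕ} (k : ℕ) (hk0 : 0 < k) (hk : ∀ j ∈ E, k + j ∈ E) :
    HZ E ∨ ∃ u : Polynomial ℂ,
      (u : PowerSeries ℂ) * PowerSeries.mk (fun j => ind (j ∈ E)) = 1 := by
  classical
  let D : Set ℕ := {m | m ∈ E ∧ ¬ (k ≤ m ∧ m - k ∈ E)}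
  have hD : D.Finite := by
    refine Set.Finite.of_injOn (f := fun m => m % k) (t := {m | m < k}) ?_ ?_ (Set.finite_lt_nat k)
    · intro m _
      exact Nat.mod_lt m hk0
    · have key : ∀ m ∈ D, ∀ m' ∈ D, m % k = m' % k → m < m' → False := by
        intro m hm m' hm' he hlt
        have h1 : k ∣ m' - m := (Nat.modEq_iff_dvd' hlt.le).1 he
        obtain ⟨i, hi⟩ := h1
        rcases i with _ | i
        · omega
        · apply hm'.2
          have h2 : m' = k * i + m + k := by
            have h3 : m' = m + k * (i + 1) := by omega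
            rw [h3]
            ring
          refine ⟨by omega, ?_⟩
          rw [h2, Nat.add_sub_cancel]
          exact add_mem E k hk (k * i) m (dvd_mul_right k i) hm.1
      intro m hm m' hm' he
      rcases Nat.lt_trichotomy m m' with h | h | h
      · exact (key m hm m' hm' he h).elim
      · exact h
      · exact (key m' hm' m hm he.symm h).elim
  let p : Polynomial ℂ := ∑ j ∈ hD.toFinset, Polynomial.X ^ j
  have hco : ∀ m, p.coeff m = ind (m ∈ D) := by
    intro m
    simp only [p]
    rw [Polynomial.finsetSum_coeff]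
    by_cases hm : m ∈ D
    · rw [ind_true hm, Finset.sum_eq_single m]
      · simp
      · intro j _ hj
        rw [Polynomial.coeff_X_pow, if_neg (Ne.symm hj)]
      · intro h
        exact absurd (hD.mem_toFinset.2 hm) h
    · rw [ind_false hm]
      refine Finset.sum_eq_zero fun j hj => ?_
      rw [Polynomial.coeff_X_pow, if_neg]
      rintro rfl
      exact hm (hD.mem_toFinset.1 hj)
  have hq : (1 - Polynomial.X ^ k : Polynomial ℂ) ≠ 0 := by
    intro h
    have h1 := congrArg (Polynomial.eval 0) h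
    simp [hk0.ne'] at h1
  refine hz_or _ (1 - Polynomial.X ^ k) p hq rfl ?_
  ext m
  rw [Polynomial.coe_sub, Polynomial.coe_one, Polynomial.coe_pow, Polynomial.coe_X, sub_mul,
    one_mul, map_sub, PowerSeries.coeff_X_pow_mul', PowerSeries.coeff_mk, Polynomial.coeff_coe, hco]
  by_cases hkm : k ≤ m
  · rw [if_pos hkm, PowerSeries.coeff_mk]
    by_cases h1 : m - k ∈ E
    · have h2 : m ∈ E := by
        have := hk _ h1
        rwa [Nat.add_sub_cancel' hkm] at this
      rw [ind_true h1, ind_true h2, ind_false (fun h : m ∈ D => h.2 ⟨hkm, h1⟩), sub_self]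
    · rw [ind_false h1, sub_zero]
      exact ind_congr ⟨fun h => ⟨h, fun h' => h1 h'.2⟩, fun h => h.1⟩
  · rw [if_neg hkm, sub_zero]
    exact ind_congr ⟨fun h => ⟨h, fun h' => hkm h'.1⟩, fun h => h.1⟩

theorem ser_eq (S : Set ℕ) : Ser S = PowerSeries.mk (fun j => ind (j ∈ insert 0 S)) := by
  classical
  unfold Ser
  ext j
  rw [PowerSeries.coeff_mk, PowerSeries.coeff_mk]
  by_cases h : j ∈ insert 0 S
  · rw [ind_true h, Set.indicator_of_mem h]
  · rw [ind_false h, Set.indicator_of_notMem h]

/-- the three kinds of sets -/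
theorem kinds {S : Set ℕ} (hS : Closed S) (hne : ∃ j ∈ S, 0 < j) (hN : ¬ Neutral S)
    (hE : ¬ Exceptional S) :
    HZ (insert 0 S) ∨ ∃ B, (∃ j ∈ S, 0 < j ∧ j ≤ B) ∧ ∀ j ∈ S, B < j → 2 * B < j := by
  rcases hS with h | ⟨k, hk, hk0, hcl⟩
  · left
    obtain ⟨j, hj, hj0⟩ := hne
    exact hz_fin (h.insert 0) ⟨j, Or.inr hj, hj0⟩
  · have h1 : ∀ j ∈ insert 0 S, k + j ∈ insert 0 S := by
      rintro j (hj | hj)
      · rw [hj]
        exact Or.inr hk
      · rw [Nat.add_comm]
        exact Or.inr (hcl j hj)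
    rcases hz_or_closed k hk0 h1 with h2 | h2
    · exact Or.inl h2
    · right
      by_contra hcon
      push Not at hcon
      apply hE
      refine ⟨by rw [ser_eq]; exact h2, hN, fun B hB => ?_⟩
      obtain ⟨j, h3, h4, h5⟩ := hcon B hB
      exact ⟨j, h3, h4, h5⟩

end Pool.Agent.Helper37.RX
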