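import Pool.Agent.Helper37.RX.N2

/-!
# The theorem for arbitrary sets of run lengths
-/

set_option autoImplicit false

namespace Pool.Agent.Helper37.RX

open Pool.Agent.Helper31.BD
open Pool.Agent.Helper37.RV (Complete RunLang Ez)
open Pool.Agent.Helper37.RW (ColLang Neutral lift_code)

/-- the exponent of a power of a letter in the code is a run length -/
theorem power_mem2 {n : ℕ} {S : ℕ → Set ℕ} {C : Finset (List ℕ)} (hL : RunLang n S = Fac C)
    (c k : ℕ) (hk : 0 < k) (h : List.replicate k c ∈ C) (d : List ℕ) (hd : d ∈ C) (hd0 : d ≠ [])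
    (hcd : c ∉ d) : k ∈ S c := by
  have h1 : d ++ (List.replicate k c ++ d) ∈ Fac C := by
    refine ⟨[], [], [d, List.replicate k c, d], ?_, by simp⟩
    intro x hx
    simp only [List.mem_cons, List.not_mem_nil, or_false] at hx
    rcases hx with h' | h' | h'
    · rw [h']; exact hd
    · rw [h']; exact h
    · rw [h']; exact hd
  obtain ⟨u, x, hux⟩ := last_of hd0
  obtain ⟨z, v, hzv⟩ : ∃ z v, d = z :: v := by
    cases d with
    | nil => exact absurd rfl hd0
    | cons z v => exact ⟨z, v, rfl⟩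
  have h2 : u ++ (x :: (List.replicate k c ++ (z :: v))) ∈ RunLang n S := by
    rw [hL, ← hzv]
    have h3 : u ++ (x :: (List.replicate k c ++ d)) = d ++ (List.replicate k c ++ d) := by
      nth_rw 2 [hux]
      simp
    rw [h3]
    exact h1
  refine ez_pos (run_mem h2 ?_ ?_) hk
  · intro hxc
    apply hcd
    rw [hux, ← hxc]
    simp
  · intro hzc
    apply hcd
    rw [hzv, ← hzc]
    simp

/-- two colours -/
theorem main_two (N : ℕ) (π : ℕ → ℕ) (S : ℕ → Set ℕ) (hsur : ∀ c < 2, ∃ l < N, π l = c)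
    (hne : ∀ c < 2, ∃ j ∈ S c, 0 < j) :
    (∃ C : Finset (List ℕ), UD C ∧ ColLang N π 2 S = Fac C) ↔
      (∀ c < 2, Closed (S c)) ∨ ∃ c < 2, ∃ d < 2, c ≠ d ∧ (S c).Finite ∧
        ∃ k, 0 < k ∧ ∀ j ∈ S d, 0 < j → j + k ∈ S d := by
  classical
  constructor
  · rintro ⟨C, hC, hL⟩
    obtain ⟨C0, hC0, hL0⟩ := plain N π hsur le_rfl hne hC hL
    have hpow : ∀ c < 2, ¬ (S c).Finite → ∃ k, 0 < k ∧ List.replicate k c ∈ C0 ∧
        ∀ j ∈ S c, 0 < j → j + k ∈ S c := by
      intro c hc hinf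
      obtain ⟨k, hk0, hk⟩ := power hC0 hL0 c hc hinf
      exact ⟨k, hk0, hk, fun j hj hj0 => closure hL0 le_rfl hne c k hc hk0 hk j hj hj0⟩
    by_cases h0 : (S 0).Finite
    · by_cases h1 : (S 1).Finite
      · left
        intro c hc
        have h2 : c = 0 ∨ c = 1 := by omega
        rcases h2 with rfl | rfl
        · exact Or.inl h0
        · exact Or.inl h1
      · right
        obtain ⟨k, hk0, _, hk⟩ := hpow 1 (by omega) h1
        exact ⟨0, by omega, 1, by omega, by omega, h0, k, hk0, hk⟩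
    · by_cases h1 : (S 1).Finite
      · right
        obtain ⟨k, hk0, _, hk⟩ := hpow 0 (by omega) h0
        exact ⟨1, by omega, 0, by omega, by omega, h1, k, hk0, hk⟩
      · left
        obtain ⟨k, hk0, hkC, hk⟩ := hpow 0 (by omega) h0
        obtain ⟨m, hm0, hmC, hm⟩ := hpow 1 (by omega) h1
        have hrep : ∀ (a b j : ℕ), 0 < j → a ≠ b → List.replicate j b ≠ [] ∧
            a ∉ List.replicate j b := by
          intro a b j hj hab
          refine ⟨fun h => ?_, fun h => hab (List.eq_of_mem_replicate h)⟩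
          have := congrArg List.length h
          simp at this
          omega
        have e0 := hrep 0 1 m hm0 (by omega)
        have e1 := hrep 1 0 k hk0 (by omega)
        have k0 := power_mem2 hL0 0 k hk0 hkC _ hmC e0.1 e0.2
        have m1 := power_mem2 hL0 1 m hm0 hmC _ hkC e1.1 e1.2
        intro c hc
        have h2 : c = 0 ∨ c = 1 := by omega
        rcases h2 with rfl | rfl
        · refine Or.inr ⟨k, k0, hk0, fun j hj => ?_⟩
          rcases Nat.eq_zero_or_pos j with h | h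
          · rw [h, Nat.zero_add]
            exact k0
          · exact hk j hj h
        · refine Or.inr ⟨m, m1, hm0, fun j hj => ?_⟩
          rcases Nat.eq_zero_or_pos j with h | h
          · rw [h, Nat.zero_add]
            exact m1
          · exact hm j hj h
  · intro h
    have hRun : ∃ C : Finset (List ℕ), UD C ∧ RunLang 2 S = Fac C := by
      rcases h with h | ⟨c, hc, d, hd, hcd, hfin, k, hk0, hk⟩
      · refine sufficient2 2 le_rfl S h hne ?_
        refine (Set.ncard_le_ncard (t := {0, 1}) ?_).trans (Set.ncard_pair (by omega)).le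
        rintro a ⟨ha, _⟩
        have h2 : a = 0 ∨ a = 1 := by omega
        rcases h2 with rfl | rfl
        · exact Or.inl rfl
        · exact Or.inr rfl
      · exact two_code S d c k (Ne.symm hcd) hd hc hk0 hk hfin (hne d hd) (hne c hc)
    obtain ⟨C0, hC0, hL0⟩ := hRun
    exact lift_code N π 2 S hsur C0 hC0 hL0

/-- at least three colours -/
theorem main_three (N : ℕ) (π : ℕ → ℕ) (n : ℕ) (S : ℕ → Set ℕ) (hn : 3 ≤ n)
    (hsur : ∀ c < n, ∃ l < N, π l = c) (hne : ∀ c < n, ∃ j ∈ S c, 0 < j) :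
    ((∃ C : Finset (List ℕ), UD C ∧ ColLang N π n S = Fac C) →
      (∀ c < n, Closed (S c)) ∧
        {c | c < n ∧ ¬ Neutral (S c) ∧ ¬ Exceptional (S c)}.ncard ≤ 2) ∧
    ((∀ c < n, Closed (S c)) ∧ {c | c < n ∧ ¬ Neutral (S c)}.ncard ≤ 2 →
      ∃ C : Finset (List ℕ), UD C ∧ ColLang N π n S = Fac C) := by
  classical
  constructor
  · rintro ⟨C, hC, hL⟩
    obtain ⟨C0, hC0, hL0⟩ := plain N π hsur (by omega) hne hC hL
    have hcl : ∀ c < n, Closed (S c) := fun c hc => closed_of hC0 hL0 hn hne c hc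
    refine ⟨hcl, ?_⟩
    by_contra hcard
    push Not at hcard
    have hfin : {c | c < n ∧ ¬ Neutral (S c) ∧ ¬ Exceptional (S c)}.Finite :=
      (Set.finite_lt_nat n).subset (fun a ha => ha.1)
    rw [Set.ncard_eq_toFinset_card _ hfin] at hcard
    obtain ⟨a, b, c, ha, hb, hc, hab, hac, hbc⟩ := Finset.two_lt_card_iff.1 hcard
    have ha' := hfin.mem_toFinset.1 ha
    have hb' := hfin.mem_toFinset.1 hb
    have hc' := hfin.mem_toFinset.1 hc
    have ka := kinds (hcl a ha'.1) (hne a ha'.1) ha'.2.1 ha'.2.2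
    have kb := kinds (hcl b hb'.1) (hne b hb'.1) hb'.2.1 hb'.2.2
    have kc := kinds (hcl c hc'.1) (hne c hc'.1) hc'.2.1 hc'.2.2
    obtain ⟨S1, C1, hC1, hL1, hne1, hz1, he1⟩ := fix_one hC0 hL0 hn hne a ha'.1 ka
    have kb1 : HZ (Ez S1 b) ∨ ∃ B, (∃ j ∈ S1 b, 0 < j ∧ j ≤ B) ∧ ∀ j ∈ S1 b, B < j → 2 * B < j := by
      unfold Ez
      rw [he1 b hab.symm]
      exact kb
    obtain ⟨S2, C2, hC2, hL2, hne2, hz2, he2⟩ := fix_one hC1 hL1 hn hne1 b hb'.1 kb1
    have kc2 : HZ (Ez S2 c) ∨ ∃ B, (∃ j ∈ S2 c, 0 < j ∧ j ≤ B) ∧ ∀ j ∈ S2 c, B < j → 2 * B < j := by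
      unfold Ez
      rw [he2 c hbc.symm, he1 c hac.symm]
      exact kc
    obtain ⟨S3, C3, hC3, hL3, hne3, hz3, he3⟩ := fix_one hC2 hL2 hn hne2 c hc'.1 kc2
    have hza : HZ (Ez S3 a) := by
      unfold Ez at hz1 ⊢
      rw [he3 a hac, he2 a hab]
      exact hz1
    have hzb : HZ (Ez S3 b) := by
      unfold Ez at hz2 ⊢
      rw [he3 b hbc]
      exact hz2
    exact no_code2 (by omega) a b c hab hac hbc ha'.1 hb'.1 hc'.1 hne3 hza hzb hz3 C3 hC3 hL3
  · rintro ⟨hcl, hcard⟩
    obtain ⟨C0, hC0, hL0⟩ := sufficient2 n (by omega) S hcl hne hcard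
    exact lift_code N π n S hsur C0 hC0 hL0

/-- **Theorem.** -/
theorem main_all (N : ℕ) (π : ℕ → ℕ) (n : ℕ) (S : ℕ → Set ℕ) (hn : 2 ≤ n)
    (hsur : ∀ c < n, ∃ l < N, π l = c) (hne : ∀ c < n, ∃ j ∈ S c, 0 < j)
    (hE : n = 2 ∨ ∀ c < n, ¬ Exceptional (S c)) :
    (∃ C : Finset (List ℕ), UD C ∧ ColLang N π n S = Fac C) ↔
      AllClosed n S ∧ {c | c < n ∧ ¬ Neutral (S c)}.ncard ≤ 2 := by
  classical
  by_cases h2 : n = 2
  · subst h2
    rw [main_two N π S hsur hne]
    have hcard : {c | c < 2 ∧ ¬ Neutral (S c)}.ncard ≤ 2 := by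
      refine (Set.ncard_le_ncard (t := {0, 1}) ?_).trans (Set.ncard_pair (by omega)).le
      rintro a ⟨ha, _⟩
      have h2 : a = 0 ∨ a = 1 := by omega
      rcases h2 with rfl | rfl
      · exact Or.inl rfl
      · exact Or.inr rfl
    constructor
    · rintro (h | h)
      · exact ⟨Or.inl h, hcard⟩
      · exact ⟨Or.inr ⟨rfl, h⟩, hcard⟩
    · rintro ⟨h | ⟨_, h⟩, _⟩
      · exact Or.inl h
      · exact Or.inr h
  · have hE' := hE.resolve_left h2
    rw [main N π n S (by omega) hsur hne hE']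
    constructor
    · rintro ⟨h, h'⟩
      exact ⟨Or.inl h, h'⟩
    · rintro ⟨h | ⟨h, _⟩, h'⟩
      · exact ⟨h, h'⟩
      · exact absurd h h2

end Pool.Agent.Helper37.RX
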