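import Pool.Agent.Helper37.RX.Finite
import Pool.Agent.Helper37.RX.Conv

/-!
Every rational equivalence relation has a regular cross-section.
-/

namespace Pool.Agent.Helper37.RX

universe u

variable {A : Type u}

/-- The two-tape words with a nonempty cycle reading only the first tape. -/
def Cyc {σ : Type} (M : DFA (A ⊕ A) σ) : Language (A ⊕ A) :=
  {x | ∃ x1 x2 x3, x = x1 ++ x2 ++ x3 ∧ x2 ≠ [] ∧ rights x2 = [] ∧
    M.evalFrom (M.eval x1) x2 = M.eval x1}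

theorem regular_cyc {σ : Type} [Fintype σ] (M : DFA (A ⊕ A) σ) : (Cyc M).IsRegular := by
  refine regular_of_sig (β := σ × Prop × Set σ) _
    (fun x => (M.eval x, x ∈ Cyc M, {s | ∃ x1 x2, x = x1 ++ x2 ∧ rights x2 = [] ∧
      M.eval x1 = s})) ?_
  intro x y hxy z hz
  simp only [Prod.mk.injEq] at hxy
  obtain ⟨e1, e2, e3⟩ := hxy
  obtain ⟨x1, x2, x3, hx, hx2, hx2r, hcyc⟩ := hz
  rcases List.append_eq_append_iff.1 hx with ⟨c, hc1, hc2⟩ | ⟨c, hc1, hc2⟩
  · -- x1 ++ x2 = x ++ c, z = c ++ x3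
    rcases List.append_eq_append_iff.1 hc1.symm with ⟨d, hd1, hd2⟩ | ⟨d, hd1, hd2⟩
    · -- x1 = x ++ d, c = d ++ x2
      refine ⟨y ++ d, x2, x3, ?_, hx2, hx2r, ?_⟩
      · rw [hc2, hd2]; simp
      · rw [hd1, eval_append, e1, ← eval_append] at hcyc
        exact hcyc
    · -- x = x1 ++ d, x2 = d ++ c
      by_cases hc : c = []
      · subst hc
        have hxC : x ∈ Cyc M := by
          refine ⟨x1, x2, [], ?_, hx2, hx2r, hcyc⟩
          rw [hd2, hd1]; simp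
        rw [e2] at hxC
        obtain ⟨y1, y2, y3, hy, hy2, hy2r, hycyc⟩ := hxC
        exact ⟨y1, y2, y3 ++ z, by rw [hy]; simp, hy2, hy2r, hycyc⟩
      · have hm : M.eval x1 ∈ {s | ∃ x1 x2, x = x1 ++ x2 ∧ rights x2 = [] ∧ M.eval x1 = s} := by
          refine ⟨x1, d, hd1, ?_, rfl⟩
          rw [hd2, rights_append] at hx2r
          exact (List.append_eq_nil_iff.1 hx2r).1
        rw [e3] at hm
        obtain ⟨y1, y2, hy, hy2, hy3⟩ := hm
        refine ⟨y1, y2 ++ c, x3, ?_, ?_, ?_, ?_⟩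
        · rw [hy, hc2]; simp
        · simp [hc]
        · rw [hd2, rights_append] at hx2r
          rw [rights_append, hy2, (List.append_eq_nil_iff.1 hx2r).2]; rfl
        · rw [DFA.evalFrom_of_append, ← eval_append, ← hy, ← e1, hd1, eval_append,
            ← DFA.evalFrom_of_append, ← hd2, hcyc, hy3]
  · -- x = x1 ++ x2 ++ c, x3 = c ++ z
    have hxC : x ∈ Cyc M := ⟨x1, x2, c, hc1, hx2, hx2r, hcyc⟩
    rw [e2] at hxC
    obtain ⟨y1, y2, y3, hy, hy2, hy2r, hycyc⟩ := hxC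
    exact ⟨y1, y2, y3 ++ z, by rw [hy]; simp, hy2, hy2r, hycyc⟩

theorem general [Finite A] {R : List A → List A → Prop}
    {K : Language (A ⊕ A)} (hK : K.IsRegular)
    (hR : ∀ u v, R u v ↔ ∃ x ∈ K, lefts x = u ∧ rights x = v)
    (hsym : ∀ u v, R u v → R v u)
    (htrans : ∀ u v w, R u v → R v w → R u w) :
    ∃ L : Language A, L.IsRegular ∧ (∀ w ∈ L, ∃ v, R w v) ∧
      ∀ u, (∃ v, R u v) → ∃! w, w ∈ L ∧ R u w := by
  obtain ⟨σ, _, M, rfl⟩ := hK
  have hMreg : M.accepts.IsRegular := ⟨σ, inferInstance, M, rfl⟩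
  -- the good words
  have hdom : Language.IsRegular ({w | ∃ x ∈ M.accepts, lefts x = w} : Language A) :=
    regular_lefts hMreg
  have hbad : Language.IsRegular ({w | ∃ x ∈ M.accepts ⊓ Cyc M, lefts x = w} : Language A) :=
    regular_lefts (hMreg.inf (regular_cyc M))
  obtain ⟨G, hG, hGmem⟩ : ∃ G : Language A, G.IsRegular ∧ ∀ w, w ∈ G ↔
      (∃ x ∈ M.accepts, lefts x = w) ∧ ∀ x ∈ M.accepts, lefts x = w → x ∉ Cyc M := by
    refine ⟨_, hdom.inf hbad.compl, ?_⟩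
    intro w
    constructor
    · rintro ⟨h1, h2⟩
      refine ⟨h1, fun x hx hxw hc => h2 ⟨x, ⟨hx, hc⟩, hxw⟩⟩
    · rintro ⟨h1, h2⟩
      refine ⟨h1, ?_⟩
      rintro ⟨x, ⟨hx, hc⟩, hxw⟩
      exact h2 x hx hxw hc
  -- the restricted relation
  have hK' : Language.IsRegular ({x | x ∈ M.accepts ∧ lefts x ∈ G ∧ rights x ∈ G} :
      Language (A ⊕ A)) := hMreg.inf ((regular_comap_lefts hG).inf (regular_comap_rights hG))
  obtain ⟨τ, _, N, hN⟩ := hK'
  have hNmem : ∀ x, x ∈ N.accepts ↔ x ∈ M.accepts ∧ lefts x ∈ G ∧ rights x ∈ G := by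
    intro x
    rw [hN]
    rfl
  have hR' : ∀ u v, (R u v ∧ u ∈ G ∧ v ∈ G) ↔ ∃ x ∈ N.accepts, lefts x = u ∧ rights x = v := by
    intro u v
    constructor
    · rintro ⟨h, hu, hv⟩
      obtain ⟨x, hx, rfl, rfl⟩ := (hR _ _).1 h
      exact ⟨x, (hNmem x).2 ⟨hx, hu, hv⟩, rfl, rfl⟩
    · rintro ⟨x, hx, rfl, rfl⟩
      obtain ⟨h1, h2, h3⟩ := (hNmem x).1 hx
      exact ⟨(hR _ _).2 ⟨x, h1, rfl, rfl⟩, h2, h3⟩
  have hfin' : ∀ u, {v | R u v ∧ u ∈ G ∧ v ∈ G}.Finite := by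
    intro u
    refine (List.finite_length_le A (Fintype.card σ * (u.length + 1))).subset ?_
    rintro v ⟨huv, hu, hv⟩
    obtain ⟨x, hx, hxv, hxu⟩ := (hR _ _).1 (hsym _ _ huv)
    have := lefts_le (n := Fintype.card σ) (x := x) (by
      rintro x1 x2 x3 rfl hx2
      by_contra hlt
      push Not at hlt
      obtain ⟨q, a, b, c, rfl, -, hb, ha, hq, hc⟩ :=
        M.evalFrom_split (s := M.eval x1) hlt rfl
      simp only [rights_append, List.append_eq_nil_iff] at hx2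
      refine ((hGmem v).1 hv).2 _ hx hxv ⟨x1 ++ a, b, c ++ x3, by simp, hb, hx2.1.2, ?_⟩
      rw [eval_append, ha, hq])
    rw [hxu, hxv] at this
    exact this
  obtain ⟨L, hL, hL1, hL2⟩ := finite_case (M := N) (R := fun u v => R u v ∧ u ∈ G ∧ v ∈ G) hR'
    (fun u v h => ⟨hsym _ _ h.1, h.2.2, h.2.1⟩)
    (fun u v w h1 h2 => ⟨htrans _ _ _ h1.1 h2.1, h1.2.1, h2.2.2⟩) hfin'
  refine ⟨L, hL, ?_, ?_⟩
  · intro w hw
    obtain ⟨v, hv⟩ := hL1 w hw
    exact ⟨v, hv.1⟩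
  · rintro u ⟨v, huv⟩
    -- a shortest word of the class is good
    obtain ⟨w, hw, hmin⟩ : ∃ w, R u w ∧ ∀ w', R u w' → w.length ≤ w'.length := by
      obtain ⟨w, hw, hmin⟩ := (measure (List.length (α := A))).wf.has_min {w | R u w} ⟨v, huv⟩
      exact ⟨w, hw, fun w' hw' => not_lt.1 (hmin w' hw')⟩
    have hwG : w ∈ G := by
      rw [hGmem]
      constructor
      · obtain ⟨x, hx, hxw, -⟩ := (hR _ _).1 (hsym _ _ hw)
        exact ⟨x, hx, hxw⟩
      · rintro x hx hxw ⟨x1, x2, x3, rfl, hx2, hx2r, hcyc⟩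
        have hx' : x1 ++ x3 ∈ M.accepts := by
          rw [DFA.mem_accepts] at hx ⊢
          rw [eval_append, eval_append, hcyc] at hx
          rwa [eval_append]
        have hRw : R w (rights (x1 ++ x3)) := by
          rw [hR]
          refine ⟨_, hx, hxw, ?_⟩
          simp [hx2r]
        have hRw' : R (lefts (x1 ++ x3)) (rights (x1 ++ x3)) := (hR _ _).2 ⟨_, hx', rfl, rfl⟩
        have hu : R u (lefts (x1 ++ x3)) :=
          htrans _ _ _ (htrans _ _ _ hw hRw) (hsym _ _ hRw')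
        have hle := hmin _ hu
        rw [← hxw] at hle
        simp only [lefts_append, List.length_append] at hle
        have hlen := length_eq x2
        rw [hx2r, List.length_nil, add_zero] at hlen
        have := List.length_pos_iff.2 hx2
        omega
    have hww : R w w := htrans _ _ _ (hsym _ _ hw) hw
    obtain ⟨w0, ⟨hw0, hw0'⟩, huniq⟩ := hL2 w ⟨w, hww, hwG, hwG⟩
    refine ⟨w0, ⟨hw0, htrans _ _ _ hw hw0'.1⟩, ?_⟩
    rintro w1 ⟨hw1, huw1⟩
    obtain ⟨v1, hv1⟩ := hL1 w1 hw1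
    exact huniq w1 ⟨hw1, htrans _ _ _ (hsym _ _ hw) huw1, hwG, hv1.2.1⟩

/-- Statement (C) holds. -/
theorem statementC : StatementC.{u} := by
  intro A _ R hR
  obtain ⟨K, hK, hRK⟩ := hR.rational.exists_regular
  exact general hK hRK hR.symm hR.trans

end Pool.Agent.Helper37.RX
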