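import Pool.Agent.Helper37.RX.G

/-!
# Two letters, one of them with finitely many run lengths
-/

set_option autoImplicit false

namespace Pool.Agent.Helper37.RX

open Pool.Agent.Helper31.BD
open Pool.Agent.Helper37.RV (pr pr_self pr_ne pr_append pr_rep pr_free pr_other Complete RunLang Ez
  complete_iff MaxRun)
open Pool.Agent.Helper37.RU (tl tl_self tl_ne tl_append tl_rep tl_last exists_rep)

/-- equal words beginning with runs -/
theorem rep_unique (a : ℕ) : ∀ (i j : ℕ) (F G : List ℕ), (∀ z ∈ F.head?, z ≠ a) →
    (∀ z ∈ G.head?, z ≠ a) → List.replicate i a ++ F = List.replicate j a ++ G →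
    i = j ∧ F = G := by
  intro i
  induction i with
  | zero =>
    intro j F G hF hG h
    rcases j with _ | j
    · exact ⟨rfl, h⟩
    · exfalso
      rw [List.replicate_zero, List.nil_append] at h
      rw [h, List.replicate_succ] at hF
      exact hF a (by simp) rfl
  | succ i ih =>
    intro j F G hF hG h
    rcases j with _ | j
    · exfalso
      rw [List.replicate_zero, List.nil_append] at h
      rw [← h, List.replicate_succ] at hG
      exact hG a (by simp) rfl
    · rw [List.replicate_succ, List.replicate_succ, List.cons_append, List.cons_append] at h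
      obtain ⟨h1, h2⟩ := ih j F G hF hG (List.cons_eq_cons.1 h).2
      exact ⟨by rw [h1], h2⟩

theorem two_code (S : ℕ → Set ℕ) (c y k : ℕ) (hcy : c ≠ y) (hc : c < 2) (hy : y < 2) (hk0 : 0 < k)
    (hk : ∀ j ∈ S c, 0 < j → j + k ∈ S c) (hfin : (S y).Finite) (hnec : ∃ j ∈ S c, 0 < j)
    (hney : ∃ j ∈ S y, 0 < j) : ∃ C : Finset (List ℕ), UD C ∧ RunLang 2 S = Fac C := by
  classical
  have hlet : ∀ x, x < 2 → x = c ∨ x = y := by omega
  have hadd : ∀ i m, m ∈ S c → 0 < m → m + k * i ∈ S c := by
    intro i
    induction i with
    | zero => intro m hm _; simpa using hm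
    | succ i ih =>
      intro m hm hm0
      have h1 : m + k * (i + 1) = (m + k * i) + k := by ring
      rw [h1]
      exact hk _ (ih m hm hm0) (by omega)
  let J : Set ℕ := {j | 0 < j ∧ j ∈ S c ∧ ¬ (k < j ∧ j - k ∈ S c)}
  have hJ : J.Finite := by
    refine Set.Finite.of_injOn (f := fun m => m % k) (t := {m | m < k}) ?_ ?_
      (Set.finite_lt_nat k)
    · intro m _
      exact Nat.mod_lt m hk0
    · have key : ∀ m ∈ J, ∀ m' ∈ J, m % k = m' % k → m < m' → False := by
        intro m hm m' hm' he hlt
        obtain ⟨i, hi⟩ := (Nat.modEq_iff_dvd' hlt.le).1 he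
        obtain ⟨h1, h2, _⟩ := hm
        obtain ⟨h3, h4, h5⟩ := hm'
        rcases i with _ | i
        · omega
        · have h6 : m' = m + k * i + k := by
            have h7 : m' = m + k * (i + 1) := by omega
            rw [h7]
            ring
          apply h5
          rw [h6, Nat.add_sub_cancel]
          exact ⟨by omega, hadd i m h2 h1⟩
      intro m hm m' hm' he
      rcases Nat.lt_trichotomy m m' with h | h | h
      · exact (key m hm m' hm' he h).elim
      · exact h
      · exact (key m' hm' m hm he.symm h).elim
  let R : Set ℕ := {r | r ∈ S y ∧ 0 < r}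
  have hR : R.Finite := hfin.subset fun r hr => hr.1
  let C : Finset (List ℕ) := insert (List.replicate k c)
    (Finset.image₂ (fun j r => List.replicate j c ++ List.replicate r y) hJ.toFinset hR.toFinset)
  have hC : ∀ w, w ∈ C ↔ w = List.replicate k c ∨
      ∃ j ∈ J, ∃ r ∈ R, w = List.replicate j c ++ List.replicate r y := by
    intro w
    simp only [C, Finset.mem_insert, Finset.mem_image₂, Set.Finite.mem_toFinset]
    constructor
    · rintro (h | ⟨j, hj, r, hr, h⟩)
      · exact Or.inl h
      · exact Or.inr ⟨j, hj, r, hr, h.symm⟩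
    · rintro (h | ⟨j, hj, r, hr, h⟩)
      · exact Or.inl h
      · exact Or.inr ⟨j, hj, r, hr, h.symm⟩
  obtain ⟨r0, hr0, hr00⟩ := hney
  -- heads
  have hhead : ∀ l, Over C l → ∀ z ∈ l.flatten.head?, z = c := by
    intro l hl
    cases l with
    | nil => intro z hz; simp at hz
    | cons w l =>
      intro z hz
      rcases (hC w).1 (hl w (by simp)) with h | ⟨j, ⟨hj, _, _⟩, r, _, h⟩
      · obtain ⟨k', rfl⟩ : ∃ k', k = k' + 1 := ⟨k - 1, by omega⟩
        rw [h, List.replicate_succ] at hz
        simpa using hz.symm
      · obtain ⟨j', rfl⟩ : ∃ j', j = j' + 1 := ⟨j - 1, by omega⟩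
        rw [h, List.replicate_succ] at hz
        simpa using hz.symm
  have hnil : ∀ w ∈ C, w ≠ [] := by
    intro w hw h0
    rcases (hC w).1 hw with h | ⟨j, ⟨hj, _, _⟩, r, _, h⟩
    · rw [h0] at h
      have := congrArg List.length h
      simp at this
      omega
    · rw [h0] at h
      have := congrArg List.length h
      simp at this
      omega
  have hyr : ∀ (r : ℕ) (F : List ℕ), 0 < r → ∀ z ∈ (List.replicate r y ++ F).head?, z ≠ c := by
    intro r F hr z hz
    obtain ⟨r', rfl⟩ : ∃ r', r = r' + 1 := ⟨r - 1, by omega⟩
    rw [List.replicate_succ] at hz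
    simp only [List.cons_append, List.head?_cons, Option.mem_def, Option.some.injEq] at hz
    rw [← hz]
    exact Ne.symm hcy
  -- leading run
  have hlead : ∀ l, Over C l → ∀ m r F, 0 < r →
      l.flatten = List.replicate m c ++ (List.replicate r y ++ F) → 0 < m ∧ m ∈ S c := by
    intro l
    induction l with
    | nil =>
      intro _ m r F hr h
      have := congrArg List.length h
      simp at this
      omega
    | cons w l ih =>
      intro hl m r F hr h
      rw [List.flatten_cons] at h
      rcases (hC w).1 (hl w (by simp)) with h1 | ⟨j, ⟨hj, hjS, _⟩, r', ⟨_, hr'⟩, h1⟩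
      · rw [h1] at h
        rcases Nat.lt_or_ge m k with hmk | hmk
        · exfalso
          obtain ⟨d, rfl⟩ : ∃ d, k = m + (d + 1) := ⟨k - m - 1, by omega⟩
          rw [List.replicate_add, List.append_assoc] at h
          have h2 := List.append_cancel_left h
          have h3 := hyr r F hr c (by rw [← h2, List.replicate_succ]; simp)
          exact h3 rfl
        · obtain ⟨d, rfl⟩ : ∃ d, m = k + d := ⟨m - k, by omega⟩
          rw [List.replicate_add, List.append_assoc] at h
          have h2 := List.append_cancel_left h
          obtain ⟨h3, h4⟩ := ih (fun w hw => hl w (by simp [hw])) d r F hr h2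
          refine ⟨by omega, ?_⟩
          rw [Nat.add_comm]
          exact hk d h4 h3
      · rw [h1, List.append_assoc] at h
        obtain ⟨h2, _⟩ := rep_unique c j m _ _ (hyr r' _ hr') (hyr r F hr) h
        rw [← h2]
        exact ⟨hj, hjS⟩
  have hny : ∀ l, Over C l → ∀ z ∈ l.flatten.head?, z ≠ y := by
    intro l hl z hz
    rw [hhead l hl z hz]
    exact hcy
  -- mixed case
  have hmix : ∀ l l', Over C l → Over C l' → ∀ j r, j ∈ J → r ∈ R →
      List.replicate k c ++ l.flatten =
        (List.replicate j c ++ List.replicate r y) ++ l'.flatten → False := by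
    rintro l l' hl hl' j r ⟨hj, hjS, hjn⟩ ⟨_, hr⟩ h
    rw [List.append_assoc] at h
    rcases Nat.lt_or_ge j k with hjk | hjk
    · obtain ⟨d, rfl⟩ : ∃ d, k = j + (d + 1) := ⟨k - j - 1, by omega⟩
      rw [List.replicate_add, List.append_assoc] at h
      have h2 := List.append_cancel_left h
      have h3 := hyr r l'.flatten hr c (by rw [← h2, List.replicate_succ]; simp)
      exact h3 rfl
    · obtain ⟨d, rfl⟩ : ∃ d, j = k + d := ⟨j - k, by omega⟩
      rw [List.replicate_add, List.append_assoc] at h
      have h2 := List.append_cancel_left h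
      obtain ⟨h3, h4⟩ := hlead l hl d r _ hr h2
      apply hjn
      refine ⟨by omega, ?_⟩
      rw [Nat.add_sub_cancel_left]
      exact h4
  have hUD : UD C := by
    intro l1
    induction l1 with
    | nil =>
      intro l2 _ h2 he
      cases l2 with
      | nil => rfl
      | cons w l2 =>
        exfalso
        rw [List.flatten_nil, List.flatten_cons] at he
        have h3 := (List.append_eq_nil_iff.1 he.symm).1
        exact hnil w (h2 w (by simp)) h3
    | cons w1 l1 ih =>
      intro l2 h1 h2 he
      cases l2 with
      | nil =>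
        exfalso
        rw [List.flatten_nil, List.flatten_cons] at he
        have h3 := (List.append_eq_nil_iff.1 he).1
        exact hnil w1 (h1 w1 (by simp)) h3
      | cons w2 l2 =>
        have g1 : Over C l1 := fun w hw => h1 w (by simp [hw])
        have g2 : Over C l2 := fun w hw => h2 w (by simp [hw])
        rw [List.flatten_cons, List.flatten_cons] at he
        rcases (hC w1).1 (h1 w1 (by simp)) with e1 | ⟨j, hj, r, hr, e1⟩ <;>
          rcases (hC w2).1 (h2 w2 (by simp)) with e2 | ⟨j', hj', r', hr', e2⟩
        · rw [e1, e2] at he ⊢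
          rw [ih l2 g1 g2 (List.append_cancel_left he)]
        · rw [e1, e2] at he
          exact (hmix l1 l2 g1 g2 j' r' hj' hr' he).elim
        · rw [e1, e2] at he
          exact (hmix l2 l1 g2 g1 j r hj hr he.symm).elim
        · rw [e1, e2] at he ⊢
          rw [List.append_assoc, List.append_assoc] at he
          obtain ⟨h3, h4⟩ := rep_unique c j j' _ _ (hyr r _ hr.2) (hyr r' _ hr'.2) he
          obtain ⟨h5, h6⟩ := rep_unique y r r' _ _ (hny l1 g1) (hny l2 g2) h4
          rw [h3, h5, ih l2 g1 g2 h6]
  refine ⟨C, hUD, ?_⟩
  -- one block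
  have hblock : ∀ m, m ∈ S c → 0 < m → ∀ r ∈ R, ∃ l, Over C l ∧
      l.flatten = List.replicate m c ++ List.replicate r y := by
    intro m
    induction m using Nat.strong_induction_on with
    | _ m ih =>
      intro hm hm0 r hr
      by_cases hmJ : k < m ∧ m - k ∈ S c
      · obtain ⟨l, h1, h2⟩ := ih (m - k) (by omega) hmJ.2 (by omega) r hr
        refine ⟨List.replicate k c :: l, ?_, ?_⟩
        · intro w hw
          rcases List.mem_cons.1 hw with h | h
          · rw [h, hC]
            exact Or.inl rfl
          · exact h1 w h
        · rw [List.flatten_cons, h2, ← List.append_assoc, ← List.replicate_add]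
          have h3 : k + (m - k) = m := by omega
          rw [h3]
      · refine ⟨[List.replicate m c ++ List.replicate r y], over_one ?_, by simp⟩
        rw [hC]
        exact Or.inr ⟨m, ⟨hm0, hm, hmJ⟩, r, hr, rfl⟩
  have hdec : ∀ (L : ℕ) (W : List ℕ), W.length ≤ L → Complete 2 S W →
      (W = [] ∨ (∃ W', W = c :: W') ∧ ∃ W', W = W' ++ [y]) → ∃ l, Over C l ∧ l.flatten = W := by
    intro L
    induction L with
    | zero =>
      intro W hW _ _
      refine ⟨[], ?_, ?_⟩
      · intro w hw
        simp at hw
      · rw [List.length_eq_zero_iff.1 (Nat.le_zero.1 hW)]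
        rfl
    | succ L ih =>
      intro W hW hcom hends
      rcases hends with h0 | ⟨⟨W', hW'⟩, W'', hW''⟩
      · refine ⟨[], ?_, h0.symm⟩
        intro w hw
        simp at hw
      obtain ⟨m, z, h1, h2⟩ := exists_rep c W
      have hz : ∃ z1, z = y :: z1 := by
        rcases h2 with h2 | ⟨x, z1, h2, hx⟩
        · exfalso
          rw [h2, List.append_nil] at h1
          have h3 : y ∈ W := by rw [hW'']; simp
          rw [h1] at h3
          exact hcy (List.eq_of_mem_replicate h3).symm
        · have h3 : x ∈ W := by rw [h1, h2]; simp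
          rcases hlet x (hcom.1 x h3) with h4 | h4
          · exact absurd h4 hx
          · exact ⟨z1, by rw [h2, h4]⟩
      obtain ⟨z1, hz1⟩ := hz
      obtain ⟨r, z2, h3, h4⟩ := exists_rep y z
      have hm0 : 0 < m := by
        rcases Nat.eq_zero_or_pos m with h | h
        · exfalso
          rw [h, hz1, hW', List.replicate_zero, List.nil_append] at h1
          exact hcy (List.cons_eq_cons.1 h1).1
        · exact h
      have hr0 : 0 < r := by
        rcases Nat.eq_zero_or_pos r with h | h
        · exfalso
          rw [h, List.replicate_zero, List.nil_append] at h3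
          rcases h4 with h4 | ⟨x, z3, h4, hx⟩
          · rw [h3, h4] at hz1
            simp at hz1
          · rw [h3, h4] at hz1
            exact hx (List.cons_eq_cons.1 hz1).1
        · exact h
      have hz2c : ∀ x ∈ z2.head?, x = c ∧ x ≠ y := by
        intro x hx
        rcases h4 with h4 | ⟨x', z3, h4, hx'⟩
        · rw [h4] at hx
          simp at hx
        · rw [h4] at hx
          simp only [List.head?_cons, Option.mem_def, Option.some.injEq] at hx
          subst hx
          have h5 : x' ∈ W := by rw [h1, h3, h4]; simp
          rcases hlet x' (hcom.1 x' h5) with h6 | h6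
          · exact ⟨h6, hx'⟩
          · exact absurd h6 hx'
      have hmS : m ∈ S c := by
        refine hcom.2 c m ⟨hm0, [], z, by rw [h1]; simp, by simp, ?_⟩
        intro x hx
        rw [hz1] at hx
        simp only [List.head?_cons, Option.mem_def, Option.some.injEq] at hx
        rw [← hx]
        exact Ne.symm hcy
      have hrS : r ∈ S y := by
        refine hcom.2 y r ⟨hr0, List.replicate m c, z2, by rw [h1, h3], ?_, fun x hx => (hz2c x hx).2⟩
        intro x hx
        have h5 := List.mem_of_getLast? hx
        rw [List.eq_of_mem_replicate h5]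
        exact hcy
      obtain ⟨l1, g1, g2⟩ := hblock m hmS hm0 r ⟨hrS, hr0⟩
      -- the rest
      have hrest : Complete 2 S z2 := by
        rw [complete_iff] at hcom ⊢
        refine ⟨fun a ha => hcom.1 a (by rw [h1, h3]; simp [ha]), fun a => ?_⟩
        obtain ⟨p1, p2⟩ := hcom.2 a
        rw [h1, h3, ← List.append_assoc, pr_append] at p1
        rw [h1, h3, ← List.append_assoc, tl_append] at p2
        by_cases hay : a = y
        · subst hay
          cases z2 with
          | nil => exact ⟨trivial, ez0 a⟩
          | cons x z3 =>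
            have hx := (hz2c x (by simp)).2
            rw [pr_ne _ _ _ _ _ hx] at p1 ⊢
            rw [tl_ne _ _ _ _ hx] at p2 ⊢
            exact ⟨⟨ez0 a, p1.2.2⟩, p2⟩
        · have h5 : tl a 0 (List.replicate m c ++ List.replicate r y) = 0 := by
            rw [tl_append]
            exact (pr_other Set.univ (Set.mem_univ _) a y _ r (Ne.symm hay) hr0).2
          rw [h5] at p1 p2
          exact ⟨p1.2, p2⟩
      have hz2e : z2 = [] ∨ (∃ W', z2 = c :: W') ∧ ∃ W', z2 = W' ++ [y] := by
        cases z2 with
        | nil => exact Or.inl rfl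
        | cons x z3 =>
          right
          refine ⟨⟨z3, by rw [(hz2c x (by simp)).1]⟩, ?_⟩
          obtain ⟨v, b, hvb⟩ := last_of (w := x :: z3) (by simp)
          refine ⟨v, ?_⟩
          rw [hvb]
          rw [hvb] at h3
          rw [h3, hW'', ← List.append_assoc, ← List.append_assoc] at h1
          have h6 := List.append_inj_right' h1 rfl
          rw [← h6]
      have hlen : z2.length ≤ L := by
        have := congrArg List.length h1
        have h5 := congrArg List.length h3
        simp only [List.length_append, List.length_replicate] at this h5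
        omega
      obtain ⟨l2, g3, g4⟩ := ih z2 hlen hrest hz2e
      refine ⟨l1 ++ l2, over_app.2 ⟨g1, g3⟩, ?_⟩
      rw [List.flatten_append, g2, g4, h1, h3, List.append_assoc]
  obtain ⟨s0, hs0, hs00⟩ := hnec
  ext w
  constructor
  · rintro ⟨u, v, hW⟩
    -- fix the left end
    obtain ⟨a, W', ha1, ha2⟩ : ∃ a W', Complete 2 S (a ++ (u ++ w ++ v)) ∧
        a ++ (u ++ w ++ v) = c :: W' := by
      obtain ⟨s', rfl⟩ : ∃ s', s0 = s' + 1 := ⟨s0 - 1, by omega⟩
      rcases hh : u ++ w ++ v with _ | ⟨x, W1⟩
      · rw [hh] at hW
        refine ⟨List.replicate (s' + 1) c, List.replicate s' c,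
          complete_cons hW hc (Or.inr hs0) (by simp), by rw [List.replicate_succ]; simp⟩
      · rw [hh] at hW
        rcases hlet x (hW.1 x (by simp)) with hx | hx
        · exact ⟨[], W1, by simpa using hW, by rw [hx]; rfl⟩
        · refine ⟨List.replicate (s' + 1) c, List.replicate s' c ++ (x :: W1),
            complete_cons hW hc (Or.inr hs0) ?_, by rw [List.replicate_succ]; rfl⟩
          intro z hz
          simp only [List.head?_cons, Option.mem_def, Option.some.injEq] at hz
          rw [← hz, hx]
          exact Ne.symm hcy
    generalize hX : a ++ (u ++ w ++ v) = X at ha1 ha2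
    obtain ⟨X', x, hx⟩ := last_of (w := X) (by rw [ha2]; simp)
    obtain ⟨b, hb1, hb2⟩ : ∃ b, Complete 2 S (X ++ b) ∧ ∃ W', X ++ b = W' ++ [y] := by
      rcases hlet x (ha1.1 x (by rw [hx]; simp)) with h1 | h1
      · obtain ⟨r', rfl⟩ : ∃ r', r0 = r' + 1 := ⟨r0 - 1, by omega⟩
        refine ⟨List.replicate (r' + 1) y, ?_, X ++ List.replicate r' y, ?_⟩
        · have h2 := complete_cons (complete_rev ha1) hy (Or.inr hr0) (by
            intro z hz
            rw [hx] at hz
            simp only [List.reverse_append, List.reverse_cons, List.reverse_nil, List.nil_append,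
              List.cons_append, List.head?_cons, Option.mem_def, Option.some.injEq] at hz
            rw [← hz, h1]
            exact hcy)
          have h3 := complete_rev h2
          rwa [List.reverse_append, List.reverse_reverse, List.reverse_replicate] at h3
        · rw [List.replicate_succ']
          simp
      · exact ⟨[], by simpa using ha1, X', by rw [List.append_nil, hx, h1]⟩
    obtain ⟨l, hl1, hl2⟩ := hdec _ (X ++ b) le_rfl hb1
      (Or.inr ⟨⟨W' ++ b, by rw [ha2]; rfl⟩, hb2⟩)
    refine ⟨a ++ u, v ++ b, l, hl1, ?_⟩
    rw [hl2, ← hX]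
    simp only [List.append_assoc]
  · rintro ⟨u, v, l, hl, he⟩
    refine run_factor (u := u) (v := v) ?_
    rw [he]
    have hlt : ∀ x ∈ l.flatten, x < 2 := by
      intro x hx
      obtain ⟨w', hw', hxw⟩ := List.mem_flatten.1 hx
      rcases (hC w').1 (hl w' hw') with h | ⟨j, _, r, _, h⟩
      · rw [h] at hxw
        rw [List.eq_of_mem_replicate hxw]
        exact hc
      · rw [h] at hxw
        rcases List.mem_append.1 hxw with h1 | h1
        · rw [List.eq_of_mem_replicate h1]
          exact hc
        · rw [List.eq_of_mem_replicate h1]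
          exact hy
    rw [loc hlt]
    intro a
    by_cases hac : a = c
    · -- the runs of `c`
      have key : ∀ l, Over C l → ∀ i, pr (Ez S c) c (k * i) l.flatten ∧
          ∃ i', tl c (k * i) l.flatten = k * i' := by
        intro l
        induction l with
        | nil => intro _ i; exact ⟨trivial, i, rfl⟩
        | cons w l ih =>
          intro hl i
          have g := ih (fun w hw => hl w (by simp [hw]))
          rw [List.flatten_cons]
          rcases (hC w).1 (hl w (by simp)) with h | ⟨j, ⟨hj, hjS, _⟩, r, ⟨_, hr⟩, h⟩
          · rw [h, pr_rep, tl_rep]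
            have h1 : k * i + k = k * (i + 1) := by ring
            rw [h1]
            exact g (i + 1)
          · obtain ⟨r', rfl⟩ : ∃ r', r = r' + 1 := ⟨r - 1, by omega⟩
            have hne : y ≠ c := Ne.symm hcy
            have hf := pr_free (Ez S c) (ez0 c) c (List.replicate r' y)
              (fun h => hcy (List.eq_of_mem_replicate h))
            rw [h, List.append_assoc, pr_rep, tl_rep, List.replicate_succ, List.cons_append,
              pr_ne _ _ _ _ _ hne, tl_ne _ _ _ _ hne, pr_append, tl_append, hf.2]
            have g0 := g 0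
            rw [Nat.mul_zero] at g0
            refine ⟨⟨Or.inr ?_, hf.1, g0.1⟩, g0.2⟩
            rw [Nat.add_comm]
            exact hadd i j hjS hj
      obtain ⟨h1, i', h2⟩ := key l hl 0
      rw [Nat.mul_zero] at h1 h2
      refine ⟨0, s0, ?_, ?_⟩
      · rw [hac]
        exact h1
      · rw [hac, h2, Nat.add_comm]
        exact Or.inr (hadd i' s0 hs0 hs00)
    · by_cases hay : a = y
      · have key : ∀ l, Over C l → ∀ m ∈ Ez S y, pr (Ez S y) y m l.flatten ∧
            tl y m l.flatten ∈ Ez S y := by
          intro l
          induction l with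
          | nil => intro _ m hm; exact ⟨trivial, hm⟩
          | cons w l ih =>
            intro hl m hm
            have g := ih (fun w hw => hl w (by simp [hw]))
            rw [List.flatten_cons]
            rcases (hC w).1 (hl w (by simp)) with h | ⟨j, ⟨hj, hjS, _⟩, r, ⟨hrS, hr⟩, h⟩
            · have ho := pr_other (Ez S y) (ez0 y) y c m k hcy hk0
              rw [h, pr_append, tl_append, ho.2]
              exact ⟨⟨ho.1.2 hm, (g 0 (ez0 y)).1⟩, (g 0 (ez0 y)).2⟩
            · have ho := pr_other (Ez S y) (ez0 y) y c m j hcy hj
              rw [h, List.append_assoc, pr_append, tl_append, ho.2, pr_rep, tl_rep, Nat.zero_add]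
              have g1 := g r (Or.inr hrS)
              exact ⟨⟨ho.1.2 hm, g1.1⟩, g1.2⟩
        obtain ⟨h1, h2⟩ := key l hl 0 (ez0 y)
        exact ⟨0, 0, by rw [hay]; exact h1, by rw [hay]; exact h2⟩
      · have h1 := pr_free (Ez S a) (ez0 a) a l.flatten (by
          intro h
          rcases hlet a (hlt a h) with h2 | h2
          · exact hac h2
          · exact hay h2)
        exact ⟨0, 0, h1.1, by rw [h1.2]; exact ez0 a⟩

end Pool.Agent.Helper37.RX
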